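import Mathlib
import Pool.Agent.H391.AE.S

/-!
F1: the basic bound (by helper375 for helper391).
-/

set_option autoImplicit false

open Finset
open scoped InnerProductSpace

namespace H391.AE.P_F1

open H391.AE

variable {n : ℕ}

/-- the bound with the constant `C` -/
def Bd (R : Finset (V n)) (C : ℝ) : Prop := ∀ (a : V n) (z : V n × V n), ‖E R a z‖ ^ 2 ≤
    C * (∏ α ∈ R, (|(inner ℝ) α a| * ‖cp α z‖)) * Real.exp (C * (‖a‖ * ‖z.2‖))

theorem prd_nonneg (R : Finset (V n)) (a : V n) (z : V n × V n) :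
    0 ≤ ∏ α ∈ R, (|(inner ℝ) α a| * ‖cp α z‖) :=
  Finset.prod_nonneg fun _ _ => mul_nonneg (abs_nonneg _) (norm_nonneg _)

theorem Bd.mono {R : Finset (V n)} {C C' : ℝ} (h : Bd R C) (h0 : 0 ≤ C) (hC : C ≤ C') :
    Bd R C' := by
  intro a z
  refine (h a z).trans ?_
  have h1 := prd_nonneg R a z
  have h2 : 0 ≤ ‖a‖ * ‖z.2‖ := mul_nonneg (norm_nonneg _) (norm_nonneg _)
  refine mul_le_mul (mul_le_mul_of_nonneg_right hC h1) ?_ (Real.exp_pos _).le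
    (mul_nonneg (h0.trans hC) h1)
  exact Real.exp_le_exp.2 (mul_le_mul_of_nonneg_right hC h2)

theorem norm_term (a : V n) (z : V n × V n) :
    ‖Complex.exp (Complex.I * cp a z)‖ = Real.exp (-(inner ℝ) a z.2) := by
  rw [Complex.norm_exp]
  congr 1
  unfold cp
  simp

theorem crude (hW : S_W) {R : Finset (V n)} (hR : IsRS R) (a : V n) (z : V n × V n) :
    ‖E R a z‖ ≤ ((Wf R).card : ℝ) * Real.exp (‖a‖ * ‖z.2‖) := by
  obtain ⟨-, -, hsg, -⟩ := hW n R hR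
  unfold E
  refine (norm_sum_le _ _).trans ?_
  rw [← nsmul_eq_mul]
  refine Finset.sum_le_card_nsmul _ _ _ fun w hw => ?_
  rw [norm_mul, norm_term]
  have h1 : ‖((sg w : ℝ) : ℂ)‖ = 1 := by
    rw [Complex.norm_real]
    rcases hsg w hw with h | h <;> rw [h] <;> simp
  rw [h1, one_mul]
  refine Real.exp_le_exp.2 ?_
  have h2 := abs_real_inner_le_norm (w a) z.2
  rw [LinearIsometryEquiv.norm_map] at h2
  exact (neg_le_abs _).trans h2

theorem cp_inv (w : V n ≃ₗᵢ[ℝ] V n) (α : V n) (z : V n × V n) :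
    cp α (w⁻¹ z.1, w⁻¹ z.2) = cp (w α) z := by
  unfold cp
  have h : ∀ y : V n, (inner ℝ) α (w⁻¹ y) = (inner ℝ) (w α) y := by
    intro y
    have h1 := LinearIsometryEquiv.inner_map_map w α (w⁻¹ y)
    rw [← h1]
    congr 1
    show w (w.symm y) = y
    exact w.apply_symm_apply y
  simp only [h]

theorem step (hW : S_W) (halt : S_alt) (hld : S_ld) (hproj : S_proj) (hsub : S_sub)
    (hcomp : S_comp) (hcl : S_cl) {R : Finset (V n)} (hR : IsRS R) (hne : R.Nonempty) {C1 : ℝ}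
    (hC1 : 0 ≤ C1) (hall : ∀ Φ, Φ ⊂ R → IsRS Φ → Bd Φ C1) : ∃ C : ℝ, 0 ≤ C ∧ Bd R C := by
  obtain ⟨ε, hε, hcomp⟩ := hcomp n R hR
  obtain ⟨c, C0, hc, hC0, hcl⟩ := hcl n R hR
  obtain ⟨-, hWR, -, -, -, -, -, -, hre⟩ := hW n R hR
  set κ : ℝ := min 1 (ε * c) with hκ
  have hκ0 : 0 < κ := lt_min one_pos (mul_pos hε hc)
  have hκ1 : κ ≤ 1 := min_le_left _ _
  have hκ2 : κ ≤ ε * c := min_le_right _ _
  set K : ℝ := ((Wf R).card : ℝ) ^ 2 * C1 * (κ ^ R.card)⁻¹ * Real.exp (2 * C1 * C0) with hK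
  have hK0 : 0 ≤ K := by
    have := Real.exp_pos (2 * C1 * C0)
    have := inv_pos.2 (pow_pos hκ0 R.card)
    positivity
  refine ⟨K + C1 + 4, by linarith, fun a z => ?_⟩
  have hP := prd_nonneg R a z
  have hRHS : 0 ≤ (K + C1 + 4) * (∏ α ∈ R, (|(inner ℝ) α a| * ‖cp α z‖)) *
      Real.exp ((K + C1 + 4) * (‖a‖ * ‖z.2‖)) :=
    mul_nonneg (mul_nonneg (by linarith) hP) (Real.exp_pos _).le
  by_cases h1 : ∃ α ∈ R, (inner ℝ) α a = 0 ∨ cp α z = 0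
  · obtain ⟨α, hα, h⟩ := h1
    have hE : E R a z = 0 := by
      rcases h with h | h
      · exact (halt n R hR a z α hα).1 h
      · exact (halt n R hR a z α hα).2 h
    rw [hE, norm_zero, zero_pow two_ne_zero]
    exact hRHS
  push Not at h1
  -- the projection
  set 𝒦 : Submodule ℝ (V n) := Submodule.span ℝ (R : Set (V n)) with h𝒦
  set p : V n := 𝒦.starProjection a with hp
  have hpK : p ∈ 𝒦 := Submodule.starProjection_apply_mem 𝒦 a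
  have hort : ∀ α ∈ R, (inner ℝ) α (a - p) = 0 := by
    intro α hα
    have h2 : a - p ∈ 𝒦ᗮ := Submodule.sub_starProjection_mem_orthogonal a
    exact Submodule.inner_right_of_mem_orthogonal (Submodule.subset_span hα) h2
  have hpa : ∀ α ∈ R, (inner ℝ) α p = (inner ℝ) α a := by
    intro α hα
    have h2 := hort α hα
    rw [inner_sub_right] at h2
    linarith
  have hpn : ‖p‖ ≤ ‖a‖ := Submodule.norm_starProjection_apply_le 𝒦 a
  have hp0 : p ≠ 0 := by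
    intro h0
    obtain ⟨α, hα⟩ := hne
    have h2 := hpa α hα
    rw [h0, inner_zero_right] at h2
    exact (h1 α hα).1 h2.symm
  have hpp : 0 < ‖p‖ := norm_pos_iff.2 hp0
  obtain ⟨x, ⟨α₀, hα₀, hx0⟩, hx⟩ := hcomp p hpK hp0
  set Φ : Finset (V n) := Rz R x with hΦ
  have hΦRS : IsRS Φ := (hsub n R hR x).2.1
  have hΦm : ∀ α, α ∈ Φ ↔ α ∈ R ∧ (inner ℝ) x α = 0 := by
    intro α
    rw [hΦ]
    unfold Rz
    rw [Finset.mem_filter]
  have hΦR : Φ ⊆ R := fun α hα => ((hΦm α).1 hα).1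
  have hΦs : Φ ⊂ R := by
    refine ⟨hΦR, fun h => ?_⟩
    exact hx0 ((hΦm α₀).1 (h hα₀)).2
  have hBd := hall Φ hΦs hΦRS
  obtain ⟨v, ρ, hv, hρ1, hρ2, hlow, hconc⟩ := hcl p z (‖p‖⁻¹) (fun β hβ => (h1 β hβ).2)
    (inv_pos.2 hpp)
  set B : ℝ := K * (∏ α ∈ R, |(inner ℝ) α p|) * Real.exp (C1 * (‖p‖ * ‖z.2‖)) with hB
  have hB0 : 0 ≤ B := mul_nonneg (mul_nonneg hK0 (Finset.prod_nonneg fun _ _ => abs_nonneg _))
    (Real.exp_pos _).le
  have hcirc : ∀ ζ : ℂ, ‖ζ‖ = ρ → ‖E R p (shift z v ζ)‖ ^ 2 ≤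
      B * ∏ β ∈ R, ‖cp β (shift z v ζ)‖ := by
    intro ζ hζ
    set z' := shift z v ζ with hz'
    have hz2 : ‖z'.2‖ ≤ ‖z.2‖ + 2 * ‖p‖⁻¹ * C0 := by
      have e1 : z'.2 = z.2 + ζ.im • v := rfl
      rw [e1]
      refine (norm_add_le _ _).trans ?_
      rw [norm_smul, Real.norm_eq_abs]
      have e2 : |ζ.im| ≤ 2 * ‖p‖⁻¹ := (Complex.abs_im_le_norm ζ).trans (hζ.le.trans hρ2)
      have e3 : |ζ.im| * ‖v‖ ≤ 2 * ‖p‖⁻¹ * C0 :=
        mul_le_mul e2 hv (norm_nonneg _) (by positivity)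
      linarith
    have hterm : ∀ w ∈ Wf R, ‖E Φ p (w⁻¹ z'.1, w⁻¹ z'.2)‖ ^ 2 ≤
        C1 * ((κ ^ R.card)⁻¹ * ((∏ α ∈ R, |(inner ℝ) α p|) * ∏ β ∈ R, ‖cp β z'‖)) *
          (Real.exp (2 * C1 * C0) * Real.exp (C1 * (‖p‖ * ‖z.2‖))) := by
      intro w hw
      refine (hBd p (w⁻¹ z'.1, w⁻¹ z'.2)).trans ?_
      have e1 : Real.exp (C1 * (‖p‖ * ‖w⁻¹ z'.2‖)) ≤
          Real.exp (2 * C1 * C0) * Real.exp (C1 * (‖p‖ * ‖z.2‖)) := by
        rw [← Real.exp_add]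
        refine Real.exp_le_exp.2 ?_
        rw [LinearIsometryEquiv.norm_map]
        have e2 : ‖p‖ * ‖z'.2‖ ≤ ‖p‖ * (‖z.2‖ + 2 * ‖p‖⁻¹ * C0) :=
          mul_le_mul_of_nonneg_left hz2 hpp.le
        have e3 : ‖p‖ * (‖z.2‖ + 2 * ‖p‖⁻¹ * C0) = ‖p‖ * ‖z.2‖ + 2 * C0 := by
          field_simp
        rw [e3] at e2
        have e4 := mul_le_mul_of_nonneg_left e2 hC1
        linarith
      have e5 : ∏ α ∈ Φ, (|(inner ℝ) α p| * ‖cp α (w⁻¹ z'.1, w⁻¹ z'.2)‖) ≤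
          (κ ^ R.card)⁻¹ * ((∏ α ∈ R, |(inner ℝ) α p|) * ∏ β ∈ R, ‖cp β z'‖) := by
        have f1 : ∏ β ∈ R, ‖cp β z'‖ = ∏ β ∈ R, ‖cp (w β) z'‖ :=
          (hre w hw ℝ (fun x => ‖cp x z'‖)).symm
        rw [f1, ← Finset.prod_mul_distrib, ← Finset.prod_sdiff hΦR]
        simp only [cp_inv]
        have f2 : κ ^ R.card ≤ ∏ α ∈ R \ Φ, (|(inner ℝ) α p| * ‖cp (w α) z'‖) := by
          have g1 : κ ^ (R \ Φ).card ≤ ∏ α ∈ R \ Φ, (|(inner ℝ) α p| * ‖cp (w α) z'‖) := by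
            rw [← Finset.prod_const]
            refine Finset.prod_le_prod (fun _ _ => hκ0.le) fun α hα => ?_
            rw [Finset.mem_sdiff] at hα
            have g2 : (inner ℝ) x α ≠ 0 := fun h => hα.2 ((hΦm α).2 ⟨hα.1, h⟩)
            have g3 := hx α hα.1 g2
            have g4 := hlow ζ hζ (w α) (hWR w hw α hα.1)
            refine hκ2.trans ?_
            calc ε * c = (ε * ‖p‖) * (c * ‖p‖⁻¹) := by field_simp
              _ ≤ |(inner ℝ) α p| * ‖cp (w α) z'‖ :=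
                mul_le_mul g3 g4 (mul_nonneg hc.le (inv_pos.2 hpp).le) (abs_nonneg _)
          refine le_trans ?_ g1
          exact pow_le_pow_of_le_one hκ0.le hκ1 (Finset.card_le_card Finset.sdiff_subset)
        have f3 : 0 ≤ ∏ α ∈ Φ, (|(inner ℝ) α p| * ‖cp (w α) z'‖) :=
          Finset.prod_nonneg fun _ _ => mul_nonneg (abs_nonneg _) (norm_nonneg _)
        have f4 : 0 < κ ^ R.card := pow_pos hκ0 _
        calc ∏ α ∈ Φ, (|(inner ℝ) α p| * ‖cp (w α) z'‖)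
            = (κ ^ R.card)⁻¹ * (κ ^ R.card * ∏ α ∈ Φ, (|(inner ℝ) α p| * ‖cp (w α) z'‖)) := by
              rw [← mul_assoc, inv_mul_cancel₀ f4.ne', one_mul]
          _ ≤ (κ ^ R.card)⁻¹ * ((∏ α ∈ R \ Φ, (|(inner ℝ) α p| * ‖cp (w α) z'‖)) *
              ∏ α ∈ Φ, (|(inner ℝ) α p| * ‖cp (w α) z'‖)) :=
            mul_le_mul_of_nonneg_left (mul_le_mul_of_nonneg_right f2 f3) (inv_pos.2 f4).le
      have e6 : 0 ≤ (κ ^ R.card)⁻¹ * ((∏ α ∈ R, |(inner ℝ) α p|) * ∏ β ∈ R, ‖cp β z'‖) :=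
        mul_nonneg (inv_pos.2 (pow_pos hκ0 _)).le (mul_nonneg
          (Finset.prod_nonneg fun _ _ => abs_nonneg _)
          (Finset.prod_nonneg fun _ _ => norm_nonneg _))
      exact mul_le_mul (mul_le_mul_of_nonneg_left e5 hC1) e1 (Real.exp_pos _).le
        (mul_nonneg hC1 e6)
    have hl := hld n R hR Φ hΦR hΦRS p z'
    have hsq : ‖E R p z'‖ ^ 2 ≤ ((Wf R).card : ℝ) *
        ∑ w ∈ Wf R, ‖E Φ p (w⁻¹ z'.1, w⁻¹ z'.2)‖ ^ 2 :=
      (pow_le_pow_left₀ (norm_nonneg _) hl 2).trans sq_sum_le_card_mul_sum_sq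
    refine hsq.trans ?_
    have hsum := Finset.sum_le_card_nsmul (Wf R) _ _ hterm
    rw [nsmul_eq_mul] at hsum
    have hcard : (0 : ℝ) ≤ ((Wf R).card : ℝ) := Nat.cast_nonneg _
    refine (mul_le_mul_of_nonneg_left hsum hcard).trans (le_of_eq ?_)
    rw [hB, hK]
    ring
  have hE1 := hconc B hB0 hcirc
  have hE2 := hproj n R hR a p z hort
  have hE3 : ‖E R a z‖ ^ 2 ≤ Real.exp (4 * (‖a‖ * ‖z.2‖)) * ‖E R p z‖ ^ 2 := by
    rw [hE2, mul_pow, ← Real.exp_nat_mul]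
    refine mul_le_mul_of_nonneg_right (Real.exp_le_exp.2 ?_) (sq_nonneg _)
    have e1 := abs_real_inner_le_norm (a - p) z.2
    have e2 : ‖a - p‖ ≤ 2 * ‖a‖ := (norm_sub_le _ _).trans (by linarith)
    have e3 := mul_le_mul_of_nonneg_right e2 (norm_nonneg z.2)
    have e4 := neg_le_abs ((inner ℝ) (a - p) z.2)
    push_cast
    linarith
  refine hE3.trans ?_
  have hpr : (∏ α ∈ R, |(inner ℝ) α p|) = ∏ α ∈ R, |(inner ℝ) α a| :=
    Finset.prod_congr rfl fun α hα => by rw [hpa α hα]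
  have hexp : Real.exp (C1 * (‖p‖ * ‖z.2‖)) ≤ Real.exp (C1 * (‖a‖ * ‖z.2‖)) :=
    Real.exp_le_exp.2 (mul_le_mul_of_nonneg_left
      (mul_le_mul_of_nonneg_right hpn (norm_nonneg _)) hC1)
  have hX : 0 ≤ K * (∏ α ∈ R, |(inner ℝ) α a|) := mul_nonneg hK0
    (Finset.prod_nonneg fun _ _ => abs_nonneg _)
  have hY : 0 ≤ ∏ β ∈ R, ‖cp β z‖ := Finset.prod_nonneg fun _ _ => norm_nonneg _
  have hE4 : ‖E R p z‖ ^ 2 ≤ K * (∏ α ∈ R, (|(inner ℝ) α a| * ‖cp α z‖)) *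
      Real.exp (C1 * (‖a‖ * ‖z.2‖)) := by
    refine hE1.trans ?_
    rw [hB, hpr, Finset.prod_mul_distrib]
    calc K * (∏ α ∈ R, |(inner ℝ) α a|) * Real.exp (C1 * (‖p‖ * ‖z.2‖)) * ∏ β ∈ R, ‖cp β z‖
        ≤ K * (∏ α ∈ R, |(inner ℝ) α a|) * Real.exp (C1 * (‖a‖ * ‖z.2‖)) * ∏ β ∈ R, ‖cp β z‖ :=
          mul_le_mul_of_nonneg_right (mul_le_mul_of_nonneg_left hexp hX) hY
      _ = _ := by ring
  refine (mul_le_mul_of_nonneg_left hE4 (Real.exp_pos _).le).trans ?_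
  have hN : 0 ≤ ‖a‖ * ‖z.2‖ := mul_nonneg (norm_nonneg _) (norm_nonneg _)
  calc Real.exp (4 * (‖a‖ * ‖z.2‖)) * (K * (∏ α ∈ R, (|(inner ℝ) α a| * ‖cp α z‖)) *
        Real.exp (C1 * (‖a‖ * ‖z.2‖)))
      = K * (∏ α ∈ R, (|(inner ℝ) α a| * ‖cp α z‖)) * Real.exp ((C1 + 4) * (‖a‖ * ‖z.2‖)) := by
        rw [show (C1 + 4) * (‖a‖ * ‖z.2‖) = 4 * (‖a‖ * ‖z.2‖) + C1 * (‖a‖ * ‖z.2‖) by ring,
          Real.exp_add]
        ring
    _ ≤ (K + C1 + 4) * (∏ α ∈ R, (|(inner ℝ) α a| * ‖cp α z‖)) *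
        Real.exp ((K + C1 + 4) * (‖a‖ * ‖z.2‖)) := by
        refine mul_le_mul (mul_le_mul_of_nonneg_right (by linarith) hP) ?_ (Real.exp_pos _).le
          (mul_nonneg (by linarith) hP)
        exact Real.exp_le_exp.2 (mul_le_mul_of_nonneg_right (by linarith) hN)

theorem all (hW : S_W) (halt : S_alt) (hld : S_ld) (hproj : S_proj) (hsub : S_sub)
    (hcomp : S_comp) (hcl : S_cl) (R : Finset (V n)) : IsRS R → ∃ C : ℝ, 0 ≤ C ∧ Bd R C := by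
  classical
  induction R using Finset.strongInduction with
  | H R ih =>
    intro hR
    rcases R.eq_empty_or_nonempty with hemp | hne
    · subst hemp
      refine ⟨((Wf (∅ : Finset (V n))).card : ℝ) ^ 2 + 2, by positivity, fun a z => ?_⟩
      have h1 := crude hW hR a z
      have h2 := pow_le_pow_left₀ (norm_nonneg _) h1 2
      refine h2.trans ?_
      rw [Finset.prod_empty, mul_one, mul_pow, ← Real.exp_nat_mul]
      have hN : 0 ≤ ‖a‖ * ‖z.2‖ := mul_nonneg (norm_nonneg _) (norm_nonneg _)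
      refine mul_le_mul (by linarith) (Real.exp_le_exp.2 ?_) (Real.exp_pos _).le (by positivity)
      refine mul_le_mul_of_nonneg_right ?_ hN
      push_cast
      have : (0 : ℝ) ≤ ((Wf (∅ : Finset (V n))).card : ℝ) ^ 2 := by positivity
      linarith
    · have h1 : ∀ Φ : Finset (V n), ∃ C : ℝ, 0 ≤ C ∧ (Φ ⊂ R → IsRS Φ → Bd Φ C) := by
        intro Φ
        by_cases h : Φ ⊂ R ∧ IsRS Φ
        · obtain ⟨C, hC, hb⟩ := ih Φ h.1 h.2
          exact ⟨C, hC, fun _ _ => hb⟩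
        · exact ⟨0, le_rfl, fun h1 h2 => absurd ⟨h1, h2⟩ h⟩
      choose f hf0 hf using h1
      refine step hW halt hld hproj hsub hcomp hcl hR hne (C1 := ∑ Φ ∈ R.powerset, f Φ)
        (Finset.sum_nonneg fun Φ _ => hf0 Φ) fun Φ hΦ hΦR => ?_
      refine (hf Φ hΦ hΦR).mono (hf0 Φ) ?_
      exact Finset.single_le_sum (fun Φ _ => hf0 Φ) (Finset.mem_powerset.2 hΦ.1)

theorem main : S_W → S_alt → S_ld → S_proj → S_sub → S_comp → S_cl → S_F1 := by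
  intro hW halt hld hproj hsub hcomp hcl n R hR
  exact all hW halt hld hproj hsub hcomp hcl R hR

end H391.AE.P_F1
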