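import Mathlib
import Pool.Agent.H391.AE.S

set_option autoImplicit false

open Finset
open scoped InnerProductSpace

namespace H391.AE.P_U

theorem nd_nonneg (x : ℝ) : 0 ≤ nd x := abs_nonneg _

theorem nd_half (x : ℝ) : nd x ≤ 1 / 2 := abs_sub_round x

theorem nd_neg_le (x : ℝ) : nd (-x) ≤ nd x := by
  have h := round_le (-x) (-(round x))
  have e : |(-x) - ((-(round x) : ℤ) : ℝ)| = |x - round x| := by
    rw [← abs_neg]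
    congr 1
    push_cast
    ring
  unfold nd
  rw [← e]
  exact h

theorem nd_neg (x : ℝ) : nd (-x) = nd x := by
  apply le_antisymm (nd_neg_le x)
  have := nd_neg_le (-x)
  rwa [neg_neg] at this

theorem nd_eq (x : ℝ) (z : ℤ) (h : |x - z| ≤ 1 / 2) : nd x = |x - z| := by
  apply le_antisymm
  · exact round_le x z
  · by_cases hz : z = round x
    · rw [hz]
      exact le_rfl
    · have h1 : (1 : ℝ) ≤ |((z - round x : ℤ) : ℝ)| := by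
        rw [← Int.cast_abs]
        exact_mod_cast Int.one_le_abs (sub_ne_zero.2 hz)
      have h2 : ((z - round x : ℤ) : ℝ) = (x - round x) - (x - z) := by
        push_cast
        ring
      rw [h2] at h1
      have h3 := abs_sub (x - round x) (x - z)
      unfold nd
      linarith

/-- the common constant of the basic bound -/
theorem cF (hF : S_F1) {n : ℕ} (R : Finset (V n)) : ∃ C : ℝ, 0 ≤ C ∧ ∀ Φ ⊆ R, IsRS Φ →
    ∀ a b : V n, ‖E Φ a (b, 0)‖ ^ 2 ≤ C * ∏ α ∈ Φ, (|(inner ℝ) α a| * |(inner ℝ) α b|) := by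
  have h : ∀ Φ : Finset (V n), ∃ C : ℝ, 0 ≤ C ∧ (IsRS Φ →
      ∀ a b : V n, ‖E Φ a (b, 0)‖ ^ 2 ≤ C * ∏ α ∈ Φ, (|(inner ℝ) α a| * |(inner ℝ) α b|)) := by
    intro Φ
    by_cases hΦ : IsRS Φ
    · obtain ⟨C, hC, h⟩ := hF n Φ hΦ
      refine ⟨C, hC, fun _ a b => ?_⟩
      have h1 := h a (b, 0)
      have h2 : ∀ α : V n, ‖cp α (b, (0 : V n))‖ = |(inner ℝ) α b| := by
        intro α
        simp [cp]
      simp only [h2, norm_zero, mul_zero, Real.exp_zero, mul_one] at h1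
      exact h1
    · exact ⟨0, le_rfl, fun h => absurd h hΦ⟩
  choose Cf hC0 hC using h
  refine ⟨∑ Φ ∈ R.powerset, Cf Φ, sum_nonneg fun Φ _ => hC0 Φ, ?_⟩
  intro Φ hΦ hRS a b
  have h1 : Cf Φ ≤ ∑ Φ ∈ R.powerset, Cf Φ :=
    single_le_sum (f := Cf) (fun Φ _ => hC0 Φ) (mem_powerset.2 hΦ)
  have h2 : 0 ≤ ∏ α ∈ Φ, (|(inner ℝ) α a| * |(inner ℝ) α b|) :=
    prod_nonneg fun α _ => mul_nonneg (abs_nonneg _) (abs_nonneg _)
  exact (hC Φ hRS a b).trans (mul_le_mul_of_nonneg_right h1 h2)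

/-- the common constant of the equivalence of norms -/
theorem cS (hsp : S_sp) {n : ℕ} (R : Finset (V n)) (hR : Simple R) : ∃ C : ℝ, 1 ≤ C ∧
    ∀ Ψ, Cl R Ψ → Ψ ≠ R → ∀ β ∈ R, ∀ Y : V n, ∃ γ ∈ R, γ ∉ Ψ ∧ |(inner ℝ) β Y| ≤ C * |(inner ℝ) γ Y| := by
  classical
  have h : ∀ (Ψ : Finset (V n)) (β : V n), ∃ C : ℝ, 0 ≤ C ∧ (Cl R Ψ → Ψ ≠ R → ∀ Y : V n,
      ∃ γ ∈ R, γ ∉ Ψ ∧ |(inner ℝ) β Y| ≤ C * |(inner ℝ) γ Y|) := by
    intro Ψ β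
    by_cases hc : Cl R Ψ ∧ Ψ ≠ R
    · obtain ⟨h1, h2⟩ := hc
      have hs := hsp n R hR Ψ h1 h2
      have hβ : β ∈ Submodule.span ℝ ((R.filter (fun α => α ∉ Ψ) : Finset (V n)) : Set (V n)) := by
        have e : ((R.filter (fun α => α ∉ Ψ) : Finset (V n)) : Set (V n)) =
            {α : V n | α ∈ R ∧ α ∉ Ψ} := by
          ext α
          simp
        rw [e, hs]
        trivial
      have hne : (R.filter (fun α => α ∉ Ψ)).Nonempty := by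
        by_contra hn
        rw [not_nonempty_iff_eq_empty, filter_eq_empty_iff] at hn
        apply h2
        apply Subset.antisymm h1.sub
        intro α hα
        have := hn hα
        push Not at this
        exact this
      obtain ⟨f, -, hf⟩ := Submodule.mem_span_finset.1 hβ
      refine ⟨∑ γ ∈ R.filter (fun α => α ∉ Ψ), |f γ|, sum_nonneg fun γ _ => abs_nonneg _, ?_⟩
      intro _ _ Y
      obtain ⟨γ, hγ, hmax⟩ := exists_max_image (R.filter (fun α => α ∉ Ψ)) (fun γ => |(inner ℝ) γ Y|) hne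
      rw [mem_filter] at hγ
      refine ⟨γ, hγ.1, hγ.2, ?_⟩
      rw [← hf, sum_inner, sum_mul]
      refine (abs_sum_le_sum_abs _ _).trans (sum_le_sum fun δ hδ => ?_)
      rw [real_inner_smul_left, abs_mul]
      exact mul_le_mul_of_nonneg_left (hmax δ hδ) (abs_nonneg _)
    · exact ⟨0, le_rfl, fun h1 h2 => absurd ⟨h1, h2⟩ hc⟩
  choose Cf hC0 hC using h
  refine ⟨1 + ∑ Ψ ∈ R.powerset, ∑ β ∈ R, Cf Ψ β, ?_, ?_⟩
  · have : 0 ≤ ∑ Ψ ∈ R.powerset, ∑ β ∈ R, Cf Ψ β :=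
      sum_nonneg fun Ψ _ => sum_nonneg fun β _ => hC0 Ψ β
    linarith
  · intro Ψ hΨ hne β hβ Y
    obtain ⟨γ, h1, h2, h3⟩ := hC Ψ β hΨ hne Y
    refine ⟨γ, h1, h2, h3.trans (mul_le_mul_of_nonneg_right ?_ (abs_nonneg _))⟩
    have h4 : Cf Ψ β ≤ ∑ β ∈ R, Cf Ψ β := single_le_sum (f := Cf Ψ) (fun β _ => hC0 Ψ β) hβ
    have h5 : ∑ β ∈ R, Cf Ψ β ≤ ∑ Ψ ∈ R.powerset, ∑ β ∈ R, Cf Ψ β :=
      single_le_sum (f := fun Ψ => ∑ β ∈ R, Cf Ψ β) (fun Ψ _ => sum_nonneg fun β _ => hC0 Ψ β)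
        (mem_powerset.2 hΨ.sub)
    linarith

theorem mem_Rint {n : ℕ} (R : Finset (V n)) (v γ : V n) :
    γ ∈ Rint R v ↔ γ ∈ R ∧ ∃ z : ℤ, (inner ℝ) v γ = z := by
  simp only [Rint, mem_filter]

/-- the special point near a weight -/
theorem pt {n : ℕ} {R : Finset (V n)} {ε : ℝ}
    (hac : ∀ x : V n, (∀ α ∈ R, |(inner ℝ) α x| ≤ 1) → ∃ v : V n, (∀ α ∈ R, |(inner ℝ) α (x - v)| ≤ 1 / 2) ∧
      ∀ α ∈ R, α ∉ Rint R v → ε ≤ nd ((inner ℝ) α x)) (r : ℕ) (hr : 1 ≤ r) (a : V n) (ha : Good R r a) :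
    ∃ v : V n, (∀ γ ∈ Rint R v, |(inner ℝ) γ (a - (r : ℝ) • v)| = r * nd ((inner ℝ) γ a / r)) ∧
      ∀ γ ∈ R, γ ∉ Rint R v → ε ≤ nd ((inner ℝ) γ a / r) := by
  have hr0 : (0 : ℝ) < r := by exact_mod_cast hr
  have hx : ∀ γ : V n, (inner ℝ) γ ((1 / (r : ℝ)) • a) = (inner ℝ) γ a / r := by
    intro γ
    rw [real_inner_smul_right]
    ring
  obtain ⟨v, h1, h2⟩ := hac ((1 / (r : ℝ)) • a) (by
    intro α hα
    rw [hx, abs_div, abs_of_pos hr0, div_le_one hr0]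
    exact (ha.2 α hα).2.le)
  refine ⟨v, ?_, ?_⟩
  · intro γ hγ
    obtain ⟨hγR, z, hz⟩ := (mem_Rint R v γ).1 hγ
    rw [real_inner_comm] at hz
    have h3 := h1 γ hγR
    rw [inner_sub_right, hx, hz] at h3
    rw [nd_eq _ z h3, inner_sub_right, real_inner_smul_right, hz]
    have h4 : (inner ℝ) γ a - (r : ℝ) * z = r * ((inner ℝ) γ a / r - z) := by
      field_simp
    rw [h4, abs_mul, abs_of_pos hr0]
  · intro γ hγ hγ'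
    have h3 := h2 γ hγ hγ'
    rwa [hx] at h3

theorem prod_low {n : ℕ} (N : ℕ) (S : Finset (V n)) (p : V n → ℝ) (η : ℝ) (h0 : 0 < η) (h1 : η ≤ 1)
    (hS : S.card ≤ N) (hp : ∀ γ ∈ S, η ≤ p γ) : η ^ N ≤ ∏ γ ∈ S, p γ := by
  calc η ^ N ≤ η ^ S.card := pow_le_pow_of_le_one h0.le h1 hS
    _ = ∏ _γ ∈ S, η := (prod_const _).symm
    _ ≤ ∏ γ ∈ S, p γ := prod_le_prod (fun _ _ => h0.le) hp

theorem prod_low2 {n : ℕ} (N : ℕ) (S : Finset (V n)) (p : V n → ℝ) (η : ℝ) (h0 : 0 < η) (h1 : η ≤ 1)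
    (hS : S.card ≤ N) (hp : ∀ γ ∈ S, η ≤ p γ) (γ δ : V n) (hγ : γ ∈ S) (hδ : δ ∈ S) (hne : γ ≠ δ) :
    (p γ * p δ) * η ^ N ≤ ∏ γ ∈ S, p γ := by
  classical
  have hδ' : δ ∈ S.erase γ := mem_erase.2 ⟨hne.symm, hδ⟩
  rw [← mul_prod_erase S p hγ, ← mul_prod_erase (S.erase γ) p hδ', ← mul_assoc]
  apply mul_le_mul_of_nonneg_left
  · apply prod_low N _ p η h0 h1
    · exact ((card_le_card (erase_subset _ _)).trans (card_le_card (erase_subset _ _))).trans hS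
    · intro ζ hζ
      exact hp ζ (mem_of_mem_erase (mem_of_mem_erase hζ))
  · exact mul_nonneg (h0.le.trans (hp γ hγ)) (h0.le.trans (hp δ hδ))

theorem key1 {n : ℕ} (R Ψ : Finset (V n)) (hs : Ψ ⊆ R) (p : V n → ℝ) (hp0 : ∀ γ ∈ R, 0 ≤ p γ)
    (η : ℝ) (h0 : 0 < η) (h1 : η ≤ 1) (hp : ∀ γ ∈ R, γ ∉ Ψ → η ≤ p γ) (K t : ℝ) (hK : 0 ≤ K)
    (ht : t ≤ K * ∏ γ ∈ Ψ, p γ) : t * η ^ R.card ≤ K * ∏ γ ∈ R, p γ := by
  classical
  rw [← prod_sdiff hs]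
  have h2 : η ^ R.card ≤ ∏ γ ∈ R \ Ψ, p γ := by
    apply prod_low R.card _ p η h0 h1 (card_le_card sdiff_subset)
    intro γ hγ
    rw [mem_sdiff] at hγ
    exact hp γ hγ.1 hγ.2
  have h3 : 0 ≤ ∏ γ ∈ Ψ, p γ := prod_nonneg fun γ hγ => hp0 γ (hs hγ)
  calc t * η ^ R.card ≤ (K * ∏ γ ∈ Ψ, p γ) * η ^ R.card :=
        mul_le_mul_of_nonneg_right ht (pow_pos h0 _).le
    _ ≤ (K * ∏ γ ∈ Ψ, p γ) * ∏ γ ∈ R \ Ψ, p γ :=
        mul_le_mul_of_nonneg_left h2 (mul_nonneg hK h3)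
    _ = K * ((∏ γ ∈ R \ Ψ, p γ) * ∏ γ ∈ Ψ, p γ) := by ring

theorem key2 {n : ℕ} (R Ψ : Finset (V n)) (hs : Ψ ⊆ R) (p : V n → ℝ) (hp0 : ∀ γ ∈ R, 0 ≤ p γ)
    (η : ℝ) (h0 : 0 < η) (h1 : η ≤ 1) (hp : ∀ γ ∈ R, γ ∉ Ψ → η ≤ p γ) (K t : ℝ) (hK : 0 ≤ K)
    (ht : t ≤ K * ∏ γ ∈ Ψ, p γ) (γ δ : V n) (hγ : γ ∈ R) (hγ' : γ ∉ Ψ) (hδ : δ ∈ R) (hδ' : δ ∉ Ψ)
    (hne : γ ≠ δ) (m : ℝ) (hm0 : 0 ≤ m) (hmγ : m ≤ p γ) (hmδ : m ≤ p δ) :
    t * (m ^ 2 * η ^ R.card) ≤ K * ∏ γ ∈ R, p γ := by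
  classical
  rw [← prod_sdiff hs]
  have h2 : (p γ * p δ) * η ^ R.card ≤ ∏ γ ∈ R \ Ψ, p γ := by
    apply prod_low2 R.card _ p η h0 h1 (card_le_card sdiff_subset)
    · intro γ hγ
      rw [mem_sdiff] at hγ
      exact hp γ hγ.1 hγ.2
    · exact mem_sdiff.2 ⟨hγ, hγ'⟩
    · exact mem_sdiff.2 ⟨hδ, hδ'⟩
    · exact hne
  have h3 : 0 ≤ ∏ γ ∈ Ψ, p γ := prod_nonneg fun γ hγ => hp0 γ (hs hγ)
  have h4 : m ^ 2 ≤ p γ * p δ := by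
    rw [pow_two]
    exact mul_le_mul hmγ hmδ hm0 (hm0.trans hmγ)
  have h5 : m ^ 2 * η ^ R.card ≤ ∏ γ ∈ R \ Ψ, p γ :=
    (mul_le_mul_of_nonneg_right h4 (pow_pos h0 _).le).trans h2
  calc t * (m ^ 2 * η ^ R.card) ≤ (K * ∏ γ ∈ Ψ, p γ) * (m ^ 2 * η ^ R.card) :=
        mul_le_mul_of_nonneg_right ht (mul_nonneg (sq_nonneg _) (pow_pos h0 _).le)
    _ ≤ (K * ∏ γ ∈ Ψ, p γ) * ∏ γ ∈ R \ Ψ, p γ :=
        mul_le_mul_of_nonneg_left h5 (mul_nonneg hK h3)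
    _ = K * ((∏ γ ∈ R \ Ψ, p γ) * ∏ γ ∈ Ψ, p γ) := by ring

theorem adj {n : ℕ} (g : V n ≃ₗᵢ[ℝ] V n) (γ y : V n) : (inner ℝ) γ (g⁻¹ y) = (inner ℝ) (g γ) y := by
  rw [← g.inner_map_map γ (g⁻¹ y)]
  congr 1
  exact g.apply_symm_apply y

theorem inv_app {n : ℕ} (g : V n ≃ₗᵢ[ℝ] V n) (y : V n) : g (g⁻¹ y) = y := g.apply_symm_apply y

theorem app_inv {n : ℕ} (g : V n ≃ₗᵢ[ℝ] V n) (y : V n) : g⁻¹ (g y) = y := g.symm_apply_apply y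

theorem inv_mem' (hW : S_W) {n : ℕ} {R : Finset (V n)} (hR : IsRS R) {w : V n ≃ₗᵢ[ℝ] V n}
    (hw : w ∈ Wf R) : w⁻¹ ∈ Wf R := by
  have h := (hW n R hR).1
  rw [h] at hw ⊢
  exact Subgroup.inv_mem _ hw

theorem term (hW : S_W) (hsub : S_sub) (hcov : S_cov) {n : ℕ} {R : Finset (V n)} (hR : Simple R)
    {CF CS CH ε : ℝ} (hCF : 0 ≤ CF) (hCS : 1 ≤ CS) (hCH : 0 ≤ CH) (hε : 0 < ε) (hε1 : ε ≤ 1)
    (hF : ∀ Φ ⊆ R, IsRS Φ → ∀ a b : V n,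
      ‖E Φ a (b, 0)‖ ^ 2 ≤ CF * ∏ α ∈ Φ, (|(inner ℝ) α a| * |(inner ℝ) α b|))
    (hS : ∀ Ψ, Cl R Ψ → Ψ ≠ R → ∀ β ∈ R, ∀ Y : V n, ∃ γ ∈ R, γ ∉ Ψ ∧ |(inner ℝ) β Y| ≤ CS * |(inner ℝ) γ Y|)
    (hH : ∀ a b : V n, (‖a‖ * ‖b‖) ^ 2 * ‖E R a (b, 0)‖ ^ 2 ≤ CH * ∏ α ∈ R, (|(inner ℝ) α a| * |(inner ℝ) α b|))
    (r : ℕ) (hr : 1 ≤ r) (a b v₁ v₂ : V n)
    (ha0 : ∀ γ ∈ R, 1 / (3 * (r : ℝ)) ≤ nd ((inner ℝ) γ a / r))
    (hb0 : ∀ γ ∈ R, 1 / (3 * (r : ℝ)) ≤ nd ((inner ℝ) γ b / r))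
    (ha1 : ∀ γ ∈ Rint R v₁, |(inner ℝ) γ (a - (r : ℝ) • v₁)| = r * nd ((inner ℝ) γ a / r))
    (ha2 : ∀ γ ∈ R, γ ∉ Rint R v₁ → ε ≤ nd ((inner ℝ) γ a / r))
    (hb1 : ∀ γ ∈ Rint R v₂, |(inner ℝ) γ (b - (r : ℝ) • v₂)| = r * nd ((inner ℝ) γ b / r))
    (hb2 : ∀ γ ∈ R, γ ∉ Rint R v₂ → ε ≤ nd ((inner ℝ) γ b / r))
    (α₀ β₀ : V n) (hα : α₀ ∈ R) (hβ : β₀ ∈ R) (w u : V n ≃ₗᵢ[ℝ] V n) (hw : w ∈ Wf R)
    (hu : u ∈ Wf (Rint R v₁)) :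
    ‖E (Rint (Rint R v₁) (w⁻¹ v₂)) ((2 * Real.pi / r) • u⁻¹ (a - (r : ℝ) • v₁))
      (w⁻¹ (b - (r : ℝ) • v₂), 0)‖ ^ 2 * (1 + (r * nd ((inner ℝ) α₀ a / r) * nd ((inner ℝ) β₀ b / r)) ^ 2) ≤
      (CF * (2 * Real.pi) ^ R.card / (ε / 3) ^ R.card +
        CS ^ 2 * (CF * (2 * Real.pi) ^ R.card) / (ε ^ 4 * (ε / 3) ^ R.card) +
        CH * (2 * Real.pi) ^ R.card) *
      ((r : ℝ) ^ R.card * ∏ γ ∈ R, (nd ((inner ℝ) γ a / r) * nd ((inner ℝ) γ b / r))) := by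
  have hRS := hR.toIsRS
  obtain ⟨w1, w2, -, -, w5, w6, -, -, w9⟩ := hW n R hRS
  have hRS1 : IsRS (Rint R v₁) := (hsub n R hRS v₁).1.1
  have hCl1 : Cl R (Rint R v₁) := (hsub n R hRS v₁).1.2
  have hCl2 : Cl R (Rint R (w⁻¹ v₂)) := (hsub n R hRS (w⁻¹ v₂)).1.2
  have hRS3 : IsRS (Rint (Rint R v₁) (w⁻¹ v₂)) := (hsub n _ hRS1 (w⁻¹ v₂)).1.1
  obtain ⟨-, s2, -⟩ := hW n (Rint R v₁) hRS1
  have huR : u ∈ Wf R := w6 _ hCl1.sub hRS1 hu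
  have hui := inv_mem' hW hRS1 hu
  have huiR := inv_mem' hW hRS huR
  have hwi := inv_mem' hW hRS hw
  have hr0 : (0 : ℝ) < r := by exact_mod_cast hr
  have hr1 : (1 : ℝ) ≤ r := by exact_mod_cast hr
  have hpi : 1 ≤ 2 * Real.pi := by linarith [Real.pi_gt_three]
  set Ψ := Rint (Rint R v₁) (w⁻¹ v₂) with hΨ
  have hΨR : Ψ ⊆ R := by
    intro γ hγ
    rw [hΨ, mem_Rint] at hγ
    exact hCl1.sub hγ.1
  have hmem : ∀ γ, γ ∈ Ψ ↔ γ ∈ Rint R v₁ ∧ γ ∈ Rint R (w⁻¹ v₂) := by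
    intro γ
    rw [hΨ, mem_Rint, mem_Rint R (w⁻¹ v₂)]
    constructor
    · rintro ⟨h1, h2⟩
      exact ⟨h1, hCl1.sub h1, h2⟩
    · rintro ⟨h1, -, h2⟩
      exact ⟨h1, h2⟩
  have hw2 : ∀ γ ∈ R, (γ ∈ Rint R (w⁻¹ v₂) ↔ w γ ∈ Rint R v₂) := by
    intro γ hγ
    rw [mem_Rint, mem_Rint, real_inner_comm, adj, real_inner_comm]
    exact ⟨fun h => ⟨w2 w hw γ hγ, h.2⟩, fun h => ⟨hγ, h.2⟩⟩
  have hu2 : ∀ γ, (γ ∈ Rint R v₁ ↔ u γ ∈ Rint R v₁) := by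
    intro γ
    refine ⟨fun h => s2 u hu γ h, fun h => ?_⟩
    have := s2 _ hui _ h
    rwa [app_inv] at this
  set A : V n → ℝ := fun γ => nd ((inner ℝ) (u γ) a / r) with hA
  set B : V n → ℝ := fun γ => nd ((inner ℝ) (w γ) b / r) with hB
  set p : V n → ℝ := fun γ => r * A γ * B γ with hp
  have hA0 : ∀ γ ∈ R, 1 / (3 * (r : ℝ)) ≤ A γ := fun γ hγ => ha0 _ (w2 u huR γ hγ)
  have hB0 : ∀ γ ∈ R, 1 / (3 * (r : ℝ)) ≤ B γ := fun γ hγ => hb0 _ (w2 w hw γ hγ)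
  have hApos : ∀ γ, 0 ≤ A γ := fun γ => nd_nonneg _
  have hBpos : ∀ γ, 0 ≤ B γ := fun γ => nd_nonneg _
  have hAε : ∀ γ ∈ R, γ ∉ Rint R v₁ → ε ≤ A γ := by
    intro γ hγ h
    exact ha2 _ (w2 u huR γ hγ) (fun h1 => h ((hu2 γ).2 h1))
  have hBε : ∀ γ ∈ R, γ ∉ Rint R (w⁻¹ v₂) → ε ≤ B γ := by
    intro γ hγ h
    exact hb2 _ (w2 w hw γ hγ) (fun h1 => h ((hw2 γ hγ).2 h1))
  have hA1 : ∀ γ ∈ Rint R v₁, |(inner ℝ) γ (u⁻¹ (a - (r : ℝ) • v₁))| = r * A γ := by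
    intro γ hγ
    rw [adj]
    exact ha1 _ ((hu2 γ).1 hγ)
  have hB1 : ∀ γ ∈ Rint R (w⁻¹ v₂), |(inner ℝ) γ (w⁻¹ (b - (r : ℝ) • v₂))| = r * B γ := by
    intro γ hγ
    rw [adj]
    exact hb1 _ ((hw2 γ (hCl2.sub hγ)).1 hγ)
  have hAneg : ∀ γ, A (-γ) = A γ := by
    intro γ
    show nd ((inner ℝ) (u (-γ)) a / r) = nd ((inner ℝ) (u γ) a / r)
    rw [map_neg, inner_neg_left, neg_div, nd_neg]
  have hBneg : ∀ γ, B (-γ) = B γ := by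
    intro γ
    show nd ((inner ℝ) (w (-γ)) b / r) = nd ((inner ℝ) (w γ) b / r)
    rw [map_neg, inner_neg_left, neg_div, nd_neg]
  have hP : (r : ℝ) ^ R.card * ∏ γ ∈ R, (nd ((inner ℝ) γ a / r) * nd ((inner ℝ) γ b / r)) = ∏ γ ∈ R, p γ := by
    have e1 := w9 u huR ℝ (fun γ => nd ((inner ℝ) γ a / r))
    have e2 := w9 w hw ℝ (fun γ => nd ((inner ℝ) γ b / r))
    rw [prod_mul_distrib, ← e1, ← e2, hp]
    simp only [prod_mul_distrib, prod_const]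
    ring
  rw [hP]
  set a' := a - (r : ℝ) • v₁ with ha'
  set b' := b - (r : ℝ) • v₂ with hb'
  have hp0 : ∀ γ ∈ R, 0 ≤ p γ := fun γ _ => mul_nonneg (mul_nonneg hr0.le (hApos γ)) (hBpos γ)
  have hfac : ∀ γ ∈ Ψ, |(inner ℝ) γ ((2 * Real.pi / r) • u⁻¹ a')| * |(inner ℝ) γ (w⁻¹ b')| =
      (2 * Real.pi) * p γ := by
    intro γ hγ
    rw [hmem] at hγ
    rw [real_inner_smul_right, abs_mul, hA1 γ hγ.1, hB1 γ hγ.2,
      abs_of_pos (div_pos (by linarith) hr0), hp]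
    simp only
    field_simp
  have hprodΨ : ∏ γ ∈ Ψ, (|(inner ℝ) γ ((2 * Real.pi / r) • u⁻¹ a')| * |(inner ℝ) γ (w⁻¹ b')|) =
      (2 * Real.pi) ^ Ψ.card * ∏ γ ∈ Ψ, p γ := by
    rw [prod_congr rfl hfac, prod_mul_distrib, prod_const]
  have hPΨ0 : 0 ≤ ∏ γ ∈ Ψ, p γ := prod_nonneg fun γ hγ => hp0 γ (hΨR hγ)
  have hPR0 : 0 ≤ ∏ γ ∈ R, p γ := prod_nonneg hp0
  set T := ‖E Ψ ((2 * Real.pi / r) • u⁻¹ a') (w⁻¹ b', 0)‖ ^ 2 with hT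
  have hT0 : 0 ≤ T := sq_nonneg _
  set K := CF * (2 * Real.pi) ^ R.card with hK
  have hK0 : 0 ≤ K := mul_nonneg hCF (pow_nonneg (by linarith) _)
  have hTK : T ≤ K * ∏ γ ∈ Ψ, p γ := by
    have h1 := hF Ψ hΨR hRS3 ((2 * Real.pi / r) • u⁻¹ a') (w⁻¹ b')
    rw [hprodΨ] at h1
    refine h1.trans ?_
    rw [hK, mul_assoc]
    apply mul_le_mul_of_nonneg_left _ hCF
    exact mul_le_mul_of_nonneg_right (pow_le_pow_right₀ hpi (card_le_card hΨR)) hPΨ0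
  have hη0 : 0 < ε / 3 := by linarith
  have hη1 : ε / 3 ≤ 1 := by linarith
  have hpη : ∀ γ ∈ R, γ ∉ Ψ → ε / 3 ≤ p γ := by
    intro γ hγ hγ'
    have e : ε / 3 = r * ε * (1 / (3 * (r : ℝ))) := by field_simp
    have e' : ε / 3 = r * (1 / (3 * (r : ℝ))) * ε := by field_simp
    have h13 : 0 ≤ 1 / (3 * (r : ℝ)) := by positivity
    by_cases h1 : γ ∈ Rint R v₁
    · have h2 : γ ∉ Rint R (w⁻¹ v₂) := fun h => hγ' ((hmem γ).2 ⟨h1, h⟩)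
      rw [e']
      exact mul_le_mul (mul_le_mul_of_nonneg_left (hA0 γ hγ) hr0.le) (hBε γ hγ h2) hε.le
        (mul_nonneg hr0.le (hApos γ))
    · rw [e]
      exact mul_le_mul (mul_le_mul_of_nonneg_left (hAε γ hγ h1) hr0.le) (hB0 γ hγ) h13
        (mul_nonneg hr0.le (hApos γ))
  have hηN : 0 < (ε / 3) ^ R.card := pow_pos hη0 _
  have part1 : T ≤ K / (ε / 3) ^ R.card * ∏ γ ∈ R, p γ := by
    have h1 := key1 R Ψ hΨR p hp0 (ε / 3) hη0 hη1 hpη K T hK0 hTK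
    rw [div_mul_eq_mul_div, le_div_iff₀ hηN]
    exact h1
  set A₀ := nd ((inner ℝ) α₀ a / r) with hA₀
  set B₀ := nd ((inner ℝ) β₀ b / r) with hB₀
  have hA₀0 : 0 ≤ A₀ := nd_nonneg _
  have hB₀0 : 0 ≤ B₀ := nd_nonneg _
  have hA₀1 : A₀ ≤ 1 := (nd_half _).trans (by norm_num)
  have hB₀1 : B₀ ≤ 1 := (nd_half _).trans (by norm_num)
  set q := (r : ℝ) * A₀ * B₀ with hq
  have hq0 : 0 ≤ q := mul_nonneg (mul_nonneg hr0.le hA₀0) hB₀0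
  have hCS0 : 0 < CS := by linarith
  have hε4 : 0 < ε ^ 4 * (ε / 3) ^ R.card := mul_pos (pow_pos hε 4) hηN
  have hc2 : 0 ≤ CS ^ 2 * K / (ε ^ 4 * (ε / 3) ^ R.card) :=
    div_nonneg (mul_nonneg (sq_nonneg _) hK0) hε4.le
  have hc3 : 0 ≤ CH * (2 * Real.pi) ^ R.card := mul_nonneg hCH (pow_nonneg (by linarith) _)
  have step : (∃ γ ∈ R, γ ∉ Ψ ∧ ε ^ 2 * q ≤ CS * p γ) →
      T * q ^ 2 ≤ CS ^ 2 * K / (ε ^ 4 * (ε / 3) ^ R.card) * ∏ γ ∈ R, p γ := by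
    rintro ⟨γ, hγ, hγΨ, hle⟩
    have hneR : -γ ∈ R := w5 γ hγ
    have hpneg : p (-γ) = p γ := by
      show r * A (-γ) * B (-γ) = r * A γ * B γ
      rw [hAneg, hBneg]
    have hnegΨ : -γ ∉ Ψ := by
      intro h
      apply hγΨ
      rw [hmem] at h ⊢
      have h1 := hCl1.neg _ h.1
      have h2 := hCl2.neg _ h.2
      rw [neg_neg] at h1 h2
      exact ⟨h1, h2⟩
    have hγ0 : γ ≠ 0 := by
      rintro rfl
      exact hRS.ne0 hγ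
    have hne : γ ≠ -γ := by
      intro h
      apply hγ0
      have : (2 : ℝ) • γ = 0 := by
        rw [two_smul]
        nth_rewrite 2 [h]
        exact add_neg_cancel γ
      exact (smul_eq_zero.1 this).resolve_left (by norm_num)
    have hm : ε ^ 2 * q / CS ≤ p γ := by
      rw [div_le_iff₀ hCS0]
      linarith
    have hm0 : 0 ≤ ε ^ 2 * q / CS := div_nonneg (mul_nonneg (sq_nonneg _) hq0) hCS0.le
    have h2 := key2 R Ψ hΨR p hp0 (ε / 3) hη0 hη1 hpη K T hK0 hTK γ (-γ) hγ hγΨ hneR hnegΨ hne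
      (ε ^ 2 * q / CS) hm0 hm (by rw [hpneg]; exact hm)
    rw [div_mul_eq_mul_div, le_div_iff₀ hε4]
    have h3 : T * q ^ 2 * (ε ^ 4 * (ε / 3) ^ R.card) =
        CS ^ 2 * (T * ((ε ^ 2 * q / CS) ^ 2 * (ε / 3) ^ R.card)) := by
      field_simp
    rw [h3, mul_assoc]
    exact mul_le_mul_of_nonneg_left h2 (sq_nonneg _)
  have part2 : T * q ^ 2 ≤ (CS ^ 2 * K / (ε ^ 4 * (ε / 3) ^ R.card) +
      CH * (2 * Real.pi) ^ R.card) * ∏ γ ∈ R, p γ := by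
    rw [add_mul]
    by_cases h1 : Rint R v₁ = R
    · by_cases h2 : Rint R (w⁻¹ v₂) = R
      · have hΨe : Ψ = R := by
          ext γ
          rw [hmem, h1, h2, and_self]
        have h3 := hH ((2 * Real.pi / r) • u⁻¹ a') (w⁻¹ b')
        rw [hΨe] at hprodΨ
        rw [hprodΨ] at h3
        have hT' : T = ‖E R ((2 * Real.pi / r) • u⁻¹ a') (w⁻¹ b', 0)‖ ^ 2 := by rw [hT, hΨe]
        rw [← hT'] at h3
        have h4 : q ≤ ‖(2 * Real.pi / r) • u⁻¹ a'‖ * ‖w⁻¹ b'‖ := by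
          rw [norm_smul, LinearIsometryEquiv.norm_map, LinearIsometryEquiv.norm_map,
            Real.norm_of_nonneg (div_nonneg (by linarith) hr0.le)]
          have h5 : (r : ℝ) * A₀ ≤ ‖α₀‖ * ‖a'‖ := by
            rw [hA₀, ← ha1 α₀ (by rw [h1]; exact hα)]
            exact abs_real_inner_le_norm _ _
          have h6 : (r : ℝ) * B₀ ≤ ‖β₀‖ * ‖b'‖ := by
            have hm2 : β₀ ∈ Rint R v₂ := by
              have h7 : w⁻¹ β₀ ∈ R := w2 _ hwi β₀ hβ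
              have h8 := (hw2 _ h7).1 (by rw [h2]; exact h7)
              rwa [inv_app] at h8
            rw [hB₀, ← hb1 β₀ hm2]
            exact abs_real_inner_le_norm _ _
          have h7 : ‖α₀‖ * ‖β₀‖ ≤ 2 := by
            have h8 := hR.short α₀ hα
            have h9 := hR.short β₀ hβ
            rw [real_inner_self_eq_norm_sq] at h8 h9
            nlinarith [sq_nonneg (‖α₀‖ - ‖β₀‖)]
          have h8 : ((r : ℝ) * A₀) * ((r : ℝ) * B₀) ≤ 2 * Real.pi * (‖a'‖ * ‖b'‖) := by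
            calc ((r : ℝ) * A₀) * ((r : ℝ) * B₀) ≤ (‖α₀‖ * ‖a'‖) * (‖β₀‖ * ‖b'‖) :=
                  mul_le_mul h5 h6 (mul_nonneg hr0.le hB₀0)
                    (mul_nonneg (norm_nonneg _) (norm_nonneg _))
              _ = (‖α₀‖ * ‖β₀‖) * (‖a'‖ * ‖b'‖) := by ring
              _ ≤ 2 * Real.pi * (‖a'‖ * ‖b'‖) := by
                  apply mul_le_mul_of_nonneg_right _ (mul_nonneg (norm_nonneg _) (norm_nonneg _))
                  linarith [Real.pi_gt_three]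
          have h9 : q = ((r : ℝ) * A₀) * ((r : ℝ) * B₀) / r := by
            rw [hq]
            field_simp
          have h10 : 2 * Real.pi / r * ‖a'‖ * ‖b'‖ = 2 * Real.pi * (‖a'‖ * ‖b'‖) / r := by ring
          rw [h9, h10]
          exact div_le_div_of_nonneg_right h8 hr0.le
        have h5 : q ^ 2 * T ≤ (‖(2 * Real.pi / r) • u⁻¹ a'‖ * ‖w⁻¹ b'‖) ^ 2 * T :=
          mul_le_mul_of_nonneg_right (pow_le_pow_left₀ hq0 h4 2) hT0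
        have h6 := mul_nonneg hc2 hPR0
        rw [← mul_assoc] at h3
        linarith
      · -- `Ψ1 = R`, `Ψ2' ≠ R`
        have h3 := step (by
          obtain ⟨γ, hγ, hγ', hle⟩ := hS _ hCl2 h2 (u⁻¹ α₀) (w2 _ huiR α₀ hα) (u⁻¹ a')
          refine ⟨γ, hγ, fun h => hγ' ((hmem γ).1 h).2, ?_⟩
          rw [adj, inv_app, ha1 α₀ (by rw [h1]; exact hα), hA1 γ (by rw [h1]; exact hγ)] at hle
          have h4 := hBε γ hγ hγ'
          have h5 : (r : ℝ) * A₀ ≤ CS * (r * A γ) := hle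
          have h6 : ε ^ 2 * B₀ ≤ B γ := by nlinarith
          calc ε ^ 2 * q = (r * A₀) * (ε ^ 2 * B₀) := by rw [hq]; ring
            _ ≤ (CS * (r * A γ)) * B γ := mul_le_mul h5 h6 (mul_nonneg (sq_nonneg _) hB₀0)
                (mul_nonneg hCS0.le (mul_nonneg hr0.le (hApos γ)))
            _ = CS * p γ := by rw [hp]; ring)
        have h6 := mul_nonneg hc3 hPR0
        linarith
    · by_cases h2 : Rint R (w⁻¹ v₂) = R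
      · have h3 := step (by
          obtain ⟨γ, hγ, hγ', hle⟩ := hS _ hCl1 h1 (w⁻¹ β₀) (w2 _ hwi β₀ hβ) (w⁻¹ b')
          refine ⟨γ, hγ, fun h => hγ' ((hmem γ).1 h).1, ?_⟩
          have hm2 : β₀ ∈ Rint R v₂ := by
            have h7 : w⁻¹ β₀ ∈ R := w2 _ hwi β₀ hβ
            have h8 := (hw2 _ h7).1 (by rw [h2]; exact h7)
            rwa [inv_app] at h8
          rw [adj, inv_app, hb1 β₀ hm2, hB1 γ (by rw [h2]; exact hγ)] at hle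
          have h4 := hAε γ hγ hγ'
          have h5 : (r : ℝ) * B₀ ≤ CS * (r * B γ) := hle
          have h6 : ε ^ 2 * A₀ ≤ A γ := by nlinarith
          calc ε ^ 2 * q = (ε ^ 2 * A₀) * (r * B₀) := by rw [hq]; ring
            _ ≤ A γ * (CS * (r * B γ)) := mul_le_mul h6 h5 (mul_nonneg hr0.le hB₀0) (hApos γ)
            _ = CS * p γ := by rw [hp]; ring)
        have h6 := mul_nonneg hc3 hPR0
        linarith
      · have h3 := step (by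
          obtain ⟨γ, hγ, hγ1, hγ2⟩ := hcov n R hR _ _ hCl1 hCl2 h1 h2
          refine ⟨γ, hγ, fun h => hγ1 ((hmem γ).1 h).1, ?_⟩
          have h4 := hAε γ hγ hγ1
          have h5 := hBε γ hγ hγ2
          have h6 : ε * A₀ ≤ A γ := by nlinarith
          have h7 : ε * B₀ ≤ B γ := by nlinarith
          have h8 : ε ^ 2 * q ≤ p γ := by
            calc ε ^ 2 * q = (r * (ε * A₀)) * (ε * B₀) := by rw [hq]; ring
              _ ≤ (r * A γ) * B γ := mul_le_mul (mul_le_mul_of_nonneg_left h6 hr0.le) h7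
                  (mul_nonneg hε.le hB₀0) (mul_nonneg hr0.le (hApos γ))
              _ = p γ := by rw [hp]
          have h9 := hp0 γ hγ
          nlinarith)
        have h6 := mul_nonneg hc3 hPR0
        linarith
  calc T * (1 + q ^ 2) = T + T * q ^ 2 := by ring
    _ ≤ K / (ε / 3) ^ R.card * ∏ γ ∈ R, p γ + (CS ^ 2 * K / (ε ^ 4 * (ε / 3) ^ R.card) +
      CH * (2 * Real.pi) ^ R.card) * ∏ γ ∈ R, p γ := add_le_add part1 part2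
    _ = _ := by ring

theorem main : S_W → S_F1 → S_hb → S_sub → S_sp → S_cov → S_ac → S_dd → S_q → S_nd → S_U := by
  intro hW hF1 hhb hsub hsp hcov hac hdd hq hnd n R hR
  have hRS := hR.toIsRS
  obtain ⟨CF, hCF, hF⟩ := cF hF1 R
  obtain ⟨CS, hCS, hS⟩ := cS hsp R hR
  obtain ⟨CH, hCH, hH⟩ := hhb n R hR
  obtain ⟨ε₀, hε₀, hac'⟩ := hac n R hR
  set ε := min ε₀ 1 with hεd
  have hε : 0 < ε := lt_min hε₀ one_pos
  have hε1 : ε ≤ 1 := min_le_right _ _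
  have hac2 : ∀ x : V n, (∀ α ∈ R, |(inner ℝ) α x| ≤ 1) → ∃ v : V n,
      (∀ α ∈ R, |(inner ℝ) α (x - v)| ≤ 1 / 2) ∧ ∀ α ∈ R, α ∉ Rint R v → ε ≤ nd ((inner ℝ) α x) := by
    intro x hx
    obtain ⟨v, h1, h2⟩ := hac' x hx
    exact ⟨v, h1, fun α h3 h4 => (min_le_left _ _).trans (h2 α h3 h4)⟩
  have hcor : ∀ α ∈ R, ∃ q : ℕ, (q : ℝ) * (inner ℝ) α α = 2 := by
    intro α hα
    obtain ⟨q, -, -, h⟩ := hq n R hR α hα
    exact ⟨q, h⟩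
  set C₀ := CF * (2 * Real.pi) ^ R.card / (ε / 3) ^ R.card +
        CS ^ 2 * (CF * (2 * Real.pi) ^ R.card) / (ε ^ 4 * (ε / 3) ^ R.card) +
        CH * (2 * Real.pi) ^ R.card with hC₀
  have hC₀0 : 0 ≤ C₀ := by
    have := Real.pi_pos
    positivity
  refine ⟨((Wf R).card * (Wf R).card : ℝ) ^ 2 * C₀, by positivity, ?_⟩
  intro r hr a b ha hb α₀ hα β₀ hβ
  obtain ⟨v₁, ha1, ha2⟩ := pt hac2 r hr a ha
  obtain ⟨v₂, hb1, hb2⟩ := pt hac2 r hr b hb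
  have ha0 := hnd n R hR r hr a ha
  have hb0 := hnd n R hR r hr b hb
  have hmain := hdd n R hRS hcor r hr a b ha.1 hb.1 v₁ v₂
  set P := (r : ℝ) ^ R.card * ∏ γ ∈ R, (nd ((inner ℝ) γ a / r) * nd ((inner ℝ) γ b / r)) with hP
  have hP0 : 0 ≤ P := mul_nonneg (by positivity)
    (prod_nonneg fun γ _ => mul_nonneg (nd_nonneg _) (nd_nonneg _))
  set D := 1 + (r * nd ((inner ℝ) α₀ a / r) * nd ((inner ℝ) β₀ b / r)) ^ 2 with hD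
  have hD0 : 0 < D := by positivity
  have hRS1 : IsRS (Rint R v₁) := (hsub n R hRS v₁).1.1
  have hsubR : Rint R v₁ ⊆ R := (hsub n R hRS v₁).1.2.sub
  have hWsub : Wf (Rint R v₁) ⊆ Wf R := (hW n R hRS).2.2.2.2.2.1 _ hsubR hRS1
  set s := Real.sqrt (C₀ * P / D) with hs
  have hs0 : 0 ≤ s := Real.sqrt_nonneg _
  have hs2 : s ^ 2 = C₀ * P / D := Real.sq_sqrt (div_nonneg (mul_nonneg hC₀0 hP0) hD0.le)
  have hterm : ∀ w ∈ Wf R, ∀ u ∈ Wf (Rint R v₁),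
      ‖E (Rint (Rint R v₁) (w⁻¹ v₂)) ((2 * Real.pi / r) • u⁻¹ (a - (r : ℝ) • v₁))
        (w⁻¹ (b - (r : ℝ) • v₂), 0)‖ ≤ s := by
    intro w hw u hu
    apply Real.le_sqrt_of_sq_le
    rw [le_div_iff₀ hD0]
    exact term hW hsub hcov hR hCF hCS hCH hε hε1 hF hS hH r hr a b v₁ v₂ ha0 hb0 ha1 ha2 hb1 hb2
      α₀ β₀ hα hβ w u hw hu
  have hsum : ‖E R ((2 * Real.pi / r) • a) (b, 0)‖ ≤ ((Wf R).card * (Wf R).card : ℝ) * s := by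
    refine hmain.trans ?_
    calc ∑ w ∈ Wf R, ∑ u ∈ Wf (Rint R v₁),
          ‖E (Rint (Rint R v₁) (w⁻¹ v₂)) ((2 * Real.pi / r) • u⁻¹ (a - (r : ℝ) • v₁))
            (w⁻¹ (b - (r : ℝ) • v₂), 0)‖
        ≤ ∑ w ∈ Wf R, ∑ _u ∈ Wf (Rint R v₁), s :=
          sum_le_sum fun w hw => sum_le_sum fun u hu => hterm w hw u hu
      _ = (Wf R).card * ((Wf (Rint R v₁)).card * s) := by
          simp only [sum_const, nsmul_eq_mul]
      _ ≤ ((Wf R).card * (Wf R).card : ℝ) * s := by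
          rw [mul_assoc]
          apply mul_le_mul_of_nonneg_left _ (Nat.cast_nonneg _)
          apply mul_le_mul_of_nonneg_right _ hs0
          exact_mod_cast card_le_card hWsub
  calc ‖E R ((2 * Real.pi / r) • a) (b, 0)‖ ^ 2 * D
      ≤ (((Wf R).card * (Wf R).card : ℝ) * s) ^ 2 * D :=
        mul_le_mul_of_nonneg_right (pow_le_pow_left₀ (norm_nonneg _) hsum 2) hD0.le
    _ = ((Wf R).card * (Wf R).card : ℝ) ^ 2 * (C₀ * P / D) * D := by rw [mul_pow, hs2]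
    _ = ((Wf R).card * (Wf R).card : ℝ) ^ 2 * C₀ * P := by
        rw [mul_assoc, div_mul_cancel₀ _ hD0.ne', mul_assoc]
    _ = _ := by rw [hP]; ring

end H391.AE.P_U
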