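import Mathlib
import Pool.Agent.H391.AE.S

/-!
# AE-W: basic facts on the Weyl group
-/

set_option autoImplicit false

open Finset
open scoped InnerProductSpace

namespace H391.AE.P_W

open H391.AE

variable {n : ℕ}

theorem refl_inv (α : V n) : (refl α)⁻¹ = refl α := Submodule.reflection_inv

theorem refl_self (α : V n) : refl α α = -α :=
  Submodule.reflection_orthogonalComplement_singleton_eq_neg α

theorem refl_apply (α : V n) (x : V n) :
    refl α x = x - (2 * (inner ℝ) α x / (inner ℝ) α α) • α := by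
  unfold refl
  rw [Submodule.reflection_orthogonal_apply, Submodule.reflection_singleton_apply,
    real_inner_self_eq_norm_sq]
  simp only [RCLike.ofReal_real_eq_id, id]
  rw [neg_sub, ← smul_assoc]
  congr 2
  rw [nsmul_eq_mul]
  push_cast
  ring

theorem sg_mul (w w' : V n ≃ₗᵢ[ℝ] V n) : sg (w * w') = sg w * sg w' := by
  unfold sg
  rw [← LinearMap.det_comp]
  rfl

theorem sg_one : sg (1 : V n ≃ₗᵢ[ℝ] V n) = 1 := by
  unfold sg
  exact LinearMap.det_id

theorem sg_refl {α : V n} (h : α ≠ 0) : sg (refl α) = -1 := by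
  have h1 := Submodule.det_reflection (𝕜 := ℝ) (K := (Submodule.span ℝ {α})ᗮ)
  rw [Submodule.orthogonal_orthogonal, finrank_span_singleton h, pow_one] at h1
  exact h1

theorem perm {R : Finset (V n)} (hR : IsRS R) {w : V n ≃ₗᵢ[ℝ] V n} (hw : w ∈ W R) :
    ∀ α ∈ R, w α ∈ R ∧ w⁻¹ α ∈ R := by
  unfold W at hw
  induction hw using Subgroup.closure_induction with
  | mem s hs =>
    obtain ⟨β, hβ, rfl⟩ := hs
    intro α hα
    rw [refl_inv]
    exact ⟨hR.refl_mem β hβ α hα, hR.refl_mem β hβ α hα⟩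
  | one => intro α hα; exact ⟨hα, by rw [inv_one]; exact hα⟩
  | mul x y _ _ hx hy =>
    intro α hα
    refine ⟨(hx _ (hy α hα).1).1, ?_⟩
    rw [mul_inv_rev]
    exact (hy _ (hx α hα).2).2
  | inv x _ hx =>
    intro α hα
    rw [inv_inv]
    exact ⟨(hx α hα).2, (hx α hα).1⟩

theorem sg_W {R : Finset (V n)} (hR : IsRS R) {w : V n ≃ₗᵢ[ℝ] V n} (hw : w ∈ W R) :
    sg w = 1 ∨ sg w = -1 := by
  unfold W at hw
  induction hw using Subgroup.closure_induction with
  | mem s hs =>
    obtain ⟨β, hβ, rfl⟩ := hs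
    exact Or.inr (sg_refl fun h => hR.ne0 (h ▸ hβ))
  | one => exact Or.inl sg_one
  | mul x y _ _ hx hy =>
    rw [sg_mul]
    rcases hx with hx | hx <;> rcases hy with hy | hy <;> rw [hx, hy] <;> norm_num
  | inv x _ hx =>
    have h1 : sg x * sg x⁻¹ = 1 := by rw [← sg_mul, mul_inv_cancel, sg_one]
    rcases hx with hx | hx
    · rw [hx, one_mul] at h1
      exact Or.inl h1
    · rw [hx] at h1
      right
      linarith

theorem fix {R : Finset (V n)} {w : V n ≃ₗᵢ[ℝ] V n} (hw : w ∈ W R) (x : V n)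
    (hx : ∀ α ∈ R, (inner ℝ) α x = 0) : w x = x := by
  unfold W at hw
  induction hw using Subgroup.closure_induction with
  | mem s hs =>
    obtain ⟨β, hβ, rfl⟩ := hs
    rw [refl_apply, hx β hβ, mul_zero, zero_div, zero_smul, sub_zero]
  | one => rfl
  | mul x' y _ _ hx' hy =>
    show x' (y x) = x
    rw [hy, hx']
  | inv x' _ hx' =>
    have h1 : x'⁻¹ (x' x) = x := by
      show (x'⁻¹ * x') x = x
      rw [inv_mul_cancel]
      rfl
    rw [hx'] at h1
    exact h1

theorem main : S_fin → S_W := by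
  intro hfin n R hR
  have h1 : ∀ {Φ : Finset (V n)}, IsRS Φ → ∀ w, w ∈ Wf Φ ↔ w ∈ W Φ := by
    intro Φ hΦ w
    unfold Wf
    rw [dif_pos (show (WSet Φ).Finite from hfin n Φ hΦ), Set.Finite.mem_toFinset]
    rfl
  refine ⟨h1 hR, ?_, ?_, ?_, ?_, ?_, ?_, ?_, ?_⟩
  · intro w hw α hα
    exact (perm hR ((h1 hR w).1 hw) α hα).1
  · intro w hw
    exact sg_W hR ((h1 hR w).1 hw)
  · intro α hα
    exact sg_refl fun h => hR.ne0 (h ▸ hα)
  · intro α hα
    have := hR.refl_mem α hα α hα
    rwa [refl_self] at this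
  · intro Φ hΦ hΦR w hw
    rw [h1 hR]
    have h2 := (h1 hΦR w).1 hw
    refine Subgroup.closure_mono ?_ h2
    rintro _ ⟨α, hα, rfl⟩
    exact ⟨α, hΦ hα, rfl⟩
  · intro w hw x hx
    exact fix ((h1 hR w).1 hw) x hx
  · intro α _ x
    exact refl_apply α x
  · intro w hw M _ f
    have hp := perm hR ((h1 hR w).1 hw)
    refine Finset.prod_nbij' (fun α => w α) (fun α => w⁻¹ α) (fun α hα => (hp α hα).1)
      (fun α hα => (hp α hα).2) ?_ ?_ (fun _ _ => rfl)
    · intro α _
      show (w⁻¹ * w) α = α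
      rw [inv_mul_cancel]
      rfl
    · intro α _
      show (w * w⁻¹) α = α
      rw [mul_inv_cancel]
      rfl

end H391.AE.P_W
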