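import Mathlib
import Pool.Agent.H391.AE.S

set_option autoImplicit false

open Finset
open scoped InnerProductSpace

namespace H391.AE.P_Z

theorem sum_piFinset_two {α : Type*} (s : Finset α) (f : α → α → ℂ) :
    ∑ x ∈ Fintype.piFinset (fun _ : Fin 2 => s), f (x 0) (x 1) = ∑ a ∈ s, ∑ b ∈ s, f a b := by
  rw [← Finset.sum_product']
  refine Finset.sum_nbij' (fun x => (x 0, x 1)) (fun p => ![p.1, p.2]) ?_ ?_ ?_ ?_ ?_
  · intro x hx
    rw [Fintype.mem_piFinset] at hx
    rw [mem_product]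
    exact ⟨hx 0, hx 1⟩
  · intro p hp
    rw [mem_product] at hp
    rw [Fintype.mem_piFinset]
    intro i
    fin_cases i
    · exact hp.1
    · exact hp.2
  · intro x _
    funext i
    fin_cases i <;> rfl
  · intro p _
    rfl
  · intro x _
    rfl

theorem edge_prod (p : ℕ) (s : ℂ) :
    ∏ e : Fin (2 * p), (if decide ((e : ℕ) < p) = true then s else (starRingEnd ℂ) s) =
      ((‖s‖ ^ 2 : ℝ) : ℂ) ^ p := by
  have h0 := Fin.prod_univ_eq_prod_range
    (fun i => if decide (i < p) = true then s else (starRingEnd ℂ) s) (2 * p)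
  rw [h0, two_mul, Finset.prod_range_add]
  have h1 : ∏ i ∈ range p, (if decide (i < p) = true then s else (starRingEnd ℂ) s) = s ^ p := by
    rw [Finset.prod_congr rfl (fun i hi => if_pos (by simpa using hi)), Finset.prod_const,
      card_range]
  have h2 : ∏ i ∈ range p, (if decide (p + i < p) = true then s else (starRingEnd ℂ) s) =
      (starRingEnd ℂ) s ^ p := by
    rw [Finset.prod_congr rfl (fun i hi => if_neg (by simp)), Finset.prod_const, card_range]
  rw [h1, h2, ← mul_pow, Complex.mul_conj, Complex.normSq_eq_norm_sq]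

theorem deg0 (p : ℕ) : (multiEdge p).degree 0 = 2 * p := by
  unfold W719AEC.PlumbingGraph.degree multiEdge
  simp

theorem deg1 (p : ℕ) : (multiEdge p).degree 1 = 2 * p := by
  unfold W719AEC.PlumbingGraph.degree multiEdge
  simp

theorem state {n : ℕ} (R : Finset (V n)) (δ : V n) (p r : ℕ) :
    Z R δ (multiEdge p) r = ∑ a ∈ labels R δ r, ∑ b ∈ labels R δ r,
      Smat R δ r (rho R δ) a ^ (-(2 * (p : ℤ))) * Smat R δ r (rho R δ) b ^ (-(2 * (p : ℤ))) *
        ((‖Smat R δ r a b‖ ^ 2 : ℝ) : ℂ) ^ p := by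
  rw [← sum_piFinset_two (labels R δ r) (fun a b =>
    Smat R δ r (rho R δ) a ^ (-(2 * (p : ℤ))) * Smat R δ r (rho R δ) b ^ (-(2 * (p : ℤ))) *
        ((‖Smat R δ r a b‖ ^ 2 : ℝ) : ℂ) ^ p)]
  unfold Z
  refine Finset.sum_congr rfl fun x _ => ?_
  rw [Fin.prod_univ_two, deg0, deg1]
  have h : ∏ e, (if (multiEdge p).positive e then
        Smat R δ r (x ((multiEdge p).src e)) (x ((multiEdge p).tgt e))
      else (starRingEnd ℂ) (Smat R δ r (x ((multiEdge p).src e)) (x ((multiEdge p).tgt e)))) =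
      ((‖Smat R δ r (x 0) (x 1)‖ ^ 2 : ℝ) : ℂ) ^ p := by
    rw [← edge_prod p]
    exact Finset.prod_congr rfl fun e _ => rfl
  rw [h]
  have e0 : (multiEdge p).euler 0 = 0 := rfl
  have e1 : (multiEdge p).euler 1 = 0 := rfl
  have g0 : (multiEdge p).genus 0 = 1 := rfl
  have g1 : (multiEdge p).genus 1 = 1 := rfl
  rw [e0, e1, g0, g1, zpow_zero, zpow_zero, one_mul, one_mul]
  have h3 : (2 : ℤ) - 2 * ((1 : ℕ) : ℤ) - ((2 * p : ℕ) : ℤ) = -(2 * (p : ℤ)) := by
    push_cast; ring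
  rw [h3]

/-- products of even functions over all roots -/
theorem prod_even {n : ℕ} (R : Finset (V n)) (δ : V n) (hδ : Reg R δ)
    (hneg : ∀ α ∈ R, -α ∈ R) (f : V n → ℝ) (hf : ∀ α, f (-α) = f α) :
    ∏ α ∈ R, f α = (∏ α ∈ pos R δ, f α) ^ 2 := by
  classical
  have h1 : ∏ α ∈ R, f α = (∏ α ∈ R.filter (fun α => 0 < (inner ℝ) δ α), f α) *
      ∏ α ∈ R.filter (fun α => ¬ 0 < (inner ℝ) δ α), f α :=
    (Finset.prod_filter_mul_prod_filter_not _ _ _).symm
  have hp : pos R δ = R.filter (fun α => 0 < (inner ℝ) δ α) := by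
    unfold pos
    ext α
    simp
  have h2 : ∏ α ∈ R.filter (fun α => ¬ 0 < (inner ℝ) δ α), f α =
      ∏ α ∈ R.filter (fun α => 0 < (inner ℝ) δ α), f α := by
    refine Finset.prod_nbij' (fun α => -α) (fun α => -α) ?_ ?_ ?_ ?_ ?_
    · intro α hα
      rw [mem_filter] at hα ⊢
      refine ⟨hneg _ hα.1, ?_⟩
      rw [inner_neg_right]
      have := hδ α hα.1
      have h3 := lt_of_le_of_ne (not_lt.1 hα.2) this
      linarith
    · intro α hα
      rw [mem_filter] at hα ⊢
      refine ⟨hneg _ hα.1, ?_⟩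
      rw [inner_neg_right]
      linarith [hα.2]
    · intro α _; exact neg_neg α
    · intro α _; exact neg_neg α
    · intro α _; exact (hf α).symm
  rw [h1, h2, hp, sq]

/-- the complex conjugate alternating sum -/
theorem Smat_norm {n : ℕ} (R : Finset (V n)) (δ : V n) (r : ℕ) (hr : 1 ≤ r) (hi : 0 < idx R)
    (a b : V n) :
    ‖Smat R δ r a b‖ ^ 2 =
      ‖E R ((2 * Real.pi / r) • a) (b, 0)‖ ^ 2 / (idx R * (r : ℝ) ^ n) := by
  have hr0 : (0 : ℝ) < r := by exact_mod_cast hr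
  have hi0 : (0 : ℝ) < idx R := by exact_mod_cast hi
  have hc : (0 : ℝ) < idx R * (r : ℝ) ^ n := by positivity
  have hE : ∑ w ∈ Wf R, ((sg w : ℝ) : ℂ) *
      Complex.exp (-(2 * Real.pi * Complex.I * ((((inner ℝ) (w a) b : ℝ) : ℂ) / r))) =
      (starRingEnd ℂ) (E R ((2 * Real.pi / r) • a) (b, 0)) := by
    unfold E
    rw [map_sum]
    refine Finset.sum_congr rfl fun w _ => ?_
    rw [map_mul, Complex.conj_ofReal, ← Complex.exp_conj]
    congr 2
    unfold cp
    simp only [inner_zero_right, Complex.ofReal_zero, zero_mul, add_zero, map_mul, Complex.conj_I,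
      Complex.conj_ofReal]
    rw [map_smul, real_inner_smul_left]
    push_cast
    ring
  unfold Smat
  rw [hE, norm_mul, norm_div, norm_pow, Complex.norm_I, one_pow, Complex.norm_real,
    Real.norm_of_nonneg (Real.sqrt_nonneg _), RCLike.norm_conj, mul_pow, div_pow, one_pow,
    Real.sq_sqrt hc.le]
  ring

/-- the entries with the vacuum -/
theorem Smat_rho {n : ℕ} (R : Finset (V n)) (δ : V n) (r m : ℕ)
    (hm : ∀ x : V n, E R (rho R δ) (x, 0) = m * ∏ α ∈ pos R δ,
    (Complex.exp (Complex.I * (((inner ℝ) α x : ℝ) : ℂ) / 2) -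
      Complex.exp (-(Complex.I * (((inner ℝ) α x : ℝ) : ℂ) / 2)))) (a : V n) :
    Smat R δ r (rho R δ) a =
      ((m / Real.sqrt (idx R * (r : ℝ) ^ n) *
        ∏ α ∈ pos R δ, (2 * Real.sin (Real.pi * ((inner ℝ) α a / r))) : ℝ) : ℂ) := by
  have hE : ∑ w ∈ Wf R, ((sg w : ℝ) : ℂ) *
      Complex.exp (-(2 * Real.pi * Complex.I * ((((inner ℝ) (w (rho R δ)) a : ℝ) : ℂ) / r))) =
      E R (rho R δ) ((-(2 * Real.pi / r)) • a, 0) := by
    unfold E
    refine Finset.sum_congr rfl fun w _ => ?_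
    congr 2
    unfold cp
    simp only [inner_zero_right, Complex.ofReal_zero, zero_mul, add_zero]
    rw [real_inner_smul_right]
    push_cast
    ring
  unfold Smat
  rw [hE, hm]
  have hfac : ∀ α : V n, Complex.exp (Complex.I * (((inner ℝ) α ((-(2 * Real.pi / r)) • a) : ℝ) : ℂ) / 2) -
      Complex.exp (-(Complex.I * (((inner ℝ) α ((-(2 * Real.pi / r)) • a) : ℝ) : ℂ) / 2)) =
      -Complex.I * ((2 * Real.sin (Real.pi * ((inner ℝ) α a / r)) : ℝ) : ℂ) := by
    intro α
    rw [real_inner_smul_right]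
    obtain ⟨y, hy⟩ : ∃ y : ℝ, y = Real.pi * ((inner ℝ) α a / r) := ⟨_, rfl⟩
    have e1 : Complex.I * ((-(2 * Real.pi / r) * (inner ℝ) α a : ℝ) : ℂ) / 2 =
        -((y : ℂ) * Complex.I) := by
      rw [hy]
      push_cast
      ring
    rw [e1, neg_neg, ← hy, Complex.ofReal_mul, Complex.ofReal_sin, Complex.sin]
    have hI : Complex.I * Complex.I = -1 := Complex.I_mul_I
    have e2 : Complex.exp (-(y : ℂ) * Complex.I) = Complex.exp (-((y : ℂ) * Complex.I)) := by
      congr 1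
      ring
    rw [e2]
    generalize Complex.exp (-((y : ℂ) * Complex.I)) = u
    generalize Complex.exp ((y : ℂ) * Complex.I) = v
    have h3 : -Complex.I * (((2 : ℝ) : ℂ) * ((u - v) * Complex.I / 2)) =
        -(Complex.I * Complex.I) * (u - v) := by
      push_cast
      ring
    rw [h3, hI]
    ring
  rw [Finset.prod_congr rfl fun α _ => hfac α, Finset.prod_mul_distrib, Finset.prod_const]
  rw [← Complex.ofReal_prod]
  have hIN : Complex.I ^ (pos R δ).card * (-Complex.I) ^ (pos R δ).card = 1 := by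
    rw [← mul_pow]
    have : Complex.I * -Complex.I = 1 := by
      rw [mul_neg, Complex.I_mul_I, neg_neg]
    rw [this, one_pow]
  rw [Complex.ofReal_mul, Complex.ofReal_div, Complex.ofReal_natCast]
  calc Complex.I ^ (pos R δ).card / ((Real.sqrt (idx R * (r : ℝ) ^ n) : ℝ) : ℂ) *
      ((m : ℂ) * ((-Complex.I) ^ (pos R δ).card *
        ((∏ α ∈ pos R δ, 2 * Real.sin (Real.pi * ((inner ℝ) α a / r)) : ℝ) : ℂ)))
      = (Complex.I ^ (pos R δ).card * (-Complex.I) ^ (pos R δ).card) *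
        ((m : ℂ) / ((Real.sqrt (idx R * (r : ℝ) ^ n) : ℝ) : ℂ) *
        ((∏ α ∈ pos R δ, 2 * Real.sin (Real.pi * ((inner ℝ) α a / r)) : ℝ) : ℂ)) := by ring
    _ = _ := by rw [hIN, one_mul]

theorem main : S_W → S_lab → S_wdf → S_idx → S_Z := by
  intro hW hlab hwdf hidx n R hR δ hδ p
  obtain ⟨m, hm1, hm⟩ := hwdf n R hR.toIsRS δ hδ
  obtain ⟨-, -, -, -, hneg, -, -, -, -⟩ := hW n R hR.toIsRS
  have hi := hidx n R hR
  have hi0 : (0 : ℝ) < idx R := by exact_mod_cast hi
  have hm0 : (0 : ℝ) < m := by exact_mod_cast hm1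
  refine ⟨((idx R : ℝ) / ((m : ℝ) ^ 4 * 4 ^ R.card)) ^ p, by positivity, fun r hr => ?_⟩
  have hr0 : (0 : ℝ) < r := by exact_mod_cast hr
  obtain ⟨hl1, hl2⟩ := hlab n R hR δ hδ r
  rw [state]
  set c : ℝ := idx R * (r : ℝ) ^ n with hc
  have hc0 : 0 < c := by positivity
  -- the vacuum entries
  set s : V n → ℝ := fun a => m / Real.sqrt c * ∏ α ∈ pos R δ, (2 * Real.sin (Real.pi * ((inner ℝ) α a / r)))
    with hs
  have hs1 : ∀ a, Smat R δ r (rho R δ) a = ((s a : ℝ) : ℂ) := fun a => Smat_rho R δ r m hm a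
  set P : V n → ℝ := fun a => ∏ α ∈ R, |Real.sin (Real.pi * ((inner ℝ) α a / r))| with hP
  have hs2 : ∀ a, (s a) ^ 2 = m ^ 2 / c * (2 ^ R.card * P a) := by
    intro a
    have h1 := prod_even R δ hδ hneg (fun α => 2 * |Real.sin (Real.pi * ((inner ℝ) α a / r))|) (by
      intro α
      have : Real.pi * ((inner ℝ) (-α) a / r) = -(Real.pi * ((inner ℝ) α a / r)) := by
        rw [inner_neg_left]; ring
      simp only [this, Real.sin_neg, abs_neg])
    rw [Finset.prod_mul_distrib, Finset.prod_const] at h1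
    have h2 : (∏ α ∈ pos R δ, (2 * |Real.sin (Real.pi * ((inner ℝ) α a / r))|)) ^ 2 =
        (∏ α ∈ pos R δ, (2 * Real.sin (Real.pi * ((inner ℝ) α a / r)))) ^ 2 := by
      rw [← Finset.prod_pow, ← Finset.prod_pow]
      refine Finset.prod_congr rfl fun α _ => ?_
      rw [mul_pow, mul_pow, sq_abs]
    rw [h2] at h1
    simp only [hs, hP]
    rw [mul_pow, div_pow, Real.sq_sqrt hc0.le, ← h1]
  have hPpos : ∀ a ∈ labels R δ r, 0 < P a := by
    intro a ha
    refine Finset.prod_pos fun α hα => abs_pos.2 ?_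
    obtain ⟨h1, h2⟩ := (hl2 a ha).2 α hα
    rw [abs_lt] at h2
    intro h0
    rw [Real.sin_eq_zero_iff] at h0
    obtain ⟨k, hk⟩ := h0
    have h3 : (inner ℝ) α a = k * r := by
      have : (k : ℝ) = (inner ℝ) α a / r := mul_right_cancel₀ Real.pi_ne_zero (by rw [hk]; ring)
      rw [this]; field_simp
    have h4 : (k : ℝ) < 1 := by
      by_contra hcon
      push Not at hcon
      nlinarith
    have h5 : (-1 : ℝ) < k := by
      by_contra hcon
      push Not at hcon
      nlinarith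
    have h6 : k < 1 := by exact_mod_cast h4
    have h7 : -1 < k := by exact_mod_cast h5
    have h8 : k = 0 := by omega
    rw [h8] at h3
    apply h1
    rw [h3]; simp
  have key : ∀ a ∈ labels R δ r, ∀ b ∈ labels R δ r,
      Smat R δ r (rho R δ) a ^ (-(2 * (p : ℤ))) * Smat R δ r (rho R δ) b ^ (-(2 * (p : ℤ))) *
        ((‖Smat R δ r a b‖ ^ 2 : ℝ) : ℂ) ^ p =
      ((((idx R : ℝ) / ((m : ℝ) ^ 4 * 4 ^ R.card)) ^ p * (r : ℝ) ^ (p * (n + R.card)) *
        G R r a b ^ p : ℝ) : ℂ) := by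
    intro a ha b hb
    rw [hs1, hs1, Smat_norm R δ r hr hi]
    have e1 : ∀ x : ℝ, ((x : ℝ) : ℂ) ^ (-(2 * (p : ℤ))) = ((((x ^ 2)⁻¹) ^ p : ℝ) : ℂ) := by
      intro x
      push_cast
      rw [zpow_neg, zpow_mul, inv_pow]
      norm_cast
    rw [e1, e1, hs2, hs2]
    rw [← Complex.ofReal_pow, ← Complex.ofReal_mul, ← Complex.ofReal_mul]
    congr 1
    rw [← mul_pow, ← mul_pow, pow_mul', ← mul_pow, ← mul_pow]
    congr 1
    unfold G
    have hPa := hPpos a ha
    have hPb := hPpos b hb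
    rw [Finset.prod_mul_distrib]
    change _ = _ * _ * (_ / (_ * (P a * P b)))
    rw [← hc]
    have h4 : (4 : ℝ) ^ R.card = 2 ^ R.card * 2 ^ R.card := by
      rw [← mul_pow]; norm_num
    rw [h4, pow_add]
    have hcc : c / c = 1 := div_self hc0.ne'
    have hrn : (0 : ℝ) < (r : ℝ) ^ n := by positivity
    have : (idx R : ℝ) = c / (r : ℝ) ^ n := by rw [hc]; field_simp
    rw [this]
    field_simp
  rw [Finset.sum_congr rfl fun a ha => Finset.sum_congr rfl fun b hb => key a ha b hb]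
  simp only [← Complex.ofReal_sum]
  rw [Complex.norm_real, Real.norm_of_nonneg]
  · rw [Finset.mul_sum]
    refine Finset.sum_congr rfl fun a _ => ?_
    rw [Finset.mul_sum]
  · refine Finset.sum_nonneg fun a _ => Finset.sum_nonneg fun b _ => ?_
    have : 0 ≤ G R r a b := by
      unfold G
      positivity
    positivity

end H391.AE.P_Z
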