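import Mathlib
import Pool.Agent.H391.AE.S

/-! AE-ac (helper84): compactness -/

set_option autoImplicit false

open Finset
open scoped InnerProductSpace Topology

namespace H391.AE.P_ac

theorem nd_lip (x y : ℝ) : nd x ≤ nd y + |x - y| := by
  unfold nd
  calc |x - round x| ≤ |x - round y| := round_le x (round y)
    _ = |(y - round y) + (x - y)| := by ring_nf
    _ ≤ _ := abs_add_le _ _

theorem nd_pos {n : ℕ} {R : Finset (V n)} {v α : V n} (hα : α ∈ R) (h : α ∉ Rint R v) :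
    0 < nd ((inner ℝ) α v) := by
  classical
  unfold nd
  rw [abs_pos]
  intro h0
  apply h
  unfold Rint
  refine mem_filter.mpr ⟨hα, round ((inner ℝ) α v), ?_⟩
  rw [real_inner_comm]
  linarith

theorem compact {n : ℕ} {R : Finset (V n)} (hR : Submodule.span ℝ (R : Set (V n)) = ⊤) :
    IsCompact {x : V n | ∀ α ∈ R, |(inner ℝ) α x| ≤ 1} := by
  let T : V n →ₗ[ℝ] (R → ℝ) :=
    LinearMap.pi (fun α : R => ((innerSL ℝ (α : V n)) : V n →ₗ[ℝ] ℝ))
  have hTa : ∀ (x : V n) (α : R), T x α = (inner ℝ) (α : V n) x := fun x α => rfl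
  have hker : LinearMap.ker T = ⊥ := by
    rw [LinearMap.ker_eq_bot']
    intro x hx
    have h1 : ∀ y ∈ Submodule.span ℝ (R : Set (V n)), (inner ℝ) y x = 0 := by
      intro y hy
      induction hy using Submodule.span_induction with
      | mem y hy =>
        have h2 := congrFun hx ⟨y, hy⟩
        rw [hTa] at h2
        exact h2
      | zero => exact inner_zero_left x
      | add a b _ _ ha hb => rw [inner_add_left, ha, hb, add_zero]
      | smul c a _ ha => rw [real_inner_smul_left, ha, mul_zero]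
    have h2 := h1 x (by rw [hR]; exact Submodule.mem_top)
    exact inner_self_eq_zero.mp h2
  have h1 := (LinearMap.isClosedEmbedding_of_injective (f := T) hker).isCompact_preimage
    (isCompact_univ_pi (fun _ : R => isCompact_Icc (a := (-1 : ℝ)) (b := 1)))
  have h2 : {x : V n | ∀ α ∈ R, |(inner ℝ) α x| ≤ 1} =
      T ⁻¹' (Set.univ.pi (fun _ : R => Set.Icc (-1 : ℝ) 1)) := by
    ext x
    simp only [Set.mem_ofPred_eq, Set.mem_preimage, Set.mem_univ_pi, Set.mem_Icc]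
    constructor
    · intro h α
      rw [hTa]
      exact abs_le.mp (h α α.2)
    · intro h α hα
      have h3 := h ⟨α, hα⟩
      rw [hTa] at h3
      exact abs_le.mpr h3
  rw [h2]
  exact h1

theorem loc {n : ℕ} (R : Finset (V n)) (v : V n) : ∃ ε : ℝ, 0 < ε ∧
    ∀ x : V n, (∀ α ∈ R, |(inner ℝ) α (x - v)| < ε) → (∀ α ∈ R, |(inner ℝ) α (x - v)| ≤ 1 / 2) ∧
      ∀ α ∈ R, α ∉ Rint R v → ε ≤ nd ((inner ℝ) α x) := by
  classical
  have h1 : ∃ ε : ℝ, 0 < ε ∧ ε ≤ 1 / 2 ∧ ∀ α ∈ R.filter (fun α => α ∉ Rint R v),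
      2 * ε ≤ nd ((inner ℝ) α v) := by
    rcases (R.filter (fun α => α ∉ Rint R v)).eq_empty_or_nonempty with h | h
    · refine ⟨1 / 2, by norm_num, le_rfl, ?_⟩
      rw [h]
      simp
    · obtain ⟨β, hβ, hβ2⟩ := exists_min_image _ (fun α => nd ((inner ℝ) α v)) h
      have hβ3 := mem_filter.mp hβ
      have hp := nd_pos hβ3.1 hβ3.2
      refine ⟨min (1 / 2) (nd ((inner ℝ) β v) / 2), by positivity, min_le_left _ _, fun α hα => ?_⟩
      have h3 := hβ2 α hα
      have h4 := min_le_right (1 / 2) (nd ((inner ℝ) β v) / 2)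
      linarith
  obtain ⟨ε, hε, hε2, hε3⟩ := h1
  refine ⟨ε, hε, fun x hx => ⟨fun α hα => (hx α hα).le.trans hε2, fun α hα hα2 => ?_⟩⟩
  have h2 := hε3 α (mem_filter.mpr ⟨hα, hα2⟩)
  have h3 := nd_lip ((inner ℝ) α v) ((inner ℝ) α x)
  have h4 := hx α hα
  rw [inner_sub_right, abs_sub_comm] at h4
  linarith

theorem main : S_ac := by
  intro n R hR
  have hK := compact hR.span_top
  have key : ∃ ε : ℝ, 0 < ε ∧ ∀ x ∈ {x : V n | ∀ α ∈ R, |(inner ℝ) α x| ≤ 1},
      ∃ v : V n, (∀ α ∈ R, |(inner ℝ) α (x - v)| ≤ 1 / 2) ∧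
        ∀ α ∈ R, α ∉ Rint R v → ε ≤ nd ((inner ℝ) α x) := by
    refine IsCompact.induction_on (p := fun S => ∃ ε : ℝ, 0 < ε ∧ ∀ x ∈ S,
      ∃ v : V n, (∀ α ∈ R, |(inner ℝ) α (x - v)| ≤ 1 / 2) ∧
        ∀ α ∈ R, α ∉ Rint R v → ε ≤ nd ((inner ℝ) α x)) hK ?_ ?_ ?_ ?_
    · exact ⟨1, one_pos, fun x hx => absurd hx (Set.notMem_empty x)⟩
    · rintro s t hst ⟨ε, hε, h⟩
      exact ⟨ε, hε, fun x hx => h x (hst hx)⟩
    · rintro s t ⟨ε, hε, h⟩ ⟨ε', hε', h'⟩
      refine ⟨min ε ε', lt_min hε hε', fun x hx => ?_⟩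
      rcases hx with hx | hx
      · obtain ⟨v, hv, hv2⟩ := h x hx
        exact ⟨v, hv, fun α hα hα2 => (min_le_left _ _).trans (hv2 α hα hα2)⟩
      · obtain ⟨v, hv, hv2⟩ := h' x hx
        exact ⟨v, hv, fun α hα hα2 => (min_le_right _ _).trans (hv2 α hα hα2)⟩
    · intro v hv
      obtain ⟨ε, hε, h⟩ := loc R v
      refine ⟨{x | ∀ α ∈ R, |(inner ℝ) α (x - v)| < ε}, mem_nhdsWithin_of_mem_nhds ?_, ε, hε,
        fun x hx => ⟨v, h x hx⟩⟩
      change ∀ᶠ x in 𝓝 v, ∀ α ∈ R, |(inner ℝ) α (x - v)| < ε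
      rw [Filter.eventually_all_finset]
      intro α hα
      have hc : Continuous fun x : V n => |(inner ℝ) α (x - v)| := by fun_prop
      have h0 : |(inner ℝ) α (v - v)| < ε := by
        rw [sub_self, inner_zero_right, abs_zero]
        exact hε
      exact hc.continuousAt.eventually_lt continuousAt_const h0
  exact key

end H391.AE.P_ac
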