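import Mathlib
import Pool.Agent.H391.AE.S

set_option autoImplicit false

open Finset
open scoped InnerProductSpace

namespace H391.AE.P_alt

lemma sg_mul {n : ℕ} (w u : V n ≃ₗᵢ[ℝ] V n) : sg (w * u) = sg w * sg u := by
  unfold sg
  rw [← LinearMap.det_comp]
  rfl

lemma cp_sub {n : ℕ} (x y : V n) (c : ℝ) (z : V n × V n) :
    cp (x - c • y) z = cp x z - (c : ℂ) * cp y z := by
  unfold cp
  rw [inner_sub_left, inner_sub_left, inner_smul_left, inner_smul_left]
  simp only [conj_trivial]
  push_cast
  ring

theorem main : S_W → S_alt := by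
  intro hW n R hR a z α hα
  obtain ⟨h1, -, -, h4, -, -, -, h8, -⟩ := hW n R hR
  have hα0 : α ≠ 0 := fun h => hR.ne0 (h ▸ hα)
  have hs : refl α ∈ W R := Subgroup.subset_closure ⟨α, hα, rfl⟩
  have hneg : ∀ x : ℂ, x = -x → x = 0 := by
    intro x h
    have h2 : (2 : ℂ) * x = 0 := by linear_combination h
    exact (mul_eq_zero.1 h2).resolve_left two_ne_zero
  constructor
  · intro h
    apply hneg
    have hfix : refl α a = a := by
      rw [h8 α hα0 a, h]
      simp
    have key : ∑ w ∈ Wf R, ((sg (w * refl α) : ℝ) : ℂ) *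
        Complex.exp (Complex.I * cp ((w * refl α) a) z) = E R a z := by
      unfold E
      refine Finset.sum_bij (fun w _ => w * refl α) ?_ ?_ ?_ ?_
      · intro w hw
        rw [h1] at hw ⊢
        exact (W R).mul_mem hw hs
      · intro w _ u _ hwu
        exact mul_right_cancel hwu
      · intro u hu
        refine ⟨u * (refl α)⁻¹, ?_, ?_⟩
        · rw [h1] at hu ⊢
          exact (W R).mul_mem hu ((W R).inv_mem hs)
        · rw [inv_mul_cancel_right]
      · intro w _
        rfl
    rw [← key]
    unfold E at *
    conv_lhs => rw [key]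
    rw [← Finset.sum_neg_distrib]
    refine Finset.sum_congr rfl fun w _ => ?_
    rw [sg_mul, h4 α hα]
    have hx : (w * refl α) a = w a := by
      show w (refl α a) = w a
      rw [hfix]
    rw [hx]
    push_cast
    ring
  · intro h
    apply hneg
    have key : ∑ w ∈ Wf R, ((sg (refl α * w) : ℝ) : ℂ) *
        Complex.exp (Complex.I * cp ((refl α * w) a) z) = E R a z := by
      unfold E
      refine Finset.sum_bij (fun w _ => refl α * w) ?_ ?_ ?_ ?_
      · intro w hw
        rw [h1] at hw ⊢
        exact (W R).mul_mem hs hw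
      · intro w _ u _ hwu
        exact mul_left_cancel hwu
      · intro u hu
        refine ⟨(refl α)⁻¹ * u, ?_, ?_⟩
        · rw [h1] at hu ⊢
          exact (W R).mul_mem ((W R).inv_mem hs) hu
        · rw [mul_inv_cancel_left]
      · intro w _
        rfl
    rw [← key]
    unfold E at *
    conv_lhs => rw [key]
    rw [← Finset.sum_neg_distrib]
    refine Finset.sum_congr rfl fun w _ => ?_
    rw [sg_mul, h4 α hα]
    have hx : cp ((refl α * w) a) z = cp (w a) z := by
      show cp (refl α (w a)) z = cp (w a) z
      rw [h8 α hα0 (w a), cp_sub, h, mul_zero, sub_zero]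
    rw [hx]
    push_cast
    ring

end H391.AE.P_alt
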