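import Mathlib
import Pool.Agent.H391.AE.S

set_option autoImplicit false

namespace H391.AE.P_ca

/-- a zero can be divided out at each point of a finite set -/
theorem fac (T : Finset ℂ) : ∀ g : ℂ → ℂ, Differentiable ℂ g → (∀ t ∈ T, g t = 0) →
    ∃ h : ℂ → ℂ, Differentiable ℂ h ∧ ∀ ζ, g ζ = (∏ t ∈ T, (ζ - t)) * h ζ := by
  classical
  induction T using Finset.induction_on with
  | empty =>
    intro g hg _
    exact ⟨g, hg, fun ζ => by simp⟩
  | insert a T ha ih =>
    intro g hg h0
    have hga : g a = 0 := h0 a (Finset.mem_insert_self a T)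
    have hd : Differentiable ℂ (dslope g a) := by
      rw [← differentiableOn_univ, Complex.differentiableOn_dslope Filter.univ_mem,
        differentiableOn_univ]
      exact hg
    have hs : ∀ ζ, g ζ = (ζ - a) * dslope g a ζ := by
      intro ζ
      have := sub_smul_dslope g a ζ
      rw [smul_eq_mul, hga, sub_zero] at this
      exact this.symm
    obtain ⟨h, hh, he⟩ := ih (dslope g a) hd (by
      intro t ht
      have h1 := hs t
      rw [h0 t (Finset.mem_insert_of_mem ht)] at h1
      have h2 : t - a ≠ 0 := by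
        intro h3
        apply ha
        rw [← sub_eq_zero.1 h3]
        exact ht
      exact (mul_eq_zero.1 h1.symm).resolve_left h2)
    refine ⟨h, hh, fun ζ => ?_⟩
    rw [hs, he, Finset.prod_insert ha, mul_assoc]

theorem main : S_ca := by
  intro g hg T hT ρ hρ hne B hB hb
  obtain ⟨h, hh, he⟩ := fac T g hg hT
  have h1 : ∀ z ∈ frontier (Metric.ball (0 : ℂ) ρ), ‖h z‖ ≤ B := by
    intro z hz
    rw [frontier_ball (0 : ℂ) hρ.ne', mem_sphere_zero_iff_norm] at hz
    have h2 := hb z hz
    rw [he, norm_mul, norm_prod] at h2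
    have h3 : 0 < ∏ t ∈ T, ‖z - t‖ := by
      refine Finset.prod_pos fun t ht => ?_
      rw [norm_pos_iff, sub_ne_zero]
      intro h4
      apply hne t ht
      rw [← h4]
      exact hz
    have h5 : (∏ t ∈ T, ‖z - t‖) * ‖h z‖ ≤ (∏ t ∈ T, ‖z - t‖) * B := by
      rw [mul_comm _ B]
      exact h2
    exact le_of_mul_le_mul_left h5 h3
  have h2 : ‖h 0‖ ≤ B :=
    Complex.norm_le_of_forall_mem_frontier_norm_le Metric.isBounded_ball hh.diffContOnCl h1
      (subset_closure (Metric.mem_ball_self hρ))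
  rw [he 0, norm_mul, norm_prod, mul_comm B]
  have h3 : ∏ t ∈ T, ‖(0 : ℂ) - t‖ = ∏ t ∈ T, ‖t‖ :=
    Finset.prod_congr rfl fun t _ => by rw [zero_sub, norm_neg]
  rw [h3]
  exact mul_le_mul_of_nonneg_left h2 (Finset.prod_nonneg fun t _ => norm_nonneg _)

end H391.AE.P_ca
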