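import Mathlib
import Pool.Agent.H391.AE.S

set_option autoImplicit false

open Finset
open scoped InnerProductSpace

namespace H391.AE.P_ch

theorem main : S_W → S_ch := by
  intro hW n R hR δ hδ x hx
  obtain ⟨hmem, hperm, -, -, -, -, -, hrefl, -⟩ := hW n R hR
  have hne : (Wf R).Nonempty := ⟨1, (hmem 1).2 (one_mem _)⟩
  obtain ⟨w, hw, hmax⟩ := Finset.exists_max_image (Wf R) (fun w => (inner ℝ) (w x) δ) hne
  refine ⟨w, hw, fun α hα => ?_⟩
  unfold pos at hα
  rw [mem_filter] at hα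
  obtain ⟨hαR, hδα⟩ := hα
  have hα0 : α ≠ 0 := fun h => hR.ne0 (h ▸ hαR)
  have hwinv : w⁻¹ ∈ Wf R := (hmem _).2 (inv_mem ((hmem w).1 hw))
  have h1 : (inner ℝ) α (w x) ≠ 0 := by
    intro h0
    have h2 := hx (w⁻¹ α) (hperm _ hwinv α hαR)
    apply h2
    have h3 : w (w⁻¹ α) = α := by
      have h4 : (w * w⁻¹) α = α := by rw [mul_inv_cancel]; rfl
      exact h4
    rw [real_inner_comm]
    have h5 := w.inner_map_map (w⁻¹ α) x
    rw [h3] at h5
    rw [← h5]
    exact h0
  by_contra hneg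
  have hlt : (inner ℝ) α (w x) < 0 := lt_of_le_of_ne (not_lt.1 hneg) h1
  have hrw : refl α * w ∈ Wf R := by
    refine (hmem _).2 (mul_mem ?_ ((hmem w).1 hw))
    exact Subgroup.subset_closure ⟨α, hαR, rfl⟩
  have h2 := hmax _ hrw
  have h3 : (refl α * w) x = refl α (w x) := rfl
  have hαα : 0 < (inner ℝ) α α := real_inner_self_pos.2 hα0
  simp only [h3, hrefl α hα0, inner_sub_left, real_inner_smul_left] at h2
  rw [real_inner_comm] at hδα
  have h4 : 2 * (inner ℝ) α (w x) / (inner ℝ) α α * (inner ℝ) α δ < 0 := by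
    apply mul_neg_of_neg_of_pos _ hδα
    exact div_neg_of_neg_of_pos (by linarith) hαα
  linarith

end H391.AE.P_ch
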