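import Mathlib
import Pool.Agent.H391.AE.S

set_option autoImplicit false

open Finset
open scoped InnerProductSpace

namespace H391.AE.P_cl

theorem cp_shift {n : ℕ} (β : V n) (z : V n × V n) (v : V n) (ζ : ℂ) :
    cp β (shift z v ζ) = cp β z + ζ * (((inner ℝ) β v : ℝ) : ℂ) := by
  unfold cp shift
  simp only [inner_add_right, inner_smul_right]
  apply Complex.ext
  · simp
  · simp

theorem exists_rho {ι : Type} (R : Finset ι) (a b : ι → ℝ) (ha : ∀ β ∈ R, 1 ≤ a β) {m : ℝ}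
    (hm : 0 < m) : ∃ ρ, m ≤ ρ ∧ ρ ≤ 2 * m ∧
      ∀ β ∈ R, 1 / (2 * ((R.card : ℝ) + 1)) * m ≤ |ρ * a β - b β| := by
  classical
  by_contra hcon
  push Not at hcon
  obtain ⟨ρ, hρ⟩ : ∃ ρ : ℕ → ℝ, ∀ i, ρ i = m * (1 + i / ((R.card : ℝ) + 1)) := ⟨_, fun i => rfl⟩
  have hN : (0 : ℝ) < (R.card : ℝ) + 1 := by positivity
  have h1 : ∀ i ∈ Finset.range (R.card + 1), ∃ β ∈ R,
      |ρ i * a β - b β| < 1 / (2 * ((R.card : ℝ) + 1)) * m := by
    intro i hi
    have hi' : (i : ℝ) ≤ R.card := by exact_mod_cast Nat.lt_succ_iff.1 (Finset.mem_range.1 hi)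
    have h2 : (i : ℝ) / ((R.card : ℝ) + 1) ≤ 1 := by
      rw [div_le_one hN]
      linarith
    have h3 : 0 ≤ (i : ℝ) / ((R.card : ℝ) + 1) := by positivity
    exact hcon (ρ i) (by rw [hρ]; nlinarith) (by rw [hρ]; nlinarith)
  have : Nonempty ι := ⟨(h1 0 (by simp)).choose⟩
  choose! f hf hf2 using h1
  obtain ⟨i, hi, j, hj, hij, hfij⟩ := Finset.exists_ne_map_eq_of_card_lt_of_maps_to
    (s := Finset.range (R.card + 1)) (t := R) (f := f) (by rw [Finset.card_range]; omega)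
    (fun i hi => hf i hi)
  wlog hlt : i < j generalizing i j
  · exact this j hj i hi hij.symm hfij.symm (lt_of_le_of_ne (not_lt.1 hlt) hij.symm)
  have e1 := hf2 i hi
  have e2 := hf2 j hj
  rw [hfij] at e1
  have e3 := ha (f j) (hf j hj)
  have e4 : (i : ℝ) + 1 ≤ j := by exact_mod_cast hlt
  rw [abs_lt] at e1 e2
  have e5 : m / ((R.card : ℝ) + 1) ≤ ρ j - ρ i := by
    have e : ρ j - ρ i = m * ((j : ℝ) - i) / ((R.card : ℝ) + 1) := by
      rw [hρ, hρ]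
      ring
    rw [e, div_le_div_iff_of_pos_right hN]
    nlinarith
  have e6 : 1 / (2 * ((R.card : ℝ) + 1)) * m = m / ((R.card : ℝ) + 1) / 2 := by field_simp
  have e7 : ρ j - ρ i ≤ (ρ j - ρ i) * a (f j) := by
    have e : 0 ≤ ρ j - ρ i := le_trans (by positivity) e5
    nlinarith
  rw [e6] at e1 e2
  nlinarith [e1.1, e2.2]

theorem main : S_W → S_alt → S_gv → S_ca → S_cl := by
  classical
  intro hW halt hgv hca n R hR
  obtain ⟨-, -, -, -, hneg, -⟩ := hW n R hR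
  obtain ⟨C, hC, hv⟩ := hgv n R hR
  have hc : (0 : ℝ) < 1 / (2 * ((R.card : ℝ) + 1)) := by positivity
  refine ⟨1 / (2 * ((R.card : ℝ) + 1)), C, hc, hC, ?_⟩
  intro p z m hz hm
  obtain ⟨v, hvC, hv1, hv2⟩ := hv z hz
  obtain ⟨ρ, hρ1, hρ2, hρ3⟩ := exists_rho R (fun β => |(inner ℝ) β v|) (fun β => ‖cp β z‖) hv1 hm
  have hρ0 : 0 < ρ := lt_of_lt_of_le hm hρ1
  have hv0 : ∀ β ∈ R, ((inner ℝ) β v : ℝ) ≠ 0 := fun β hβ h0 => by
    have h := hv1 β hβ
    rw [h0, abs_zero] at h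
    linarith
  have hbd : ∀ ζ : ℂ, ‖ζ‖ = ρ → ∀ β ∈ R,
      1 / (2 * ((R.card : ℝ) + 1)) * m ≤ ‖cp β (shift z v ζ)‖ := by
    intro ζ hζ β hβ
    refine (hρ3 β hβ).trans ?_
    rw [cp_shift]
    have h1 : ρ * |(inner ℝ) β v| = ‖-(ζ * (((inner ℝ) β v : ℝ) : ℂ))‖ := by
      rw [norm_neg, norm_mul, hζ, Complex.norm_real, Real.norm_eq_abs]
    rw [h1, abs_sub_comm]
    refine (abs_norm_sub_norm_le _ _).trans ?_
    rw [sub_neg_eq_add]
  refine ⟨v, ρ, hvC, hρ1, hρ2, hbd, ?_⟩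
  intro B hB hB2
  let t : V n → ℂ := fun β => -(cp β z / (((inner ℝ) β v : ℝ) : ℂ))
  have hvc : ∀ β ∈ R, (((inner ℝ) β v : ℝ) : ℂ) ≠ 0 := fun β hβ => by exact_mod_cast hv0 β hβ
  have hcp : ∀ ζ : ℂ, ∀ β ∈ R, cp β (shift z v ζ) = (((inner ℝ) β v : ℝ) : ℂ) * (ζ - t β) := by
    intro ζ β hβ
    rw [cp_shift]
    change cp β z + ζ * (((inner ℝ) β v : ℝ) : ℂ) = (((inner ℝ) β v : ℝ) : ℂ) *
      (ζ - -(cp β z / (((inner ℝ) β v : ℝ) : ℂ)))
    have := hvc β hβ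
    field_simp
    ring
  -- the fibers of t
  have hfib : ∀ β ∈ R, (R.filter fun γ => t γ = t β).card = 2 := by
    intro β hβ
    have hβ0 : β ≠ 0 := fun h0 => hR.ne0 (h0 ▸ hβ)
    have h1 : (R.filter fun γ => t γ = t β) = {β, -β} := by
      ext γ
      rw [Finset.mem_filter, Finset.mem_insert, Finset.mem_singleton]
      constructor
      · rintro ⟨hγ, ht⟩
        by_contra hcon
        push Not at hcon
        apply hv2 β hβ γ hγ hcon.1 hcon.2
        change -(cp γ z / (((inner ℝ) γ v : ℝ) : ℂ)) = -(cp β z / (((inner ℝ) β v : ℝ) : ℂ)) at ht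
        rw [neg_inj, div_eq_div_iff (hvc γ hγ) (hvc β hβ)] at ht
        exact ht.symm
      · rintro (rfl | rfl)
        · exact ⟨hβ, rfl⟩
        · refine ⟨hneg β hβ, ?_⟩
          change -(cp (-β) z / (((inner ℝ) (-β) v : ℝ) : ℂ)) = -(cp β z / (((inner ℝ) β v : ℝ) : ℂ))
          have e1 : cp (-β) z = -cp β z := by
            unfold cp
            simp only [inner_neg_left]
            push_cast
            ring
          rw [e1, inner_neg_left, Complex.ofReal_neg, neg_div_neg_eq]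
    rw [h1]
    apply Finset.card_pair
    intro h
    apply hβ0
    have h2 : (2 : ℝ) • β = 0 := by
      rw [two_smul]
      nth_rewrite 1 [h]
      exact neg_add_cancel β
    exact (smul_eq_zero.1 h2).resolve_left two_ne_zero
  have hprod : ∀ ζ : ℂ, ∏ β ∈ R, ‖cp β (shift z v ζ)‖ =
      (∏ β ∈ R, |(inner ℝ) β v|) * (∏ s ∈ R.image t, ‖ζ - s‖) ^ 2 := by
    intro ζ
    have h1 : ∏ β ∈ R, ‖cp β (shift z v ζ)‖ = ∏ β ∈ R, (|(inner ℝ) β v| * ‖ζ - t β‖) :=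
      Finset.prod_congr rfl fun β hβ => by
        rw [hcp ζ β hβ, norm_mul, Complex.norm_real, Real.norm_eq_abs]
    rw [h1, Finset.prod_mul_distrib, Finset.prod_comp (fun s => ‖ζ - s‖) t, ← Finset.prod_pow]
    congr 1
    refine Finset.prod_congr rfl fun s hs => ?_
    obtain ⟨β, hβ, rfl⟩ := Finset.mem_image.1 hs
    rw [hfib β hβ]
  have hP : 0 ≤ ∏ β ∈ R, |(inner ℝ) β v| := Finset.prod_nonneg fun β _ => abs_nonneg _
  have hg0 : ∀ s ∈ R.image t, E R p (shift z v s) = 0 := by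
    intro s hs
    obtain ⟨β, hβ, rfl⟩ := Finset.mem_image.1 hs
    exact (halt n R hR p _ β hβ).2 (by rw [hcp _ β hβ, sub_self, mul_zero])
  have hdiff : Differentiable ℂ (fun ζ => E R p (shift z v ζ)) := by
    unfold E
    simp only [cp_shift]
    fun_prop
  have hsρ : ∀ s ∈ R.image t, ‖s‖ ≠ ρ := by
    intro s hs hsr
    obtain ⟨β, hβ, rfl⟩ := Finset.mem_image.1 hs
    have h1 := hbd _ hsr β hβ
    rw [hcp _ β hβ, sub_self, mul_zero, norm_zero] at h1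
    have h2 := mul_pos hc hm
    linarith
  have key := hca _ hdiff (R.image t) hg0 ρ hρ0 hsρ (Real.sqrt (B * ∏ β ∈ R, |(inner ℝ) β v|))
    (Real.sqrt_nonneg _) (fun ζ hζ => by
      have h1 := hB2 ζ hζ
      rw [hprod] at h1
      have h2 : 0 ≤ Real.sqrt (B * ∏ β ∈ R, |(inner ℝ) β v|) * ∏ s ∈ R.image t, ‖ζ - s‖ :=
        mul_nonneg (Real.sqrt_nonneg _) (Finset.prod_nonneg fun _ _ => norm_nonneg _)
      refine le_of_sq_le_sq ?_ h2
      rw [mul_pow, Real.sq_sqrt (mul_nonneg hB hP)]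
      linarith)
  have hz0 : shift z v 0 = z := by
    unfold shift
    simp
  have h3 := hprod 0
  rw [hz0] at h3
  simp only [hz0] at key
  rw [h3]
  have h4 : ∏ s ∈ R.image t, ‖(0 : ℂ) - s‖ = ∏ s ∈ R.image t, ‖s‖ :=
    Finset.prod_congr rfl fun s _ => by rw [zero_sub, norm_neg]
  rw [h4]
  have h5 := pow_le_pow_left₀ (norm_nonneg _) key 2
  rw [mul_pow, Real.sq_sqrt (mul_nonneg hB hP)] at h5
  linarith

end H391.AE.P_cl
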