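import Mathlib
import Pool.Agent.H391.AE.S

set_option autoImplicit false

open Finset
open scoped InnerProductSpace

namespace H391.AE.P_cl2

/-- the number of integers in an interval of length `2 t`, `t ≥ 1` -/
theorem int_count (x t : ℝ) (ht : 1 ≤ t) :
    t ≤ ((Finset.Icc ⌈x - t⌉ ⌊x + t⌋).card : ℝ) := by
  rw [Int.card_Icc]
  have h1 : x + t < ⌊x + t⌋ + 1 := Int.lt_floor_add_one _
  have h2 : (⌈x - t⌉ : ℝ) < x - t + 1 := Int.ceil_lt_add_one _
  have h3 : ((⌊x + t⌋ + 1 - ⌈x - t⌉ : ℤ) : ℝ) ≤ ((⌊x + t⌋ + 1 - ⌈x - t⌉).toNat : ℝ) := by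
    exact_mod_cast Int.self_le_toNat _
  push_cast at h3
  linarith

theorem main : S_cl2 := by
  classical
  intro n R hR a₀ η hη
  obtain ⟨B, hBR, hBs, hBl⟩ := exists_linearIndependent ℝ (R : Set (V n))
  have hBfin : B.Finite := R.finite_toSet.subset hBR
  have : Fintype B := hBfin.fintype
  have hspan : ⊤ ≤ Submodule.span ℝ (Set.range (fun x : B => (x : V n))) := by
    rw [Subtype.range_coe, hBs, hR.span_top]
  let b : Module.Basis B ℝ (V n) := Module.Basis.mk hBl hspan
  have hcard : Fintype.card B = n := by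
    rw [← Module.finrank_eq_card_basis b, finrank_euclideanSpace_fin]
  have hbv : ∀ i : B, b i = (i : V n) := fun i => by simp [b]
  obtain ⟨S, hS⟩ : ∃ S, S = ∑ i : B, ‖b i‖ := ⟨_, rfl⟩
  have hS0 : 0 ≤ S := by
    rw [hS]
    exact Finset.sum_nonneg fun i _ => norm_nonneg _
  obtain ⟨e, he⟩ : ∃ e, e = η / (S + 1) := ⟨_, rfl⟩
  have he0 : 0 < e := by
    rw [he]
    positivity
  have heS : e * S ≤ η := by
    rw [he, div_mul_eq_mul_div, div_le_iff₀ (by positivity)]
    nlinarith
  refine ⟨e ^ n, max 1 (1 / e), by positivity, le_max_left _ _, fun X hX => ?_⟩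
  have hX1 : 1 ≤ X := (le_max_left _ _).trans hX
  have hX2 : 1 ≤ e * X := by
    have h1 : 1 / e ≤ X := (le_max_right _ _).trans hX
    rw [div_le_iff₀ he0] at h1
    linarith
  let P : Finset (B → ℤ) := Fintype.piFinset fun i =>
    Finset.Icc ⌈X * b.repr a₀ i - e * X⌉ ⌊X * b.repr a₀ i + e * X⌋
  let f : (B → ℤ) → V n := fun m => ∑ i, m i • b i
  have hfr : ∀ m i, b.repr (f m) i = (m i : ℝ) := by
    intro m i
    have h1 : f m = ∑ j, (m j : ℝ) • b j := by
      simp only [f]
      refine Finset.sum_congr rfl fun j _ => ?_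
      exact (Int.cast_smul_eq_zsmul ℝ (m j) (b j)).symm
    rw [h1, b.repr_sum_self]
  have hinj : Function.Injective f := by
    intro m m' h
    funext i
    have h1 := hfr m i
    rw [h, hfr m' i] at h1
    exact_mod_cast h1.symm
  refine ⟨P.image f, ?_, ?_⟩
  · intro a ha
    obtain ⟨m, hm, rfl⟩ := Finset.mem_image.mp ha
    rw [Fintype.mem_piFinset] at hm
    constructor
    · have h1 : f m ∈ wtLattice R := by
        refine AddSubgroup.sum_mem _ fun i _ => AddSubgroup.zsmul_mem _ ?_ _
        rw [hbv]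
        intro α hα
        exact hR.int α hα _ (hBR i.2)
      exact h1
    · have h1 : f m - X • a₀ = ∑ i, ((m i : ℝ) - X * b.repr a₀ i) • b i := by
        have h2 : X • a₀ = ∑ i, (X * b.repr a₀ i) • b i := by
          conv_lhs => rw [← b.sum_repr a₀]
          rw [Finset.smul_sum]
          exact Finset.sum_congr rfl fun i _ => by rw [smul_smul]
        rw [h2, ← Finset.sum_sub_distrib]
        refine Finset.sum_congr rfl fun i _ => ?_
        rw [sub_smul, Int.cast_smul_eq_zsmul]
      rw [h1]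
      calc _ ≤ ∑ i, ‖((m i : ℝ) - X * b.repr a₀ i) • b i‖ := norm_sum_le _ _
        _ ≤ ∑ i, e * X * ‖b i‖ := by
          refine Finset.sum_le_sum fun i _ => ?_
          rw [norm_smul, Real.norm_eq_abs]
          have h3 := Finset.mem_Icc.mp (hm i)
          have h4 : X * b.repr a₀ i - e * X ≤ m i := Int.ceil_le.mp h3.1
          have h5 : (m i : ℝ) ≤ X * b.repr a₀ i + e * X := Int.le_floor.mp h3.2
          have h6 : |(m i : ℝ) - X * b.repr a₀ i| ≤ e * X := by
            rw [abs_le]
            constructor <;> linarith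
          gcongr
        _ = e * S * X := by
          rw [← Finset.mul_sum, hS]
          ring
        _ ≤ η * X := by
          gcongr
  · rw [Finset.card_image_of_injective _ hinj, Fintype.card_piFinset, Nat.cast_prod, ← mul_pow]
    have h7 : (e * X) ^ n = ∏ _i : B, e * X := by
      rw [Finset.prod_const, Finset.card_univ, hcard]
    rw [h7]
    exact Finset.prod_le_prod (fun i _ => by positivity) fun i _ => int_count _ _ hX2

end H391.AE.P_cl2
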