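import Mathlib
import Pool.Agent.H391.AE.S

/-!
Counting labels close to a special point.
-/

set_option autoImplicit false

open Finset
open scoped InnerProductSpace

namespace H391.AE.P_cnt

open H391.AE

/-- the possible values of the integer `2⟨i,a⟩/⟨i,i⟩`, `B = ⟨i,i⟩` -/
noncomputable def S (r : ℕ) (X B : ℝ) : Finset ℤ :=
  ({-1, 0, 1} : Finset ℤ).biUnion fun e =>
    Finset.Icc ⌈((r : ℝ) * e - X) * 2 / B⌉ ⌊((r : ℝ) * e + X) * 2 / B⌋

theorem card_S (r : ℕ) (X B : ℝ) (hX : 1 ≤ X) (hB : 0 < B) :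
    ((S r X B).card : ℝ) ≤ 3 * (4 / B + 1) * X := by
  have h1 : (S r X B).card ≤ ({-1, 0, 1} : Finset ℤ).card * ⌊4 * X / B + 1⌋₊ := by
    apply Finset.card_biUnion_le_card_mul
    intro e _
    rw [Int.card_Icc, Int.toNat_le]
    have h2 : (⌊((r : ℝ) * e + X) * 2 / B⌋ : ℝ) ≤ ((r : ℝ) * e + X) * 2 / B := Int.floor_le _
    have h3 : ((r : ℝ) * e - X) * 2 / B ≤ (⌈((r : ℝ) * e - X) * 2 / B⌉ : ℝ) := Int.le_ceil _
    have h4 : ((r : ℝ) * e + X) * 2 / B - ((r : ℝ) * e - X) * 2 / B = 4 * X / B := by ring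
    have h5 : ((⌊((r : ℝ) * e + X) * 2 / B⌋ + 1 - ⌈((r : ℝ) * e - X) * 2 / B⌉ : ℤ) : ℝ) ≤
        4 * X / B + 1 := by
      push_cast
      linarith
    have h6 := Int.le_floor.2 h5
    have hX0 : 0 < X := by linarith
    have h7 : (0 : ℝ) ≤ 4 * X / B + 1 := by positivity
    exact h6.trans_eq (Int.natCast_floor_eq_floor h7).symm
  have h2 : ({-1, 0, 1} : Finset ℤ).card = 3 := by decide
  rw [h2] at h1
  have h3 : ((S r X B).card : ℝ) ≤ 3 * (⌊4 * X / B + 1⌋₊ : ℝ) := by exact_mod_cast h1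
  have hX0 : 0 < X := by linarith
  have h4 : (⌊4 * X / B + 1⌋₊ : ℝ) ≤ 4 * X / B + 1 := Nat.floor_le (by positivity)
  have h5 : 3 * (4 * X / B + 1) ≤ 3 * (4 / B + 1) * X := by
    have : 4 * X / B = 4 / B * X := by ring
    rw [this]
    nlinarith
  linarith

theorem mem_S {r : ℕ} (hr : 1 ≤ r) {X B y : ℝ} (hB : 0 < B) (hy : |y| < r)
    (hX : (r : ℝ) * nd (y / r) ≤ X) {z : ℤ} (hz : 2 * y = z * B) : z ∈ S r X B := by
  have hr0 : (0 : ℝ) < r := by exact_mod_cast hr
  set e : ℤ := round (y / r) with he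
  have h1 : |y - r * e| ≤ X := by
    have h2 : |y - r * e| = r * |y / r - e| := by
      rw [← abs_of_pos hr0, ← abs_mul, abs_of_pos hr0]
      congr 1
      field_simp
    rw [h2]
    exact hX
  have h3 : |(e : ℝ)| < 2 := by
    have h4 : |y / r - e| ≤ 1 / 2 := abs_sub_round _
    have h5 : |y / r| < 1 := by
      rw [abs_div, abs_of_pos hr0, div_lt_one hr0]
      exact hy
    calc |(e : ℝ)| = |y / r - (y / r - e)| := by congr 1; ring
      _ ≤ |y / r| + |y / r - e| := abs_sub _ _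
      _ < 2 := by linarith
  have h4 : e = -1 ∨ e = 0 ∨ e = 1 := by
    have h5 : |e| < 2 := by exact_mod_cast h3
    rw [abs_lt] at h5
    omega
  unfold S
  rw [Finset.mem_biUnion]
  refine ⟨e, ?_, ?_⟩
  · rcases h4 with h | h | h <;> rw [h] <;> decide
  · rw [abs_le] at h1
    rw [Finset.mem_Icc, Int.ceil_le, Int.le_floor, div_le_iff₀ hB, le_div_iff₀ hB, ← hz]
    constructor <;> linarith [h1.1, h1.2]

theorem eq_of {n : ℕ} {b : Set (V n)} (hb : Submodule.span ℝ b = ⊤) {a a' : V n}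
    (h : ∀ i ∈ b, (inner ℝ) i a = (inner ℝ) i a') : a = a' := by
  have h1 : ∀ x ∈ Submodule.span ℝ b, (inner ℝ) x (a - a') = 0 := by
    intro x hx
    induction hx using Submodule.span_induction with
    | mem x hx => rw [inner_sub_right, h x hx, sub_self]
    | zero => exact inner_zero_left _
    | add x y _ _ hx hy => rw [inner_add_left, hx, hy, add_zero]
    | smul c x _ hx => rw [inner_smul_left, hx, mul_zero]
  have h2 := h1 (a - a') (by rw [hb]; trivial)
  rw [inner_self_eq_zero] at h2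
  exact sub_eq_zero.1 h2

theorem main : S_lab → S_cnt := by
  classical
  intro hlab n R hR δ hδ
  obtain ⟨b, hbR, hbs, hbi⟩ := exists_linearIndependent ℝ (R : Set (V n))
  rw [hR.span_top] at hbs
  have hbf : b.Finite := R.finite_toSet.subset hbR
  have : Fintype b := hbf.fintype
  have hcard : Fintype.card b ≤ n := by
    have := hbi.fintype_card_le_finrank
    rwa [finrank_euclideanSpace_fin] at this
  have hpos : ∀ i : b, 0 < (inner ℝ) (i : V n) (i : V n) := by
    intro i
    apply real_inner_self_pos.2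
    intro h0
    exact hR.ne0 (h0 ▸ hbR i.2)
  refine ⟨∏ i : b, (3 * (4 / (inner ℝ) (i : V n) (i : V n) + 1)), ?_, ?_⟩
  · apply Finset.prod_nonneg
    intro i _
    have := hpos i
    positivity
  intro r hr X hX
  have hinj : (((labels R δ r).filter fun a => ∀ α ∈ R, (r : ℝ) * nd ((inner ℝ) α a / r) ≤ X).card) ≤
      (Fintype.piFinset fun i : b => S r X ((inner ℝ) (i : V n) (i : V n))).card := by
    apply Finset.card_le_card_of_injOn
      (fun a => fun i : b => round (2 * (inner ℝ) (i : V n) a / (inner ℝ) (i : V n) (i : V n)))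
    · intro a ha
      rw [Finset.mem_coe, Finset.mem_filter] at ha
      rw [Finset.mem_coe, Fintype.mem_piFinset]
      intro i
      have h1 := (hlab n R hR δ hδ r).2 a ha.1
      have hi : (i : V n) ∈ R := hbR i.2
      obtain ⟨z, hz⟩ := h1.1 i hi
      have h2 : round (2 * (inner ℝ) (i : V n) a / (inner ℝ) (i : V n) (i : V n)) = z := by
        rw [hz, mul_div_assoc, div_self (hpos i).ne', mul_one, round_intCast]
      change round (2 * (inner ℝ) (i : V n) a / (inner ℝ) (i : V n) (i : V n)) ∈ _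
      rw [h2]
      exact mem_S hr (hpos i) (h1.2 i hi).2 (ha.2 i hi) hz
    · intro a ha a' ha' haa
      rw [Finset.mem_coe, Finset.mem_filter] at ha ha'
      apply eq_of hbs
      intro i hi
      have hiR : i ∈ R := hbR hi
      have h1 := ((hlab n R hR δ hδ r).2 a ha.1).1 i hiR
      have h1' := ((hlab n R hR δ hδ r).2 a' ha'.1).1 i hiR
      obtain ⟨z, hz⟩ := h1
      obtain ⟨z', hz'⟩ := h1'
      have h3 := congrFun haa ⟨i, hi⟩
      have h4 := hpos ⟨i, hi⟩
      simp only at h3 h4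
      rw [hz, hz', mul_div_assoc, mul_div_assoc, div_self h4.ne', mul_one, mul_one, round_intCast,
        round_intCast] at h3
      rw [h3, ← hz'] at hz
      linarith
  have h1 : (((labels R δ r).filter fun a => ∀ α ∈ R, (r : ℝ) * nd ((inner ℝ) α a / r) ≤ X).card : ℝ) ≤
      ((Fintype.piFinset fun i : b => S r X ((inner ℝ) (i : V n) (i : V n))).card : ℝ) := by
    exact_mod_cast hinj
  refine h1.trans ?_
  rw [Fintype.card_piFinset, Nat.cast_prod]
  have h2 : ∏ i : b, ((S r X ((inner ℝ) (i : V n) (i : V n))).card : ℝ) ≤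
      ∏ i : b, (3 * (4 / (inner ℝ) (i : V n) (i : V n) + 1) * X) :=
    Finset.prod_le_prod (fun i _ => Nat.cast_nonneg _) (fun i _ => card_S r X _ hX (hpos i))
  refine h2.trans ?_
  rw [Finset.prod_mul_distrib, Finset.prod_const, Finset.card_univ]
  apply mul_le_mul_of_nonneg_left (pow_le_pow_right₀ hX hcard)
  apply Finset.prod_nonneg
  intro i _
  have := hpos i
  positivity

end H391.AE.P_cnt
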