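import Mathlib
import Pool.Agent.H391.AE.S

/-!
# S_comp: uniform gap by compactness
-/

set_option autoImplicit false

open Finset Topology
open scoped InnerProductSpace

namespace H391.AE

namespace P_comp

theorem exists_ip_ne {n : ℕ} {R : Finset (V n)} {a : V n}
    (ha : a ∈ Submodule.span ℝ (R : Set (V n))) (h0 : a ≠ 0) : ∃ α ∈ R, (inner ℝ) a α ≠ 0 := by
  by_contra hcon0
  have hcon : ∀ α ∈ R, (inner ℝ) a α = 0 := by
    intro α hα
    by_contra h
    exact hcon0 ⟨α, hα, h⟩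
  apply h0
  have h1 : ∀ y ∈ Submodule.span ℝ (R : Set (V n)), (inner ℝ) a y = 0 := by
    intro y hy
    induction hy using Submodule.span_induction with
    | mem y hy => exact hcon y (Finset.mem_coe.mp hy)
    | zero => exact inner_zero_right _
    | add y z _ _ h1 h2 => rw [inner_add_right, h1, h2, add_zero]
    | smul c y _ h => rw [inner_smul_right, h, mul_zero]
  exact inner_self_eq_zero.mp (h1 a ha)

/-- the property of a set -/
def P {n : ℕ} (R : Finset (V n)) (s : Set (V n)) : Prop :=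
  ∃ ε : ℝ, 0 < ε ∧ ∀ a ∈ s, ∃ x : V n, (∃ α ∈ R, (inner ℝ) x α ≠ 0) ∧
    ∀ α ∈ R, (inner ℝ) x α ≠ 0 → ε ≤ |(inner ℝ) α a|

theorem exists_gap {n : ℕ} (R : Finset (V n)) (a : V n) :
    ∃ δ : ℝ, 0 < δ ∧ ∀ α ∈ R, (inner ℝ) a α ≠ 0 → δ < |(inner ℝ) α a| := by
  classical
  by_cases hne : (R.filter (fun α => (inner ℝ) a α ≠ 0)).Nonempty
  · obtain ⟨β, hβ, hmin⟩ := Finset.exists_min_image _ (fun α : V n => |(inner ℝ) α a|) hne
    rw [Finset.mem_filter] at hβ
    have hpos : 0 < |(inner ℝ) β a| := by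
      rw [abs_pos, real_inner_comm]
      exact hβ.2
    refine ⟨|(inner ℝ) β a| / 2, by linarith, ?_⟩
    intro α hα h
    have := hmin α (Finset.mem_filter.mpr ⟨hα, h⟩)
    linarith
  · refine ⟨1, one_pos, ?_⟩
    intro α hα h
    exact absurd ⟨α, Finset.mem_filter.mpr ⟨hα, h⟩⟩ hne

theorem local_P {n : ℕ} (R : Finset (V n)) (a : V n)
    (ha : a ∈ Submodule.span ℝ (R : Set (V n))) (h0 : a ≠ 0) : ∃ t ∈ 𝓝 a, P R t := by
  obtain ⟨δ, hδ, h⟩ := exists_gap R a
  have hev : ∀ᶠ b in 𝓝 a, ∀ α ∈ R, (inner ℝ) a α ≠ 0 → δ < |(inner ℝ) α b| := by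
    rw [Filter.eventually_all_finset]
    intro α hα
    by_cases hz : (inner ℝ) a α ≠ 0
    · have hc : Continuous (fun b : V n => |(inner ℝ) α b|) := by fun_prop
      filter_upwards [hc.continuousAt.eventually (lt_mem_nhds (h α hα hz))] with b hb _
      exact hb
    · exact Filter.Eventually.of_forall (fun b h' => absurd h' hz)
  refine ⟨_, hev, δ, hδ, ?_⟩
  intro b hb
  exact ⟨a, exists_ip_ne ha h0, fun α hα hz => (hb α hα hz).le⟩

theorem main : S_comp := by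
  intro n R _
  have hS : IsCompact (Metric.sphere (0 : V n) 1 ∩ (Submodule.span ℝ (R : Set (V n)) : Set (V n))) :=
    (isCompact_sphere 0 1).inter_right (Submodule.closed_of_finiteDimensional _)
  have hP : P R (Metric.sphere (0 : V n) 1 ∩ (Submodule.span ℝ (R : Set (V n)) : Set (V n))) := by
    refine hS.induction_on (p := P R) ?_ ?_ ?_ ?_
    · exact ⟨1, one_pos, fun a ha => absurd ha (Set.notMem_empty a)⟩
    · rintro s t hst ⟨ε, hε, h⟩
      exact ⟨ε, hε, fun a ha => h a (hst ha)⟩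
    · rintro s t ⟨ε, hε, h⟩ ⟨ε', hε', h'⟩
      refine ⟨min ε ε', lt_min hε hε', ?_⟩
      rintro a (ha | ha)
      · obtain ⟨x, hx, hx'⟩ := h a ha
        exact ⟨x, hx, fun α hα hz => (min_le_left _ _).trans (hx' α hα hz)⟩
      · obtain ⟨x, hx, hx'⟩ := h' a ha
        exact ⟨x, hx, fun α hα hz => (min_le_right _ _).trans (hx' α hα hz)⟩
    · intro a ha
      have h0 : a ≠ 0 := by
        intro h0
        have h1 := ha.1
        rw [h0, mem_sphere_zero_iff_norm, norm_zero] at h1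
        exact zero_ne_one h1
      obtain ⟨t, ht, hPt⟩ := local_P R a ha.2 h0
      exact ⟨t, mem_nhdsWithin_of_mem_nhds ht, hPt⟩
  obtain ⟨ε, hε, h⟩ := hP
  refine ⟨ε, hε, ?_⟩
  intro a ha h0
  have hn : 0 < ‖a‖ := norm_pos_iff.mpr h0
  have hmem : (‖a‖⁻¹ • a) ∈ Metric.sphere (0 : V n) 1 ∩
      (Submodule.span ℝ (R : Set (V n)) : Set (V n)) := by
    refine ⟨?_, Submodule.smul_mem _ _ ha⟩
    rw [mem_sphere_zero_iff_norm, norm_smul, norm_inv, norm_norm, inv_mul_cancel₀ hn.ne']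
  obtain ⟨x, hx, hx'⟩ := h _ hmem
  refine ⟨x, hx, fun α hα hz => ?_⟩
  have h1 := hx' α hα hz
  rw [inner_smul_right, abs_mul, abs_inv, abs_norm] at h1
  calc ε * ‖a‖ ≤ (‖a‖⁻¹ * |(inner ℝ) α a|) * ‖a‖ := mul_le_mul_of_nonneg_right h1 hn.le
    _ = |(inner ℝ) α a| := by field_simp

end P_comp

end H391.AE
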