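import Mathlib
import Pool.Agent.H391.AE.S

set_option autoImplicit false

open Finset
open scoped InnerProductSpace

namespace H391.AE.P_cov

open H391.AE

theorem main : S_rs → S_W → S_sp → S_cov := by
  intro hrs hW hsp n R hR Ψ₁ Ψ₂ h1 h2 hne1 hne2
  by_contra hcon
  push Not at hcon
  have hRS : IsRS R := hR.toIsRS
  obtain ⟨-, -, -, -, hneg, -⟩ := hW n R hRS
  obtain ⟨β, hβR, hβ2⟩ : ∃ β ∈ R, β ∉ Ψ₂ := by
    by_contra h
    push Not at h
    exact hne2 (Finset.Subset.antisymm h2.sub h)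
  have hβ1 : β ∈ Ψ₁ := by
    by_contra h
    exact hβ2 (hcon β hβR h)
  have hβ0 : β ≠ 0 := fun h => hRS.ne0 (h ▸ hβR)
  obtain ⟨α, hαR, hα1, hαβ⟩ : ∃ α ∈ R, α ∉ Ψ₁ ∧ (inner ℝ) α β ≠ 0 := by
    by_contra h
    push Not at h
    have hspan := hsp n R hR Ψ₁ h1 hne1
    have hle : Submodule.span ℝ {α : V n | α ∈ R ∧ α ∉ Ψ₁} ≤ (Submodule.span ℝ {β})ᗮ := by
      rw [Submodule.span_le]
      rintro α ⟨ha, hb⟩
      rw [SetLike.mem_coe, Submodule.mem_orthogonal_singleton_iff_inner_left]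
      exact h α ha hb
    rw [hspan] at hle
    have hb : β ∈ (Submodule.span ℝ {β})ᗮ := hle Submodule.mem_top
    rw [Submodule.mem_orthogonal_singleton_iff_inner_left] at hb
    exact hβ0 (inner_self_eq_zero.1 hb)
  have hsym : ∀ γ ∈ R, γ ∉ Ψ₁ → -γ ∈ R ∧ -γ ∉ Ψ₁ := by
    intro γ hγ hγ1
    refine ⟨hneg γ hγ, fun h => hγ1 ?_⟩
    have := h1.neg _ h
    rwa [neg_neg] at this
  have key : ∀ γ ∈ R, γ ∉ Ψ₁ → (inner ℝ) γ β < 0 → False := by
    intro γ hγ hγ1 hlt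
    obtain ⟨hnR, hn1⟩ := hsym γ hγ hγ1
    have hn2 : -γ ∈ Ψ₂ := hcon _ hnR hn1
    have hne : β ≠ -γ := fun h => hβ2 (h ▸ hn2)
    have hd : γ + β ∈ R := hrs n R hRS γ hγ β hβR hlt hne
    by_cases hd1 : γ + β ∈ Ψ₁
    · have h3 := h1.add _ hd1 _ (h1.neg _ hβ1) (by rw [add_neg_cancel_right]; exact hγ)
      rw [add_neg_cancel_right] at h3
      exact hγ1 h3
    · have hd2 : γ + β ∈ Ψ₂ := hcon _ hd hd1
      have e : -γ + (γ + β) = β := neg_add_cancel_left γ β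
      have h3 := h2.add _ hn2 _ hd2 (by rw [e]; exact hβR)
      rw [e] at h3
      exact hβ2 h3
  rcases lt_or_gt_of_ne hαβ with h | h
  · exact key α hαR hα1 h
  · obtain ⟨h3, h4⟩ := hsym α hαR hα1
    exact key (-α) h3 h4 (by rw [inner_neg_left]; linarith)

end H391.AE.P_cov
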