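import Mathlib
import Pool.Agent.H391.AE.S

/-!
# AE-dd: reduction to the integral subsystems (helper127 for helper391)
-/

set_option autoImplicit false

open Finset
open scoped InnerProductSpace

namespace H391.AE.P_dd

variable {n : ℕ}

lemma sg_mul (w u : V n ≃ₗᵢ[ℝ] V n) : sg (w * u) = sg w * sg u := by
  unfold sg
  rw [← LinearMap.det_comp]
  rfl

lemma sg_one : sg (1 : V n ≃ₗᵢ[ℝ] V n) = 1 := by
  have h : ((1 : V n ≃ₗᵢ[ℝ] V n).toLinearEquiv : V n →ₗ[ℝ] V n) = LinearMap.id := rfl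
  unfold sg
  rw [h, LinearMap.det_id]

lemma sg_inv {w : V n ≃ₗᵢ[ℝ] V n} (h : sg w = 1 ∨ sg w = -1) : sg w⁻¹ = sg w := by
  have h1 : sg w⁻¹ * sg w = 1 := by rw [← sg_mul, inv_mul_cancel, sg_one]
  rcases h with h2 | h2 <;> rw [h2] at h1 ⊢ <;> linarith

lemma apply_inv (w : V n ≃ₗᵢ[ℝ] V n) (y : V n) : w (w⁻¹ y) = y := w.apply_symm_apply y

lemma ip_adj (w : V n ≃ₗᵢ[ℝ] V n) (x y : V n) : (inner ℝ) (w x) y = ((inner ℝ) x (w⁻¹ y) : ℝ) := by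
  conv_lhs => rw [← apply_inv w y]
  exact w.inner_map_map x (w⁻¹ y)

lemma ip_adj' (w : V n ≃ₗᵢ[ℝ] V n) (x y : V n) : (inner ℝ) (w⁻¹ x) y = ((inner ℝ) x (w y) : ℝ) := by
  rw [ip_adj, inv_inv]

/-- The value of `E` for real second argument. -/
lemma E_real (Φ : Finset (V n)) (c : ℝ) (x y : V n) :
    E Φ (c • x) (y, 0) =
      ∑ w ∈ Wf Φ, ((sg w : ℝ) : ℂ) * Complex.exp (Complex.I * ((c * (inner ℝ) (w x) y : ℝ) : ℂ)) := by
  unfold E cp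
  refine sum_congr rfl fun w _ => ?_
  congr 3
  rw [inner_zero_right, Complex.ofReal_zero, zero_mul, add_zero, map_smul,
    real_inner_smul_left]

section grp

variable (hW : S_W) {Φ : Finset (V n)} (hΦ : IsRS Φ)

include hW hΦ

lemma inv_mem {w : V n ≃ₗᵢ[ℝ] V n} (hw : w ∈ Wf Φ) : w⁻¹ ∈ Wf Φ := by
  rw [(hW n Φ hΦ).1] at hw ⊢
  exact (W Φ).inv_mem hw

/-- Symmetry of `E`. -/
lemma sym (c : ℝ) (x y : V n) : E Φ (c • x) (y, 0) = E Φ (c • y) (x, 0) := by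
  rw [E_real, E_real]
  refine sum_nbij' (fun w => w⁻¹) (fun w => w⁻¹) (fun w hw => inv_mem hW hΦ hw)
    (fun w hw => inv_mem hW hΦ hw) (fun w _ => inv_inv w) (fun w _ => inv_inv w) ?_
  intro w hw
  rw [sg_inv ((hW n Φ hΦ).2.2.1 w hw), ip_adj, real_inner_comm]

/-- The weights are stable. -/
lemma wt_inv {y : V n} (hy : IsWt Φ y) {w : V n ≃ₗᵢ[ℝ] V n} (hw : w ∈ Wf Φ) :
    IsWt Φ (w⁻¹ y) := by
  intro α hα
  obtain ⟨z, hz⟩ := hy (w α) ((hW n Φ hΦ).2.1 w hw α hα)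
  refine ⟨z, ?_⟩
  rw [ip_adj, w.inner_map_map] at hz
  exact hz

/-- `⟨w v - v, y⟩` is an integer. -/
lemma int_sub {v : V n} (hv : ∀ α ∈ Φ, ∃ z : ℤ, (inner ℝ) v α = (z : ℝ)) {w : V n ≃ₗᵢ[ℝ] V n}
    (hw : w ∈ Wf Φ) : ∀ y : V n, IsWt Φ y → ∃ z : ℤ, (inner ℝ) (w v) y = ((inner ℝ) v y : ℝ) + z := by
  have hw' : w ∈ W Φ := ((hW n Φ hΦ).1 w).1 hw
  have key : ∀ w ∈ W Φ, ∀ y : V n, IsWt Φ y → ∃ z : ℤ, (inner ℝ) (w v) y = ((inner ℝ) v y : ℝ) + z := by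
    intro w hw
    unfold W at hw
    induction hw using Subgroup.closure_induction with
    | mem s hs =>
      intro y hy
      obtain ⟨α, hα, rfl⟩ := hs
      have hα0 : α ≠ 0 := fun h => hΦ.ne0 (h ▸ hα)
      have hαα : ((inner ℝ) α α : ℝ) ≠ 0 := by
        rw [Ne, inner_self_eq_zero]
        exact hα0
      obtain ⟨m, hm⟩ := hv α hα
      obtain ⟨z, hz⟩ := hy α hα
      refine ⟨-(m * z), ?_⟩
      have hm' : ((inner ℝ) α v : ℝ) = m := by rw [real_inner_comm]; exact hm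
      rw [(hW n Φ hΦ).2.2.2.2.2.2.2.1 α hα0 v, inner_sub_left, real_inner_smul_left, hm']
      push_cast
      have h1 : 2 * (m : ℝ) / (inner ℝ) α α * (inner ℝ) α y = m * (2 * (inner ℝ) α y) / (inner ℝ) α α := by ring
      rw [h1, hz]
      field_simp
      ring
    | one =>
      intro y _
      exact ⟨0, by simp⟩
    | mul w u hw hu ihw ihu =>
      intro y hy
      have hwf : w ∈ Wf Φ := ((hW n Φ hΦ).1 w).2 hw
      obtain ⟨z1, h1⟩ := ihw y hy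
      obtain ⟨z2, h2⟩ := ihu (w⁻¹ y) (wt_inv hW hΦ hy hwf)
      refine ⟨z1 + z2, ?_⟩
      have h3 : (w * u) v = w (u v) := rfl
      rw [h3, ip_adj, h2, ← ip_adj, h1]
      push_cast
      ring
    | inv w hw ihw =>
      intro y hy
      have hwf : w⁻¹ ∈ Wf Φ := inv_mem hW hΦ (((hW n Φ hΦ).1 w).2 hw)
      have h4 : IsWt Φ (w y) := by
        have := wt_inv hW hΦ hy hwf
        rwa [inv_inv] at this
      obtain ⟨z, h1⟩ := ihw (w y) h4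
      refine ⟨-z, ?_⟩
      rw [w.inner_map_map] at h1
      rw [ip_adj']
      push_cast
      linarith
  exact key w hw'

/-- The shift by a vector which is integral on the roots. -/
lemma shift_norm {r : ℕ} (hr : 1 ≤ r) {v : V n} (hv : ∀ α ∈ Φ, ∃ z : ℤ, (inner ℝ) v α = (z : ℝ))
    {y : V n} (hy : IsWt Φ y) (x : V n) :
    ‖E Φ ((2 * Real.pi / r) • x) (y, 0)‖ =
      ‖E Φ ((2 * Real.pi / r) • (x - (r : ℝ) • v)) (y, 0)‖ := by
  have hr0 : (r : ℝ) ≠ 0 := by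
    have : r ≠ 0 := by omega
    exact_mod_cast this
  have h1 : E Φ ((2 * Real.pi / r) • x) (y, 0) =
      Complex.exp (((2 * Real.pi * (inner ℝ) v y : ℝ) : ℂ) * Complex.I) *
        E Φ ((2 * Real.pi / r) • (x - (r : ℝ) • v)) (y, 0) := by
    rw [E_real, E_real, mul_sum]
    refine sum_congr rfl fun w hw => ?_
    obtain ⟨z, hz⟩ := int_sub hW hΦ hv hw y hy
    have h2 : 2 * Real.pi / r * (inner ℝ) (w x) y = 2 * Real.pi * (inner ℝ) v y +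
        2 * Real.pi / r * (inner ℝ) (w (x - (r : ℝ) • v)) y + z * (2 * Real.pi) := by
      rw [map_sub, map_smul, inner_sub_left, real_inner_smul_left, hz]
      field_simp
      ring
    have h3 : Complex.exp (Complex.I * ((2 * Real.pi / r * (inner ℝ) (w x) y : ℝ) : ℂ)) =
        Complex.exp (((2 * Real.pi * (inner ℝ) v y : ℝ) : ℂ) * Complex.I) *
          Complex.exp (Complex.I * ((2 * Real.pi / r * (inner ℝ) (w (x - (r : ℝ) • v)) y : ℝ) : ℂ)) := by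
      rw [← Complex.exp_add, Complex.exp_eq_exp_iff_exists_int]
      refine ⟨z, ?_⟩
      rw [h2]
      push_cast
      ring
    rw [h3]
    ring
  rw [h1, norm_mul, Complex.norm_exp_ofReal_mul_I, one_mul]

end grp

/-- AE-dd -/
theorem main : S_W → S_sub → S_ld → S_dd := by
  intro hW hsub hld n R hR hq r hr a b ha hb v₁ v₂
  obtain ⟨⟨hΨ1, hcl1⟩, -⟩ := hsub n R hR v₁
  have hΨ1R : Rint R v₁ ⊆ R := hcl1.sub
  have hint : ∀ (Φ : Finset (V n)) (v : V n), ∀ α ∈ Rint Φ v, ∃ z : ℤ, (inner ℝ) v α = (z : ℝ) := by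
    intro Φ v α hα
    unfold Rint at hα
    simp only [mem_filter] at hα
    exact hα.2
  -- step (i)
  refine (hld n R hR (Rint R v₁) hΨ1R hΨ1 _ _).trans ?_
  refine sum_le_sum fun w hw => ?_
  dsimp only
  rw [map_zero]
  have hwb : IsWt R (w⁻¹ b) := wt_inv hW hR hb hw
  have hwb1 : IsWt (Rint R v₁) (w⁻¹ b) := fun α hα => hwb α (hΨ1R hα)
  rw [shift_norm hW hΨ1 hr (hint R v₁) hwb1 a, sym hW hΨ1]
  -- step (ii)
  obtain ⟨⟨hΨ2, hcl2⟩, -⟩ := hsub n (Rint R v₁) hΨ1 (w⁻¹ v₂)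
  have hΨ21 : Rint (Rint R v₁) (w⁻¹ v₂) ⊆ Rint R v₁ := hcl2.sub
  refine (hld n (Rint R v₁) hΨ1 (Rint (Rint R v₁) (w⁻¹ v₂)) hΨ21 hΨ2 _ _).trans ?_
  refine sum_le_sum fun u hu => ?_
  dsimp only
  rw [map_zero]
  have ha1 : IsWt (Rint R v₁) (a - (r : ℝ) • v₁) := by
    intro α hα
    obtain ⟨z, hz⟩ := ha α (hΨ1R hα)
    obtain ⟨m, hm⟩ := hint R v₁ α hα
    obtain ⟨q, hq1⟩ := hq α (hΨ1R hα)
    refine ⟨z - r * m * q, ?_⟩
    have hm' : ((inner ℝ) α v₁ : ℝ) = m := by rw [real_inner_comm]; exact hm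
    rw [inner_sub_right, real_inner_smul_right, hm', mul_sub, hz]
    push_cast
    have h2 : 2 * ((r : ℝ) * m) = ((q : ℝ) * (inner ℝ) α α) * (r * m) := by rw [hq1]
    rw [h2]
    ring
  have ha2 : IsWt (Rint R v₁) (u⁻¹ (a - (r : ℝ) • v₁)) := wt_inv hW hΨ1 ha1 hu
  have ha3 : IsWt (Rint (Rint R v₁) (w⁻¹ v₂)) (u⁻¹ (a - (r : ℝ) • v₁)) :=
    fun α hα => ha2 α (hΨ21 hα)
  rw [shift_norm hW hΨ2 hr (hint (Rint R v₁) (w⁻¹ v₂)) ha3 (w⁻¹ b), sym hW hΨ2]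
  refine le_of_eq ?_
  rw [map_sub w⁻¹, map_smul w⁻¹]

end H391.AE.P_dd
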