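import Mathlib
import Pool.Agent.H391.AE.S

set_option autoImplicit false

open Finset
open scoped InnerProductSpace

namespace H391.AE.P_fin

/-- an element of the Weyl group maps R to R -/
theorem mapR {n : ℕ} {R : Finset (V n)} (hR : IsRS R) (w : V n ≃ₗᵢ[ℝ] V n) (hw : w ∈ W R) :
    ∀ α ∈ R, w α ∈ R := by
  unfold W at hw
  induction hw using Subgroup.closure_induction with
  | mem x hx =>
    obtain ⟨β, hβ, rfl⟩ := hx
    exact fun α hα => hR.refl_mem β hβ α hα
  | one => intro α hα; exact hα
  | mul x y _ _ hx hy => intro α hα; exact hx _ (hy α hα)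
  | inv x _ hx =>
    intro α hα
    have hinj : Function.Injective (fun β : R => (⟨x β, hx β β.2⟩ : R)) := by
      intro a b hab
      have h1 : x (a : V n) = x (b : V n) := congrArg Subtype.val hab
      exact Subtype.ext (x.injective h1)
    obtain ⟨β, hβ⟩ := (Finite.injective_iff_surjective.mp hinj) ⟨α, hα⟩
    have h2 : x (β : V n) = α := congrArg Subtype.val hβ
    have h3 : x⁻¹ α = (β : V n) := by
      rw [← h2]
      exact x.symm_apply_apply _
    rw [h3]
    exact β.2

/-- an element of the Weyl group fixes the vectors orthogonal to R -/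
theorem fixR {n : ℕ} {R : Finset (V n)} (w : V n ≃ₗᵢ[ℝ] V n) (hw : w ∈ W R) :
    ∀ y : V n, (∀ α ∈ R, inner ℝ α y = 0) → w y = y := by
  unfold W at hw
  induction hw using Subgroup.closure_induction with
  | mem x hx =>
    obtain ⟨β, hβ, rfl⟩ := hx
    intro y hy
    unfold refl
    apply Submodule.reflection_mem_subspace_eq_self
    rw [Submodule.mem_orthogonal_singleton_iff_inner_right]
    exact hy β hβ
  | one => intro y _; rfl
  | mul x z _ _ hx hz =>
    intro y hy
    change x (z y) = y
    rw [hz y hy, hx y hy]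
  | inv x _ hx =>
    intro y hy
    have h := hx y hy
    have h3 : x⁻¹ (x y) = y := x.symm_apply_apply _
    rw [h] at h3
    exact h3

theorem main : S_fin := by
  intro n R hR
  have key : Finite {w : V n ≃ₗᵢ[ℝ] V n // w ∈ W R} := by
    refine Finite.of_injective
      (fun w : {w : V n ≃ₗᵢ[ℝ] V n // w ∈ W R} => fun β : R => (⟨w.1 β, mapR hR w.1 w.2 β β.2⟩ : R)) ?_
    intro w₁ w₂ h
    apply Subtype.ext
    have h1 : ∀ β ∈ R, w₁.1 β = w₂.1 β := by
      intro β hβ
      exact congrArg Subtype.val (congrFun h ⟨β, hβ⟩)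
    ext1 x
    obtain ⟨p, hp, q, hq, rfl⟩ :=
      (Submodule.span ℝ (R : Set (V n))).exists_add_mem_mem_orthogonal x
    rw [map_add, map_add]
    have hq' : ∀ α ∈ R, inner ℝ α q = 0 := by
      intro α hα
      exact (Submodule.mem_orthogonal _ _).mp hq α (Submodule.subset_span hα)
    rw [fixR w₁.1 w₁.2 q hq', fixR w₂.1 w₂.2 q hq']
    congr 1
    have h2 : Set.EqOn (w₁.1.toLinearEquiv : V n →ₗ[ℝ] V n) (w₂.1.toLinearEquiv : V n →ₗ[ℝ] V n)
        (R : Set (V n)) := fun β hβ => h1 β hβ
    exact LinearMap.eqOn_span h2 hp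
  exact Set.finite_coe_iff.mp key

end H391.AE.P_fin
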