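import Mathlib
import Pool.Agent.H391.AE.S

/-!
helper297: a good direction v (AE-gv).
-/

set_option autoImplicit false

open Finset
open scoped InnerProductSpace

namespace H391.AE.P_gv

theorem dns {n : ℕ} (L : V n →ₗ[ℝ] ℂ) (hL : L ≠ 0) : Dense {v : V n | L v ≠ 0} := by
  rw [Metric.dense_iff]
  intro v0 r hr
  by_cases h0 : L v0 = 0
  · obtain ⟨u, hu⟩ : ∃ u, L u ≠ 0 := by
      by_contra h
      push Not at h
      exact hL (LinearMap.ext h)
    have hu1 : 0 < ‖u‖ + 1 := by positivity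
    have ht : 0 < r / (‖u‖ + 1) := by positivity
    refine ⟨v0 + (r / (‖u‖ + 1)) • u, ?_, ?_⟩
    · rw [Metric.mem_ball, dist_eq_norm, add_sub_cancel_left, norm_smul, Real.norm_eq_abs,
        abs_of_pos ht, div_mul_eq_mul_div, div_lt_iff₀ hu1]
      nlinarith
    · rw [Set.mem_ofPred_eq, map_add, map_smul, h0, zero_add]
      exact smul_ne_zero ht.ne' hu
  · exact ⟨v0, Metric.mem_ball_self hr, h0⟩

theorem avoid {n : ℕ} {ι : Type} (s : Finset ι) (L : ι → (V n →ₗ[ℝ] ℂ)) (hL : ∀ i ∈ s, L i ≠ 0)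
    (v0 : V n) (r : ℝ) (hr : 0 < r) : ∃ v : V n, ‖v - v0‖ < r ∧ ∀ i ∈ s, L i v ≠ 0 := by
  have h1 : Dense (⋂ i ∈ (s : Set ι), {v : V n | L i v ≠ 0}) := by
    refine dense_biInter_of_isOpen ?_ s.countable_toSet ?_
    · intro i _
      have h2 : Continuous (L i) := (L i).continuous_of_finiteDimensional
      exact isOpen_ne_fun h2 continuous_const
    · intro i hi
      exact dns (L i) (hL i hi)
  rw [Metric.dense_iff] at h1
  obtain ⟨v, hv, hv2⟩ := h1 v0 r hr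
  rw [Metric.mem_ball, dist_eq_norm] at hv
  refine ⟨v, hv, fun i hi => ?_⟩
  rw [Set.mem_iInter₂] at hv2
  exact hv2 i hi

/-- pairing with a vector -/
noncomputable def pr {n : ℕ} (a : V n) : V n →ₗ[ℝ] ℂ :=
  Complex.ofRealCLM.toLinearMap ∘ₗ (innerSL ℝ a).toLinearMap

theorem pr_apply {n : ℕ} (a v : V n) : pr a v = (((inner ℝ) a v : ℝ) : ℂ) := rfl

theorem main : S_gv := by
  intro n R hR
  -- a regular vector
  obtain ⟨w, -, hw⟩ := avoid R pr (by
    intro β hβ h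
    have h1 := congrArg (fun L => L β) h
    simp only [pr_apply, LinearMap.zero_apply, Complex.ofReal_eq_zero] at h1
    rw [inner_self_eq_zero] at h1
    exact hR.ne0 (h1 ▸ hβ)) 0 1 one_pos
  have hw' : ∀ β ∈ R, 0 < |(inner ℝ) β w| := by
    intro β hβ
    have h1 := hw β hβ
    rw [pr_apply, Ne, Complex.ofReal_eq_zero] at h1
    exact abs_pos.2 h1
  obtain ⟨K, hK0, hK⟩ : ∃ K : ℝ, 0 < K ∧ ∀ β ∈ R, 2 ≤ K * |(inner ℝ) β w| := by
    refine ⟨1 + ∑ β ∈ R, 2 / |(inner ℝ) β w|, ?_, ?_⟩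
    · have : 0 ≤ ∑ β ∈ R, 2 / |(inner ℝ) β w| := Finset.sum_nonneg fun β _ => by positivity
      linarith
    · intro β hβ
      have h1 : 2 / |(inner ℝ) β w| ≤ ∑ β ∈ R, 2 / |(inner ℝ) β w| :=
        Finset.single_le_sum (f := fun β => 2 / |(inner ℝ) β w|) (fun β _ => by positivity) hβ
      have h2 : 2 = 2 / |(inner ℝ) β w| * |(inner ℝ) β w| := by
        rw [div_mul_cancel₀ _ (hw' β hβ).ne']
      calc (2 : ℝ) = 2 / |(inner ℝ) β w| * |(inner ℝ) β w| := h2
        _ ≤ (1 + ∑ β ∈ R, 2 / |(inner ℝ) β w|) * |(inner ℝ) β w| :=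
          mul_le_mul_of_nonneg_right (by linarith) (abs_nonneg _)
  set M : ℝ := 1 + ∑ β ∈ R, ‖β‖ with hM
  have hM1 : 1 ≤ M := by
    have : 0 ≤ ∑ β ∈ R, ‖β‖ := Finset.sum_nonneg fun β _ => norm_nonneg _
    linarith
  have hM0 : 0 < M := by linarith
  have hMβ : ∀ β ∈ R, ‖β‖ ≤ M := by
    intro β hβ
    have h1 : ‖β‖ ≤ ∑ β ∈ R, ‖β‖ :=
      Finset.single_le_sum (f := fun β => ‖β‖) (fun β _ => norm_nonneg _) hβ
    linarith
  refine ⟨‖K • w‖ + 1, by positivity, ?_⟩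
  intro z hz
  classical
  set s : Finset (V n × V n) := (R ×ˢ R).filter (fun p => p.2 ≠ p.1 ∧ p.2 ≠ -p.1) with hs
  obtain ⟨v, hv1, hv2⟩ := avoid s (fun p => cp p.1 z • pr p.2 - cp p.2 z • pr p.1) (by
    rintro ⟨β, γ⟩ hp h
    rw [hs, Finset.mem_filter, Finset.mem_product] at hp
    obtain ⟨⟨hβ, hγ⟩, h1, h2⟩ := hp
    simp only at hβ hγ h1 h2 h
    have hββ : (inner ℝ) β β ≠ 0 := by
      intro h3
      rw [inner_self_eq_zero] at h3
      exact hR.ne0 (h3 ▸ hβ)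
    have h3 : ∀ u : V n, cp β z * (((inner ℝ) γ u : ℝ) : ℂ) = cp γ z * (((inner ℝ) β u : ℝ) : ℂ) := by
      intro u
      have h4 := congrArg (fun L => L u) h
      simp only [LinearMap.sub_apply, LinearMap.smul_apply, pr_apply, LinearMap.zero_apply,
        smul_eq_mul] at h4
      exact sub_eq_zero.1 h4
    have h5 : γ = ((inner ℝ) γ β / (inner ℝ) β β) • β := by
      refine ext_inner_right ℝ fun u => ?_
      rw [inner_smul_left, conj_trivial]
      have h6 := h3 u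
      have h7 := h3 β
      have h8 : (((inner ℝ) γ u : ℝ) : ℂ) * (((inner ℝ) β β : ℝ) : ℂ) =
          (((inner ℝ) γ β : ℝ) : ℂ) * (((inner ℝ) β u : ℝ) : ℂ) := by
        have h9 : cp β z * ((((inner ℝ) γ u : ℝ) : ℂ) * (((inner ℝ) β β : ℝ) : ℂ)) =
            cp β z * ((((inner ℝ) γ β : ℝ) : ℂ) * (((inner ℝ) β u : ℝ) : ℂ)) := by
          linear_combination (((inner ℝ) β β : ℝ) : ℂ) * h6 - (((inner ℝ) β u : ℝ) : ℂ) * h7
        exact mul_left_cancel₀ (hz β hβ) h9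
      have h10 : (inner ℝ) γ u * (inner ℝ) β β = (inner ℝ) γ β * (inner ℝ) β u := by exact_mod_cast h8
      rw [div_mul_eq_mul_div, eq_div_iff hββ]
      exact h10
    have h11 : ((inner ℝ) γ β / (inner ℝ) β β) • β ∈ R := h5 ▸ hγ
    rcases hR.red β hβ _ h11 with h12 | h12
    · rw [h12, one_smul] at h5
      exact h1 h5
    · rw [h12, neg_one_smul] at h5
      exact h2 h5) (K • w) (1 / M) (by positivity)
  have hM2 : 1 / M ≤ 1 := by
    rw [div_le_one hM0]
    exact hM1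
  refine ⟨v, ?_, ?_, ?_⟩
  · have h1 : v = K • w + (v - K • w) := by abel
    rw [h1]
    refine (norm_add_le _ _).trans ?_
    linarith
  · intro β hβ
    have h1 : (inner ℝ) β v = K * (inner ℝ) β w + (inner ℝ) β (v - K • w) := by
      rw [inner_sub_right, inner_smul_right]
      ring
    have h2 : |(inner ℝ) β (v - K • w)| ≤ 1 := by
      refine (abs_real_inner_le_norm _ _).trans ?_
      calc ‖β‖ * ‖v - K • w‖ ≤ M * (1 / M) :=
            mul_le_mul (hMβ β hβ) hv1.le (norm_nonneg _) hM0.le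
        _ = 1 := by rw [mul_one_div_cancel hM0.ne']
    have h3 : 2 ≤ |K * (inner ℝ) β w| := by
      rw [abs_mul, abs_of_pos hK0]
      exact hK β hβ
    rw [h1]
    have h4 := abs_sub_abs_le_abs_sub (K * (inner ℝ) β w) (-(inner ℝ) β (v - K • w))
    rw [abs_neg, sub_neg_eq_add] at h4
    linarith
  · intro β hβ γ hγ h1 h2 h3
    refine hv2 (β, γ) ?_ ?_
    · rw [hs, Finset.mem_filter, Finset.mem_product]
      exact ⟨⟨hβ, hγ⟩, h1, h2⟩
    · simp only [LinearMap.sub_apply, LinearMap.smul_apply, pr_apply, smul_eq_mul]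
      exact sub_eq_zero.2 h3

end H391.AE.P_gv

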