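import Mathlib
import Pool.Agent.H391.AE.S

/-!
# AE-idx: the coroot lattice has finite index in the weight lattice

The map `a ↦ ∑ ⟨a, α^∨⟩ α^∨` is an injective endomorphism of the weight lattice, a free abelian group of
finite rank, with image in the coroot lattice.
-/

set_option autoImplicit false

open Finset
open scoped InnerProductSpace

namespace H391.AE.P_idx

variable {n : ℕ} {R : Finset (V n)}

theorem self_ne (hR : Simple R) {α : V n} (hα : α ∈ R) : ((inner ℝ) α α : ℝ) ≠ 0 := by
  intro h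
  have h1 : α = 0 := inner_self_eq_zero.1 h
  exact hR.ne0 (h1 ▸ hα)

/-- the coroot -/
noncomputable def cr (α : V n) : V n := (2 / (inner ℝ) α α : ℝ) • α

theorem cr_wt (hR : Simple R) (hq : S_q) {α : V n} (hα : α ∈ R) : cr α ∈ wtLattice R := by
  intro β hβ
  obtain ⟨z, hz⟩ := hR.int β hβ α hα
  obtain ⟨q, -, -, hq⟩ := hq n R hR α hα
  have h0 := self_ne hR hα
  refine ⟨q * z, ?_⟩
  unfold cr
  rw [inner_smul_right]
  have h1 : (2 / (inner ℝ) α α : ℝ) = q := by
    rw [div_eq_iff h0]
    exact hq.symm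
  rw [h1]
  push_cast
  calc 2 * ((q : ℝ) * (inner ℝ) β α) = (q : ℝ) * (2 * (inner ℝ) β α) := by ring
    _ = _ := by rw [hz]; ring

theorem cr_cl {α : V n} (hα : α ∈ R) : cr α ∈ corootLattice R :=
  AddSubgroup.subset_closure ⟨α, hα, rfl⟩

/-- the integers `⟨a, α^∨⟩` -/
noncomputable def zz (a : wtLattice R) (α : R) : ℤ := (a.2 α.1 α.2).choose

theorem zz_spec (a : wtLattice R) (α : R) :
    2 * ((inner ℝ) (α : V n) (a : V n) : ℝ) = zz a α * ((inner ℝ) (α : V n) (α : V n) : ℝ) :=
  (a.2 α.1 α.2).choose_spec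

theorem zz_eq (hR : Simple R) (a : wtLattice R) (α : R) (z : ℤ)
    (h : 2 * ((inner ℝ) (α : V n) (a : V n) : ℝ) = z * ((inner ℝ) (α : V n) (α : V n) : ℝ)) : zz a α = z := by
  have h1 := zz_spec a α
  rw [h] at h1
  have h2 := mul_right_cancel₀ (self_ne hR α.2) h1
  exact_mod_cast h2.symm

theorem zz_add (hR : Simple R) (a b : wtLattice R) (α : R) : zz (a + b) α = zz a α + zz b α := by
  refine zz_eq hR _ _ _ ?_
  have h1 := zz_spec a α
  have h2 := zz_spec b α
  have e : ((a + b : wtLattice R) : V n) = (a : V n) + (b : V n) := rfl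
  rw [e, inner_add_right]
  push_cast
  linarith

/-- the coordinates -/
noncomputable def io (hR : Simple R) : wtLattice R →ₗ[ℤ] (R → ℤ) :=
  (AddMonoidHom.mk' (fun a => zz a) (fun a b => by funext α; exact zz_add hR a b α)).toIntLinearMap

theorem io_apply (hR : Simple R) (a : wtLattice R) (α : R) : io hR a α = zz a α := rfl

theorem eq_zero (hR : Simple R) (a : V n) (h : ∀ α ∈ R, ((inner ℝ) α a : ℝ) = 0) : a = 0 := by
  have h1 : ∀ x : V n, ((inner ℝ) x a : ℝ) = 0 := by
    intro x
    have hx : x ∈ Submodule.span ℝ (R : Set (V n)) := by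
      rw [hR.span_top]
      exact Submodule.mem_top
    induction hx using Submodule.span_induction with
    | mem y hy => exact h y hy
    | zero => exact inner_zero_left _
    | add y z _ _ hy hz => rw [inner_add_left, hy, hz, add_zero]
    | smul c y _ hy => rw [inner_smul_left, hy, mul_zero]
  exact inner_self_eq_zero.1 (h1 a)

theorem io_inj (hR : Simple R) : Function.Injective (io hR) := by
  rw [injective_iff_map_eq_zero]
  intro a ha
  apply Subtype.ext
  refine eq_zero hR _ fun α hα => ?_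
  have h1 := zz_spec a ⟨α, hα⟩
  have h2 : zz a ⟨α, hα⟩ = 0 := congrFun ha ⟨α, hα⟩
  rw [h2, Int.cast_zero, zero_mul] at h1
  linarith

/-- the combinations of the coroots -/
noncomputable def ka (hR : Simple R) (hq : S_q) : (R → ℤ) →ₗ[ℤ] wtLattice R :=
  Fintype.linearCombination ℤ fun α : R => (⟨cr (α : V n), cr_wt hR hq α.2⟩ : wtLattice R)

theorem ka_coe (hR : Simple R) (hq : S_q) (f : R → ℤ) :
    ((ka hR hq f : wtLattice R) : V n) = ∑ α : R, f α • cr (α : V n) := by
  unfold ka
  rw [Fintype.linearCombination_apply]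
  rw [AddSubgroup.val_finsetSum]
  rfl

theorem ka_mem (hR : Simple R) (hq : S_q) (f : R → ℤ) :
    ((ka hR hq f : wtLattice R) : V n) ∈ corootLattice R := by
  rw [ka_coe]
  exact AddSubgroup.sum_mem _ fun α _ => AddSubgroup.zsmul_mem _ (cr_cl α.2) _

theorem comp_inj (hR : Simple R) (hq : S_q) :
    Function.Injective ((ka hR hq).comp (io hR)) := by
  rw [injective_iff_map_eq_zero]
  intro a ha
  have h1 : ∑ α : R, (zz a α) • cr (α : V n) = 0 := by
    have h2 := ka_coe hR hq (io hR a)
    have h3 : ka hR hq (io hR a) = 0 := ha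
    rw [h3] at h2
    exact h2.symm
  have h2 : ∑ α : R, ((zz a α : ℤ) : ℝ) ^ 2 = 0 := by
    have h3 : ((inner ℝ) (∑ α : R, (zz a α) • cr (α : V n)) (a : V n) : ℝ) = 0 := by
      rw [h1, inner_zero_left]
    rw [sum_inner] at h3
    rw [← h3]
    refine Finset.sum_congr rfl fun α _ => ?_
    rw [← Int.cast_smul_eq_zsmul ℝ, real_inner_smul_left]
    unfold cr
    rw [real_inner_smul_left]
    have h4 := zz_spec a α
    have h5 := self_ne hR α.2
    have h6 : (2 / ((inner ℝ) (α : V n) (α : V n) : ℝ)) * (inner ℝ) (α : V n) (a : V n) = zz a α := by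
      rw [div_mul_eq_mul_div, div_eq_iff h5]
      exact h4
    rw [h6, sq]
  apply io_inj hR
  rw [map_zero]
  funext α
  have h3 := (Finset.sum_eq_zero_iff_of_nonneg (fun α _ => sq_nonneg _)).1 h2 α (Finset.mem_univ _)
  have h4 : ((zz a α : ℤ) : ℝ) = 0 := pow_eq_zero_iff (two_ne_zero) |>.1 h3
  rw [io_apply]
  exact_mod_cast h4

theorem main (_hW : S_W) (hq : S_q) : S_idx := by
  intro n R hR
  have hfin : Module.Finite ℤ (wtLattice R) := Module.Finite.of_injective (io hR) (io_inj hR)
  have htf : Module.IsTorsionFree ℤ (wtLattice R) :=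
    Function.Injective.moduleIsTorsionFree (io hR) (io_inj hR) fun r m => map_smul _ r m
  have hfree : Module.Free ℤ (wtLattice R) := Module.free_of_finite_type_torsion_free'
  set T : wtLattice R →ₗ[ℤ] wtLattice R := (ka hR hq).comp (io hR) with hT
  have hrk : Module.finrank ℤ (LinearMap.range T) = Module.finrank ℤ (wtLattice R) :=
    LinearMap.finrank_range_of_inj (comp_inj hR hq)
  have hfq : Finite (wtLattice R ⧸ LinearMap.range T) :=
    Submodule.finiteQuotientOfFreeOfRankEq _ hrk
  have hi : (LinearMap.range T).toAddSubgroup.FiniteIndex :=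
    AddSubgroup.finiteIndex_iff_finite_quotient.2 hfq
  have hle : (LinearMap.range T).toAddSubgroup ≤ (corootLattice R).addSubgroupOf (wtLattice R) := by
    intro x hx
    obtain ⟨a, rfl⟩ := hx
    rw [AddSubgroup.mem_addSubgroupOf]
    exact ka_mem hR hq (io hR a)
  have h2 : ((corootLattice R).addSubgroupOf (wtLattice R)).FiniteIndex :=
    AddSubgroup.finiteIndex_of_le hle
  exact Nat.pos_of_ne_zero h2.index_ne_zero

end H391.AE.P_idx
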