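import Mathlib
import Pool.Agent.H391.AE.S

/-!
# AE-lab: the labels form a finite set of good weights
-/

set_option autoImplicit false

open Finset
open scoped InnerProductSpace

namespace H391.AE.P_lab

open H391.AE

theorem bound {n : ℕ} {R : Finset (V n)} (hneg : ∀ α ∈ R, -α ∈ R) {δ : V n} (hδ : Reg R δ) {r : ℕ}
    {a : V n} (ha : IsLab R δ r a) : ∀ α ∈ R, (inner ℝ) α a ≠ 0 ∧ |(inner ℝ) α a| < r := by
  intro α hα
  rcases lt_or_gt_of_ne (hδ α hα) with h | h
  · have hm : -α ∈ pos R δ := by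
      unfold pos
      rw [Finset.mem_filter]
      refine ⟨hneg α hα, ?_⟩
      rw [inner_neg_right]
      linarith
    obtain ⟨h1, h2⟩ := ha.2 _ hm
    rw [inner_neg_left] at h1 h2
    refine ⟨by intro h0; rw [h0] at h1; simp at h1, ?_⟩
    rw [abs_lt]
    constructor <;> linarith
  · have hm : α ∈ pos R δ := by
      unfold pos
      rw [Finset.mem_filter]
      exact ⟨hα, h⟩
    obtain ⟨h1, h2⟩ := ha.2 _ hm
    exact ⟨h1.ne', by rw [abs_of_pos h1]; exact h2⟩

theorem fin {n : ℕ} {R : Finset (V n)} (hR : Simple R) (hneg : ∀ α ∈ R, -α ∈ R) {δ : V n}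
    (hδ : Reg R δ) (r : ℕ) : {a : V n | IsLab R δ r a}.Finite := by
  set f : V n → (R → ℝ) := fun a α => 2 * (inner ℝ) α.1 a / (inner ℝ) α.1 α.1 with hf
  have hpos : ∀ α : R, 0 < (inner ℝ) α.1 α.1 := fun α => by
    rw [real_inner_self_pos]
    intro h
    exact hR.ne0 (h ▸ α.2)
  have hfin : (Set.pi Set.univ fun α : R => (fun z : ℤ => (z : ℝ)) ''
      Set.Icc (-⌈2 * (r : ℝ) / (inner ℝ) α.1 α.1⌉) ⌈2 * (r : ℝ) / (inner ℝ) α.1 α.1⌉).Finite :=
    Set.Finite.pi fun α => (Set.finite_Icc _ _).image _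
  refine Set.Finite.of_finite_image (f := f) (hfin.subset ?_) ?_
  · rintro _ ⟨a, ha, rfl⟩ α -
    obtain ⟨z, hz⟩ := ha.1 α.1 α.2
    have hb := (bound hneg hδ ha α.1 α.2).2
    have hz' : (z : ℝ) = 2 * (inner ℝ) α.1 a / (inner ℝ) α.1 α.1 := by
      rw [eq_div_iff (hpos α).ne']
      linarith
    refine ⟨z, ?_, hz'⟩
    rw [abs_lt] at hb
    constructor
    · have h1 : -(2 * (r : ℝ) / (inner ℝ) α.1 α.1) ≤ z := by
        rw [hz', ← neg_div]
        exact div_le_div_of_nonneg_right (by linarith [hb.1]) (hpos α).le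
      have h2 : -((⌈2 * (r : ℝ) / (inner ℝ) α.1 α.1⌉ : ℤ) : ℝ) ≤ (z : ℝ) := by
        linarith [Int.le_ceil (2 * (r : ℝ) / (inner ℝ) α.1 α.1)]
      exact_mod_cast h2
    · have h1 : (z : ℝ) ≤ 2 * (r : ℝ) / (inner ℝ) α.1 α.1 := by
        rw [hz']
        exact div_le_div_of_nonneg_right (by linarith [hb.2]) (hpos α).le
      have h2 : (z : ℝ) ≤ ((⌈2 * (r : ℝ) / (inner ℝ) α.1 α.1⌉ : ℤ) : ℝ) :=
        h1.trans (Int.le_ceil _)
      exact_mod_cast h2
  · intro a _ b _ hab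
    have h1 : ∀ α ∈ (R : Set (V n)), (inner ℝ) α (a - b) = 0 := by
      intro α hα
      have h2 := congrFun hab ⟨α, hα⟩
      simp only [hf] at h2
      have h3 := (hpos ⟨α, hα⟩).ne'
      rw [div_left_inj' h3] at h2
      rw [inner_sub_right]
      linarith
    have h2 : ∀ x ∈ Submodule.span ℝ (R : Set (V n)), (inner ℝ) x (a - b) = 0 := by
      intro x hx
      induction hx using Submodule.span_induction with
      | mem x hx => exact h1 x hx
      | zero => simp
      | add x y _ _ hx hy => rw [inner_add_left, hx, hy, add_zero]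
      | smul c x _ hx => rw [real_inner_smul_left, hx, mul_zero]
    have h3 := h2 (a - b) (by rw [hR.span_top]; trivial)
    rw [inner_self_eq_zero] at h3
    exact sub_eq_zero.mp h3

theorem main : S_W → S_lab := by
  intro hW n R hR δ hδ r
  have hneg : ∀ α ∈ R, -α ∈ R := (hW n R hR.toIsRS).2.2.2.2.1
  have hfin := fin hR hneg hδ r
  have hmem : ∀ a, a ∈ labels R δ r ↔ IsLab R δ r a := by
    intro a
    unfold labels
    rw [dif_pos hfin, Set.Finite.mem_toFinset]
    rfl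
  exact ⟨hmem, fun a ha => ⟨((hmem a).mp ha).1, bound hneg hδ ((hmem a).mp ha)⟩⟩

end H391.AE.P_lab
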