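import Mathlib
import Pool.Agent.H391.AE.S

/-!
# Reduction of the alternating sum to a root subsystem
-/

set_option autoImplicit false

open Finset
open scoped InnerProductSpace

namespace H391.AE.P_ld

open H391.AE

lemma sg_mul {n : ℕ} (w u : V n ≃ₗᵢ[ℝ] V n) : sg (w * u) = sg w * sg u := by
  unfold sg
  rw [← LinearMap.det_comp]
  rfl

lemma ip_move {n : ℕ} (w : V n ≃ₗᵢ[ℝ] V n) (y x : V n) :
    (inner ℝ (w y) x : ℝ) = inner ℝ y (w⁻¹ x) := by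
  have h : w (w⁻¹ x) = x := w.apply_symm_apply x
  conv_lhs => rw [← h]
  exact w.inner_map_map y (w⁻¹ x)

lemma cp_mul {n : ℕ} (w u : V n ≃ₗᵢ[ℝ] V n) (a : V n) (z : V n × V n) :
    cp ((w * u) a) z = cp (u a) (w⁻¹ z.1, w⁻¹ z.2) := by
  unfold cp
  have h : (w * u) a = w (u a) := rfl
  rw [h, ip_move w (u a) z.1, ip_move w (u a) z.2]

theorem main : S_W → S_ld := by
  intro hW n R hR Φ hΦ hRΦ a z
  obtain ⟨hmem, -, hsg, -, -, hsub, -⟩ := hW n R hR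
  obtain ⟨hmemΦ, -⟩ := hW n Φ hRΦ
  have hΦR := hsub Φ hΦ hRΦ
  -- substitution of `w u` for `w`
  have hshift : ∀ u ∈ Wf Φ, E R a z = ∑ w ∈ Wf R, ((sg (w * u) : ℝ) : ℂ) *
      Complex.exp (Complex.I * cp ((w * u) a) z) := by
    intro u hu
    have huR : u ∈ W R := (hmem u).1 (hΦR hu)
    unfold E
    refine (Finset.sum_nbij' (fun w => w * u) (fun w => w * u⁻¹) ?_ ?_ ?_ ?_ ?_).symm
    · intro w hw
      exact (hmem _).2 (mul_mem ((hmem w).1 hw) huR)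
    · intro w hw
      exact (hmem _).2 (mul_mem ((hmem w).1 hw) (inv_mem huR))
    · intro w _
      exact mul_inv_cancel_right w u
    · intro w _
      exact inv_mul_cancel_right w u
    · intro w _
      rfl
  have hsum : ((Wf Φ).card : ℂ) * E R a z =
      ∑ w ∈ Wf R, ((sg w : ℝ) : ℂ) * E Φ a (w⁻¹ z.1, w⁻¹ z.2) := by
    have h1 : ((Wf Φ).card : ℂ) * E R a z = ∑ u ∈ Wf Φ, ∑ w ∈ Wf R, ((sg (w * u) : ℝ) : ℂ) *
        Complex.exp (Complex.I * cp ((w * u) a) z) := by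
      rw [← nsmul_eq_mul, ← Finset.sum_const]
      exact Finset.sum_congr rfl hshift
    rw [h1, Finset.sum_comm]
    refine Finset.sum_congr rfl fun w _ => ?_
    unfold E
    rw [Finset.mul_sum]
    refine Finset.sum_congr rfl fun u _ => ?_
    rw [sg_mul, cp_mul]
    push_cast
    ring
  have h1 : (1 : V n ≃ₗᵢ[ℝ] V n) ∈ Wf Φ := (hmemΦ 1).2 (one_mem _)
  have hcard : (1 : ℝ) ≤ ((Wf Φ).card : ℝ) := by
    exact_mod_cast Finset.card_pos.2 ⟨1, h1⟩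
  have hnorm : ((Wf Φ).card : ℝ) * ‖E R a z‖ ≤ ∑ w ∈ Wf R, ‖E Φ a (w⁻¹ z.1, w⁻¹ z.2)‖ := by
    have h2 : ((Wf Φ).card : ℝ) * ‖E R a z‖ = ‖((Wf Φ).card : ℂ) * E R a z‖ := by
      rw [norm_mul, Complex.norm_natCast]
    rw [h2, hsum]
    refine (norm_sum_le _ _).trans (Finset.sum_le_sum fun w hw => ?_)
    rw [norm_mul, Complex.norm_real]
    rcases hsg w hw with h | h
    · rw [h, norm_one, one_mul]
    · rw [h, norm_neg, norm_one, one_mul]
  calc ‖E R a z‖ = 1 * ‖E R a z‖ := (one_mul _).symm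
    _ ≤ ((Wf Φ).card : ℝ) * ‖E R a z‖ := by gcongr
    _ ≤ _ := hnorm

end H391.AE.P_ld
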