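import Mathlib
import Pool.Agent.H391.AE.S

/-!
# AE-low: lower bound for the sum
-/

set_option autoImplicit false

open Finset
open scoped InnerProductSpace

namespace H391.AE.P_low

open H391.AE

theorem norm_root {n : ℕ} {R : Finset (V n)} (hR : Simple R) {α : V n} (hα : α ∈ R) : ‖α‖ ≤ 3 / 2 := by
  have h := hR.short α hα
  rw [real_inner_self_eq_norm_sq] at h
  by_contra hc
  push Not at hc
  nlinarith [norm_nonneg α]

theorem cone_norm {n : ℕ} {a a₀ : V n} {X η : ℝ} (hX : 0 < X) (hη : η < ‖a₀‖ / 4) (h : ‖a - X • a₀‖ ≤ η * X) :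
    3 / 4 * (‖a₀‖ * X) < ‖a‖ ∧ ‖a‖ < 5 / 4 * (‖a₀‖ * X) := by
  have h1 : ‖X • a₀‖ = X * ‖a₀‖ := by rw [norm_smul, Real.norm_of_nonneg hX.le]
  have h2 : η * X < ‖a₀‖ / 4 * X := mul_lt_mul_of_pos_right hη hX
  have h3 := norm_sub_norm_le (X • a₀) a
  have h4 := norm_sub_norm_le a (X • a₀)
  rw [norm_sub_rev] at h3
  rw [h1] at h3 h4
  constructor
  · linarith
  · linarith

theorem cone_ip {n : ℕ} {R : Finset (V n)} (hR : Simple R) {a a₀ : V n} {X η : ℝ} (hX : 0 < X) (hη : η < ‖a₀‖ / 4)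
    (h : ‖a - X • a₀‖ ≤ η * X) {α : V n} (hα : α ∈ R) : |(inner ℝ) α a| ≤ 2 * (‖a₀‖ * X) := by
  have h1 := (cone_norm hX hη h).2
  have h2 := norm_root hR hα
  have h3 := abs_real_inner_le_norm α a
  have h4 : ‖α‖ * ‖a‖ ≤ 3 / 2 * (5 / 4 * (‖a₀‖ * X)) :=
    mul_le_mul h2 h1.le (norm_nonneg _) (by norm_num)
  have h5 : 0 ≤ ‖a₀‖ * X := by positivity
  linarith

theorem cone_pos {n : ℕ} {a a₀ : V n} {X η : ℝ} (hX : 0 < X)
    (h : ‖a - X • a₀‖ ≤ η * X) {α : V n} (hp : ∀ a, ‖a - a₀‖ ≤ η → 0 < (inner ℝ) α a) : 0 < (inner ℝ) α a := by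
  have h1 : ‖X⁻¹ • a - a₀‖ ≤ η := by
    have e : X⁻¹ • a - a₀ = X⁻¹ • (a - X • a₀) := by
      rw [smul_sub, smul_smul, inv_mul_cancel₀ hX.ne', one_smul]
    rw [e, norm_smul, Real.norm_of_nonneg (by positivity)]
    calc X⁻¹ * ‖a - X • a₀‖ ≤ X⁻¹ * (η * X) := mul_le_mul_of_nonneg_left h (by positivity)
      _ = η := by field_simp
  have h2 := hp _ h1
  rw [inner_smul_right] at h2
  exact (mul_pos_iff_of_pos_left (inv_pos.2 hX)).1 h2

theorem G_nonneg {n : ℕ} (R : Finset (V n)) (r : ℕ) (a b : V n) : 0 ≤ G R r a b := by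
  unfold G
  apply div_nonneg (by positivity)
  apply mul_nonneg (by positivity)
  exact Finset.prod_nonneg fun α _ => by positivity

theorem sin_pos' {x : ℝ} (h0 : x ≠ 0) (h1 : |x| < 1) : 0 < |Real.sin (Real.pi * x)| := by
  apply abs_pos.2
  rw [abs_lt] at h1
  have hπ := Real.pi_pos
  rw [Ne, Real.sin_eq_zero_iff_of_lt_of_lt (by nlinarith) (by nlinarith)]
  exact mul_ne_zero hπ.ne' h0

theorem sin_le' (x : ℝ) : |Real.sin (Real.pi * x)| ≤ Real.pi * |x| := by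
  have h2 := Real.abs_sin_sub_sin_le (Real.pi * x) 0
  rwa [Real.sin_zero, sub_zero, sub_zero, abs_mul, abs_of_pos Real.pi_pos] at h2

theorem main : S_W → S_lab → S_lp → S_cl2 → S_low := by
  intro _ hlab hlp hcl n R hR δ hδ p
  obtain ⟨a₀, b₀, η, c, hη, hc, hηa, hηb, hpa, hpb, hE⟩ := hlp n R hR δ hδ
  obtain ⟨c1, X1, hc1, hX1, h1⟩ := hcl n R hR a₀ η hη
  obtain ⟨c2, X2, hc2, hX2, h2⟩ := hcl n R hR b₀ η hη
  choose! F1 hF1 using h1
  choose! F2 hF2 using h2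
  have hA : 0 < ‖a₀‖ := by linarith
  have hB : 0 < ‖b₀‖ := by linarith
  have hπ := Real.pi_pos
  obtain ⟨κ, hκ0, hκ1, hκ2, hκ3⟩ : ∃ κ : ℝ, 0 < κ ∧ 2 * Real.pi * κ ≤ η ∧ 2 * (‖a₀‖ * κ) < 1 ∧ 2 * (‖b₀‖ * κ) < 1 := by
    refine ⟨min (η / (2 * Real.pi)) (1 / (4 * (‖a₀‖ + ‖b₀‖))), by positivity, ?_, ?_, ?_⟩
    · calc 2 * Real.pi * min (η / (2 * Real.pi)) (1 / (4 * (‖a₀‖ + ‖b₀‖))) ≤ 2 * Real.pi * (η / (2 * Real.pi)) :=
          mul_le_mul_of_nonneg_left (min_le_left _ _) (by positivity)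
        _ = η := by field_simp
    · calc 2 * (‖a₀‖ * min (η / (2 * Real.pi)) (1 / (4 * (‖a₀‖ + ‖b₀‖)))) ≤ 2 * (‖a₀‖ * (1 / (4 * (‖a₀‖ + ‖b₀‖)))) := by
            gcongr
            exact min_le_right _ _
        _ < 1 := by
            rw [← mul_assoc, mul_one_div, div_lt_one (by positivity)]
            linarith
    · calc 2 * (‖b₀‖ * min (η / (2 * Real.pi)) (1 / (4 * (‖a₀‖ + ‖b₀‖)))) ≤ 2 * (‖b₀‖ * (1 / (4 * (‖a₀‖ + ‖b₀‖)))) := by
            gcongr
            exact min_le_right _ _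
        _ < 1 := by
            rw [← mul_assoc, mul_one_div, div_lt_one (by positivity)]
            linarith
  -- the pointwise bound
  obtain ⟨M, hM⟩ : ∃ M, M = 4 * Real.pi ^ 2 * ‖a₀‖ * ‖b₀‖ * κ := ⟨_, rfl⟩
  have hM0 : 0 < M := by rw [hM]; positivity
  obtain ⟨g, hg⟩ : ∃ g, g = c * (2 * Real.pi * κ) ^ R.card / M ^ R.card := ⟨_, rfl⟩
  have hg0 : 0 < g := by rw [hg]; positivity
  have key : ∀ r : ℕ, 0 < r → ∀ X Y : ℝ, 1 ≤ X → 1 ≤ Y → X * Y = κ * r → ∀ a b : V n,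
      IsWt R a → ‖a - X • a₀‖ ≤ η * X → IsWt R b → ‖b - Y • b₀‖ ≤ η * Y →
      a ∈ labels R δ r ∧ b ∈ labels R δ r ∧ g ≤ G R r a b := by
    intro r hr X Y hX hY hXY a b ha ha' hb hb'
    have hr' : (0 : ℝ) < r := by exact_mod_cast hr
    have hX0 : 0 < X := by linarith
    have hY0 : 0 < Y := by linarith
    have hXr : X ≤ κ * r := by rw [← hXY]; nlinarith
    have hYr : Y ≤ κ * r := by rw [← hXY]; nlinarith
    have hal : a ∈ labels R δ r := by
      rw [(hlab n R hR δ hδ r).1]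
      refine ⟨ha, fun α hα => ⟨cone_pos hX0 ha' fun a h => hpa a h α hα, ?_⟩⟩
      have hαR : α ∈ R := by
        unfold pos at hα
        exact (Finset.mem_filter.1 hα).1
      have h3 := (abs_le.1 (cone_ip hR hX0 hηa ha' hαR)).2
      have h4 : 2 * (‖a₀‖ * X) ≤ 2 * (‖a₀‖ * κ) * r := by
        have := mul_le_mul_of_nonneg_left hXr hA.le
        linarith
      have h5 : 2 * (‖a₀‖ * κ) * r < 1 * r := mul_lt_mul_of_pos_right hκ2 hr'
      linarith
    have hbl : b ∈ labels R δ r := by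
      rw [(hlab n R hR δ hδ r).1]
      refine ⟨hb, fun α hα => ⟨cone_pos hY0 hb' fun a h => hpb a h α hα, ?_⟩⟩
      have hαR : α ∈ R := by
        unfold pos at hα
        exact (Finset.mem_filter.1 hα).1
      have h3 := (abs_le.1 (cone_ip hR hY0 hηb hb' hαR)).2
      have h4 : 2 * (‖b₀‖ * Y) ≤ 2 * (‖b₀‖ * κ) * r := by
        have := mul_le_mul_of_nonneg_left hYr hB.le
        linarith
      have h5 : 2 * (‖b₀‖ * κ) * r < 1 * r := mul_lt_mul_of_pos_right hκ3 hr'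
      linarith
    refine ⟨hal, hbl, ?_⟩
    have ga := (hlab n R hR δ hδ r).2 a hal
    have gb := (hlab n R hR δ hδ r).2 b hbl
    have hst : (2 * Real.pi * X / r) * Y = 2 * Real.pi * κ := by
      rw [div_mul_eq_mul_div, div_eq_iff hr'.ne']
      calc 2 * Real.pi * X * Y = 2 * Real.pi * (X * Y) := by ring
        _ = 2 * Real.pi * κ * r := by rw [hXY]; ring
    have h3 := hE (2 * Real.pi * X / r) Y (by positivity) hY0 ((2 * Real.pi / r) • a) b (by
      have e : (2 * Real.pi / r) • a - (2 * Real.pi * X / r) • a₀ = (2 * Real.pi / (r : ℝ)) • (a - X • a₀) := by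
        rw [smul_sub, smul_smul]
        congr 2
        ring
      rw [e, norm_smul, Real.norm_of_nonneg (by positivity)]
      calc 2 * Real.pi / r * ‖a - X • a₀‖ ≤ 2 * Real.pi / r * (η * X) := mul_le_mul_of_nonneg_left ha' (by positivity)
        _ = η * (2 * Real.pi * X / r) := by ring) hb' (by rw [hst]; exact hκ1)
    rw [hst] at h3
    have hfac : ∀ α ∈ R, 0 < |Real.sin (Real.pi * ((inner ℝ) α a / r))| * |Real.sin (Real.pi * ((inner ℝ) α b / r))| ∧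
        |Real.sin (Real.pi * ((inner ℝ) α a / r))| * |Real.sin (Real.pi * ((inner ℝ) α b / r))| ≤ M / r := by
      intro α hα
      constructor
      · apply mul_pos
        · apply sin_pos'
          · exact div_ne_zero (ga.2 α hα).1 hr'.ne'
          · rw [abs_div, abs_of_pos hr', div_lt_one hr']
            exact (ga.2 α hα).2
        · apply sin_pos'
          · exact div_ne_zero (gb.2 α hα).1 hr'.ne'
          · rw [abs_div, abs_of_pos hr', div_lt_one hr']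
            exact (gb.2 α hα).2
      · have i1 : |Real.sin (Real.pi * ((inner ℝ) α a / r))| ≤ Real.pi * (2 * (‖a₀‖ * X) / r) := by
          refine (sin_le' _).trans ?_
          rw [abs_div, abs_of_pos hr']
          have := cone_ip hR hX0 hηa ha' hα
          gcongr
        have i2 : |Real.sin (Real.pi * ((inner ℝ) α b / r))| ≤ Real.pi * (2 * (‖b₀‖ * Y) / r) := by
          refine (sin_le' _).trans ?_
          rw [abs_div, abs_of_pos hr']
          have := cone_ip hR hY0 hηb hb' hα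
          gcongr
        refine (mul_le_mul i1 i2 (abs_nonneg _) (by positivity)).trans (le_of_eq ?_)
        calc Real.pi * (2 * (‖a₀‖ * X) / r) * (Real.pi * (2 * (‖b₀‖ * Y) / r)) =
            4 * Real.pi ^ 2 * ‖a₀‖ * ‖b₀‖ * (X * Y) / (r * r) := by ring
          _ = M / r := by rw [hXY, hM]; field_simp
    have hprod0 : 0 < ∏ α ∈ R, (|Real.sin (Real.pi * ((inner ℝ) α a / r))| * |Real.sin (Real.pi * ((inner ℝ) α b / r))|) :=
      Finset.prod_pos fun α hα => (hfac α hα).1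
    have hprod1 : ∏ α ∈ R, (|Real.sin (Real.pi * ((inner ℝ) α a / r))| * |Real.sin (Real.pi * ((inner ℝ) α b / r))|) ≤ (M / r) ^ R.card := by
      refine (Finset.prod_le_prod (fun α hα => (hfac α hα).1.le) fun α hα => (hfac α hα).2).trans (le_of_eq ?_)
      rw [Finset.prod_const]
    unfold G
    rw [hg]
    have hden : (r : ℝ) ^ R.card * ∏ α ∈ R, (|Real.sin (Real.pi * ((inner ℝ) α a / r))| * |Real.sin (Real.pi * ((inner ℝ) α b / r))|) ≤
        M ^ R.card := by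
      calc _ ≤ (r : ℝ) ^ R.card * (M / r) ^ R.card := mul_le_mul_of_nonneg_left hprod1 (by positivity)
        _ = M ^ R.card := by rw [← mul_pow]; congr 1; field_simp
    exact div_le_div₀ (by positivity) h3 (by positivity) hden
  -- the constants
  obtain ⟨J, hJ1, hJ2⟩ : ∃ J : ℕ, X1 ≤ (4 : ℝ) ^ J ∧ X2 ≤ (4 : ℝ) ^ J := by
    obtain ⟨J1, hJ1⟩ := pow_unbounded_of_one_lt X1 (by norm_num : (1 : ℝ) < 4)
    obtain ⟨J2, hJ2⟩ := pow_unbounded_of_one_lt X2 (by norm_num : (1 : ℝ) < 4)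
    exact ⟨max J1 J2, hJ1.le.trans (pow_le_pow_right₀ (by norm_num) (le_max_left _ _)),
      hJ2.le.trans (pow_le_pow_right₀ (by norm_num) (le_max_right _ _))⟩
  obtain ⟨K, hK⟩ : ∃ K, K = (4 : ℝ) ^ J * X2 / κ := ⟨_, rfl⟩
  have hK0 : 0 < K := by rw [hK]; positivity
  refine ⟨c1 * c2 * κ ^ n * g ^ p / (2 * Real.log 16), by
    have : 0 < Real.log 16 := Real.log_pos (by norm_num)
    positivity, ?_⟩
  filter_upwards [Filter.eventually_ge_atTop (max 16 (Nat.ceil (16 * K ^ 2) + 1))] with r hr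
  have hr16 : 16 ≤ r := (le_max_left _ _).trans hr
  have hrK : 16 * K ^ 2 < (r : ℝ) := by
    have h3 : Nat.ceil (16 * K ^ 2) + 1 ≤ r := (le_max_right _ _).trans hr
    have h4 : 16 * K ^ 2 ≤ (Nat.ceil (16 * K ^ 2) : ℝ) := Nat.le_ceil _
    have h5 : ((Nat.ceil (16 * K ^ 2) : ℕ) : ℝ) + 1 ≤ r := by exact_mod_cast h3
    linarith
  have hr0 : (0 : ℝ) < r := by
    have : (16 : ℝ) ≤ r := by exact_mod_cast hr16
    linarith
  obtain ⟨m, hm⟩ : ∃ m, m = Nat.log 16 r := ⟨_, rfl⟩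
  have hm1 : 16 ^ m ≤ r := by rw [hm]; exact Nat.pow_log_le_self 16 (by omega)
  have hm2 : r < 16 ^ (m + 1) := by rw [hm]; exact Nat.lt_pow_succ_log_self (by norm_num) r
  have hm3 : 1 ≤ m := by
    rw [hm]
    exact Nat.log_pos (by norm_num) hr16
  obtain ⟨q, hq⟩ : ∃ q, q = (4 : ℝ) ^ m := ⟨_, rfl⟩
  have hq0 : 0 < q := by rw [hq]; positivity
  have hq2 : q ^ 2 = (16 : ℝ) ^ m := by
    rw [hq, ← pow_mul, mul_comm, pow_mul]; norm_num
  have hq3 : q ^ 2 ≤ r := by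
    rw [hq2]
    exact_mod_cast hm1
  have hq4 : (r : ℝ) < 16 * q ^ 2 := by
    rw [hq2]
    have h3 : (r : ℝ) < (16 : ℝ) ^ (m + 1) := by exact_mod_cast hm2
    rw [pow_succ] at h3
    linarith
  have hKq : K ≤ q := by
    by_contra hc'
    push Not at hc'
    have h3 : q ^ 2 ≤ K ^ 2 := pow_le_pow_left₀ hq0.le hc'.le 2
    linarith
  -- the pairs
  have hXY : ∀ i ∈ range m, X1 ≤ (4 : ℝ) ^ (J + i) ∧ X2 ≤ κ * r / (4 : ℝ) ^ (J + i) := by
    intro i hi
    rw [mem_range] at hi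
    have h4 : (4 : ℝ) ^ i ≤ q := by rw [hq]; exact pow_le_pow_right₀ (by norm_num) hi.le
    refine ⟨hJ1.trans (pow_le_pow_right₀ (by norm_num) (by omega)), ?_⟩
    rw [le_div_iff₀ (by positivity), pow_add]
    calc X2 * ((4 : ℝ) ^ J * (4 : ℝ) ^ i) ≤ X2 * ((4 : ℝ) ^ J * q) := by
          have : 0 ≤ X2 := by linarith
          gcongr
      _ = κ * (K * q) := by rw [hK]; field_simp
      _ ≤ κ * (q * q) := by gcongr
      _ ≤ κ * r := by
          apply mul_le_mul_of_nonneg_left _ hκ0.le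
          rw [← pow_two]; exact hq3
  have hmem : ∀ i ∈ range m, ∀ a ∈ F1 ((4 : ℝ) ^ (J + i)), ∀ b ∈ F2 (κ * r / (4 : ℝ) ^ (J + i)),
      a ∈ labels R δ r ∧ b ∈ labels R δ r ∧ g ≤ G R r a b := by
    intro i hi a ha b hb
    obtain ⟨i1, i2⟩ := hXY i hi
    have j1 := (hF1 _ i1).1 a ha
    have j2 := (hF2 _ i2).1 b hb
    exact key r (by omega) _ _ (hX1.trans i1) (hX2.trans i2) (by field_simp) a b j1.1 j1.2 j2.1 j2.2
  have hdisj : ∀ i ∈ range m, ∀ j ∈ range m, i < j → ∀ a, a ∈ F1 ((4 : ℝ) ^ (J + i)) → a ∈ F1 ((4 : ℝ) ^ (J + j)) → False := by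
    intro i hi j hj hij a ha ha'
    have j1 := ((hF1 _ (hXY i hi).1).1 a ha).2
    have j2 := ((hF1 _ (hXY j hj).1).1 a ha').2
    have k1 := (cone_norm (by positivity) hηa j1).2
    have k2 := (cone_norm (by positivity) hηa j2).1
    have k3 : (4 : ℝ) ^ (J + i) * 4 ≤ (4 : ℝ) ^ (J + j) := by
      rw [← pow_succ]
      exact pow_le_pow_right₀ (by norm_num) (by omega)
    have k4 : ‖a₀‖ * ((4 : ℝ) ^ (J + i) * 4) ≤ ‖a₀‖ * (4 : ℝ) ^ (J + j) := mul_le_mul_of_nonneg_left k3 hA.le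
    have k5 : 0 < ‖a₀‖ * (4 : ℝ) ^ (J + i) := by positivity
    linarith
  classical
  have hsum : ∑ i ∈ range m, ∑ x ∈ F1 ((4 : ℝ) ^ (J + i)) ×ˢ F2 (κ * r / (4 : ℝ) ^ (J + i)), G R r x.1 x.2 ^ p ≤
      ∑ a ∈ labels R δ r, ∑ b ∈ labels R δ r, G R r a b ^ p := by
    rw [← Finset.sum_biUnion, ← Finset.sum_product' (labels R δ r) (labels R δ r) (fun a b => G R r a b ^ p)]
    · apply Finset.sum_le_sum_of_subset_of_nonneg
      · intro x hx
        rw [Finset.mem_biUnion] at hx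
        obtain ⟨i, hi, hx⟩ := hx
        rw [Finset.mem_product] at hx
        have := hmem i hi x.1 hx.1 x.2 hx.2
        exact Finset.mem_product.2 ⟨this.1, this.2.1⟩
      · intro x _ _
        exact pow_nonneg (G_nonneg _ _ _ _) _
    · intro i hi j hj hij
      rw [Function.onFun, Finset.disjoint_left]
      intro x hx hx'
      rw [Finset.mem_product] at hx hx'
      rcases lt_or_gt_of_ne hij with h | h
      · exact hdisj i hi j hj h x.1 hx.1 hx'.1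
      · exact hdisj j hj i hi h x.1 hx'.1 hx.1
  have hterm : ∀ i ∈ range m, c1 * c2 * κ ^ n * (r : ℝ) ^ n * g ^ p ≤
      ∑ x ∈ F1 ((4 : ℝ) ^ (J + i)) ×ˢ F2 (κ * r / (4 : ℝ) ^ (J + i)), G R r x.1 x.2 ^ p := by
    intro i hi
    have l1 : ((F1 ((4 : ℝ) ^ (J + i)) ×ˢ F2 (κ * r / (4 : ℝ) ^ (J + i))).card : ℝ) * g ^ p ≤
        ∑ x ∈ F1 ((4 : ℝ) ^ (J + i)) ×ˢ F2 (κ * r / (4 : ℝ) ^ (J + i)), G R r x.1 x.2 ^ p := by
      rw [← nsmul_eq_mul]
      apply Finset.card_nsmul_le_sum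
      intro x hx
      rw [Finset.mem_product] at hx
      exact pow_le_pow_left₀ hg0.le (hmem i hi x.1 hx.1 x.2 hx.2).2.2 p
    refine le_trans ?_ l1
    have l2 := (hF1 _ (hXY i hi).1).2
    have l3 := (hF2 _ (hXY i hi).2).2
    rw [Finset.card_product, Nat.cast_mul]
    have l4 := mul_le_mul l2 l3 (by
      have : 0 < κ * r / (4 : ℝ) ^ (J + i) := by positivity
      positivity) (Nat.cast_nonneg _)
    have l5 : c1 * ((4 : ℝ) ^ (J + i)) ^ n * (c2 * (κ * r / (4 : ℝ) ^ (J + i)) ^ n) = c1 * c2 * κ ^ n * (r : ℝ) ^ n := by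
      have : ((4 : ℝ) ^ (J + i)) ^ n * (κ * r / (4 : ℝ) ^ (J + i)) ^ n = (κ * r) ^ n := by
        rw [← mul_pow]; congr 1; field_simp
      calc c1 * ((4 : ℝ) ^ (J + i)) ^ n * (c2 * (κ * r / (4 : ℝ) ^ (J + i)) ^ n) =
          c1 * c2 * (((4 : ℝ) ^ (J + i)) ^ n * (κ * r / (4 : ℝ) ^ (J + i)) ^ n) := by ring
        _ = c1 * c2 * κ ^ n * (r : ℝ) ^ n := by rw [this, mul_pow]; ring
    rw [l5] at l4
    exact mul_le_mul_of_nonneg_right l4 (by positivity)
  refine le_trans ?_ ((Finset.sum_le_sum hterm).trans hsum)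
  rw [Finset.sum_const, Finset.card_range, nsmul_eq_mul]
  have hl16 : 0 < Real.log 16 := Real.log_pos (by norm_num)
  have hlog : Real.log r ≤ 2 * m * Real.log 16 := by
    have h3 : (r : ℝ) ≤ (16 : ℝ) ^ (m + 1) := by exact_mod_cast hm2.le
    have h4 := Real.log_le_log hr0 h3
    rw [Real.log_pow] at h4
    have h5 : (1 : ℝ) ≤ m := by exact_mod_cast hm3
    push_cast at h4
    nlinarith
  have hpos : 0 ≤ c1 * c2 * κ ^ n * g ^ p * (r : ℝ) ^ n := by positivity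
  calc c1 * c2 * κ ^ n * g ^ p / (2 * Real.log 16) * ((r : ℝ) ^ n * Real.log r) =
      (c1 * c2 * κ ^ n * g ^ p * (r : ℝ) ^ n) / (2 * Real.log 16) * Real.log r := by ring
    _ ≤ (c1 * c2 * κ ^ n * g ^ p * (r : ℝ) ^ n) / (2 * Real.log 16) * (2 * m * Real.log 16) := by
        apply mul_le_mul_of_nonneg_left hlog
        positivity
    _ = m * (c1 * c2 * κ ^ n * (r : ℝ) ^ n * g ^ p) := by field_simp

end H391.AE.P_low
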