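import Mathlib
import Pool.Agent.H391.AE.S

set_option autoImplicit false

open Finset
open scoped InnerProductSpace

namespace H391.AE.P_lp

open H391.AE

variable {n : ℕ}

lemma sg_mul (w v : V n ≃ₗᵢ[ℝ] V n) : sg (w * v) = sg w * sg v := by
  unfold sg
  have h : ((w * v).toLinearEquiv : V n →ₗ[ℝ] V n) =
      (w.toLinearEquiv : V n →ₗ[ℝ] V n) ∘ₗ (v.toLinearEquiv : V n →ₗ[ℝ] V n) := rfl
  rw [h, LinearMap.det_comp]

lemma sg_one : sg (1 : V n ≃ₗᵢ[ℝ] V n) = 1 := by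
  unfold sg
  have h : ((1 : V n ≃ₗᵢ[ℝ] V n).toLinearEquiv : V n →ₗ[ℝ] V n) = LinearMap.id := rfl
  rw [h, LinearMap.det_id]

/-- the antisymmetric polynomial of degree N -/
noncomputable def P (R : Finset (V n)) (N : ℕ) (a b : V n) : ℝ :=
  ∑ w ∈ Wf R, sg w * (inner ℝ) (w a) b ^ N

lemma P_left (R : Finset (V n)) (N : ℕ) (hmem : ∀ w, w ∈ Wf R ↔ w ∈ W R)
    (hsg : ∀ w ∈ Wf R, sg w = 1 ∨ sg w = -1) (g : V n ≃ₗᵢ[ℝ] V n) (hg : g ∈ Wf R) (a b : V n) :
    P R N (g a) b = sg g * P R N a b := by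
  unfold P
  rw [Finset.mul_sum]
  have hgW : g ∈ W R := (hmem g).1 hg
  refine Finset.sum_nbij' (fun w => w * g) (fun w => w * g⁻¹) ?_ ?_ ?_ ?_ ?_
  · intro w hw
    exact (hmem _).2 ((W R).mul_mem ((hmem w).1 hw) hgW)
  · intro w hw
    exact (hmem _).2 ((W R).mul_mem ((hmem w).1 hw) ((W R).inv_mem hgW))
  · intro w _
    simp
  · intro w _
    simp
  · intro w _
    have h1 : (w * g) a = w (g a) := rfl
    have h2 : sg g * sg g = 1 := by
      rcases hsg g hg with h | h <;> rw [h] <;> norm_num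
    rw [h1, sg_mul]
    calc sg w * (inner ℝ) (w (g a)) b ^ N = sg w * (sg g * sg g) * (inner ℝ) (w (g a)) b ^ N := by
          rw [h2, mul_one]
      _ = sg g * (sg w * sg g * (inner ℝ) (w (g a)) b ^ N) := by ring

lemma P_right (R : Finset (V n)) (N : ℕ) (hmem : ∀ w, w ∈ Wf R ↔ w ∈ W R)
    (g : V n ≃ₗᵢ[ℝ] V n) (hg : g ∈ Wf R) (a b : V n) :
    P R N a (g b) = sg g * P R N a b := by
  unfold P
  rw [Finset.mul_sum]
  have hgW : g ∈ W R := (hmem g).1 hg
  refine Finset.sum_nbij' (fun w => g⁻¹ * w) (fun w => g * w) ?_ ?_ ?_ ?_ ?_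
  · intro w hw
    exact (hmem _).2 ((W R).mul_mem ((W R).inv_mem hgW) ((hmem w).1 hw))
  · intro w hw
    exact (hmem _).2 ((W R).mul_mem hgW ((hmem w).1 hw))
  · intro w _
    simp
  · intro w _
    simp
  · intro w _
    have h1 : g ((g⁻¹ * w) a) = w a := by
      have h3 : (g * (g⁻¹ * w)) a = w a := by simp
      exact h3
    have h2 : (inner ℝ) (w a) (g b) = (inner ℝ) ((g⁻¹ * w) a) b := by
      rw [← h1, g.inner_map_map]
    have h4 : sg g * sg (g⁻¹ * w) = sg w := by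
      rw [← sg_mul]
      simp
    rw [h2, ← mul_assoc, h4]

lemma P_smul (R : Finset (V n)) (N : ℕ) (s t : ℝ) (a b : V n) :
    P R N (s • a) (t • b) = (s * t) ^ N * P R N a b := by
  unfold P
  rw [Finset.mul_sum]
  refine Finset.sum_congr rfl fun w _ => ?_
  rw [map_smul, real_inner_smul_left, real_inner_smul_right]
  ring

lemma P_cont (R : Finset (V n)) (N : ℕ) : Continuous fun p : V n × V n => P R N p.1 p.2 := by
  unfold P
  refine continuous_finsetSum _ fun w _ => ?_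
  refine continuous_const.mul (Continuous.pow ?_ N)
  exact (w.continuous.comp continuous_fst).inner continuous_snd

/-- near a regular pair -/
lemma near (R : Finset (V n)) (δ : V n) (N : ℕ) (a₀ b₀ : V n) (hP : P R N a₀ b₀ ≠ 0)
    (ha : ∀ α ∈ pos R δ, 0 < (inner ℝ) α a₀) (hb : ∀ α ∈ pos R δ, 0 < (inner ℝ) α b₀) :
    ∃ η : ℝ, 0 < η ∧ ∀ a b : V n, ‖a - a₀‖ ≤ η → ‖b - b₀‖ ≤ η →
      |P R N a₀ b₀| / 2 ≤ |P R N a b| ∧ (∀ α ∈ pos R δ, 0 < (inner ℝ) α a) ∧
        (∀ α ∈ pos R δ, 0 < (inner ℝ) α b) := by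
  have h1 : ∀ᶠ p : V n × V n in nhds (a₀, b₀), |P R N a₀ b₀| / 2 < |P R N p.1 p.2| := by
    have hc : Continuous fun p : V n × V n => |P R N p.1 p.2| := (P_cont R N).abs
    refine hc.continuousAt.eventually (lt_mem_nhds ?_)
    have : 0 < |P R N a₀ b₀| := abs_pos.2 hP
    simp only
    linarith
  have h2 : ∀ᶠ p : V n × V n in nhds (a₀, b₀), ∀ α ∈ pos R δ, 0 < (inner ℝ) α p.1 := by
    refine (Finset.eventually_all _).2 fun α hα => ?_
    have hc : Continuous fun p : V n × V n => (inner ℝ) α p.1 := continuous_const.inner continuous_fst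
    exact hc.continuousAt.eventually (lt_mem_nhds (ha α hα))
  have h3 : ∀ᶠ p : V n × V n in nhds (a₀, b₀), ∀ α ∈ pos R δ, 0 < (inner ℝ) α p.2 := by
    refine (Finset.eventually_all _).2 fun α hα => ?_
    have hc : Continuous fun p : V n × V n => (inner ℝ) α p.2 := continuous_const.inner continuous_snd
    exact hc.continuousAt.eventually (lt_mem_nhds (hb α hα))
  obtain ⟨η, hη, hball⟩ := Metric.nhds_basis_closedBall.eventually_iff.1 (h1.and (h2.and h3))
  refine ⟨η, hη, fun a b hna hnb => ?_⟩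
  have hmem : ((a, b) : V n × V n) ∈ Metric.closedBall (a₀, b₀) η := by
    rw [Metric.mem_closedBall, Prod.dist_eq, dist_eq_norm, dist_eq_norm]
    exact max_le hna hnb
  have := hball hmem
  exact ⟨this.1.le, this.2.1, this.2.2⟩

theorem main : S_W → S_alt → S_pol → S_tay → S_ch → S_lp := by
  intro hW _ hpol htay hch n R hR δ hδ
  have hRS : IsRS R := hR.toIsRS
  obtain ⟨hmem, _, hsg, hrefl, _, _, _, hreflx, _⟩ := hW n R hRS
  obtain ⟨C, hC, hcard, hE⟩ := htay n R hRS δ hδ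
  obtain ⟨a₁, b₁, hP1⟩ := hpol n R hRS δ hδ
  set N := (pos R δ).card with hN
  have hP1' : P R N a₁ b₁ ≠ 0 := hP1
  have hreflmem : ∀ α ∈ R, refl α ∈ Wf R := fun α hα =>
    (hmem _).2 (Subgroup.subset_closure ⟨α, hα, rfl⟩)
  have hne0 : ∀ α ∈ R, α ≠ 0 := by
    intro α hα h0
    exact hRS.ne0 (h0 ▸ hα)
  have hfix : ∀ α ∈ R, ∀ x : V n, (inner ℝ) α x = 0 → refl α x = x := by
    intro α hα x hx
    rw [hreflx α (hne0 α hα) x, hx]
    simp
  have hrega : Reg R a₁ := by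
    intro α hα h0
    have h0' : (inner ℝ) α a₁ = 0 := by rw [real_inner_comm]; exact h0
    have h1 := P_left R N hmem hsg (refl α) (hreflmem α hα) a₁ b₁
    rw [hfix α hα a₁ h0', hrefl α hα] at h1
    apply hP1'
    linarith
  have hregb : Reg R b₁ := by
    intro α hα h0
    have h0' : (inner ℝ) α b₁ = 0 := by rw [real_inner_comm]; exact h0
    have h1 := P_right R N hmem (refl α) (hreflmem α hα) a₁ b₁
    rw [hfix α hα b₁ h0', hrefl α hα] at h1
    apply hP1'
    linarith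
  obtain ⟨u, hu, hua⟩ := hch n R hRS δ hδ a₁ hrega
  obtain ⟨v, hv, hvb⟩ := hch n R hRS δ hδ b₁ hregb
  have hsgne : ∀ w ∈ Wf R, sg w ≠ 0 := by
    intro w hw
    rcases hsg w hw with h | h <;> rw [h] <;> norm_num
  have hP0 : P R N (u a₁) (v b₁) ≠ 0 := by
    rw [P_left R N hmem hsg u hu, P_right R N hmem v hv]
    exact mul_ne_zero (hsgne u hu) (mul_ne_zero (hsgne v hv) hP1')
  set a₀ := u a₁ with ha₀
  set b₀ := v b₁ with hb₀
  obtain ⟨η₁, hη₁, hnear⟩ := near R δ N a₀ b₀ hP0 hua hvb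
  have ha1 : a₁ ≠ 0 := by
    obtain ⟨α, hα, _⟩ := hR.long
    intro h0
    exact hrega α hα (by rw [h0, inner_zero_left])
  have hb1 : b₁ ≠ 0 := by
    obtain ⟨α, hα, _⟩ := hR.long
    intro h0
    exact hregb α hα (by rw [h0, inner_zero_left])
  have ha0 : 0 < ‖a₀‖ := by
    rw [ha₀, u.norm_map]
    exact norm_pos_iff.2 ha1
  have hb0 : 0 < ‖b₀‖ := by
    rw [hb₀, v.norm_map]
    exact norm_pos_iff.2 hb1
  set c₁ := |P R N a₀ b₀| / 2 with hc₁
  have hc₁pos : 0 < c₁ := by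
    have : 0 < |P R N a₀ b₀| := abs_pos.2 hP0
    positivity
  set K := (‖a₀‖ + 1) * (‖b₀‖ + 1) with hK
  have hKpos : 0 < K := by positivity
  have hfac : (0 : ℝ) < (N.factorial : ℝ) := by exact_mod_cast N.factorial_pos
  set M := C * K ^ (N + 1) + 1 with hM
  have hMpos : 0 < M := by positivity
  set q := c₁ / (2 * (N.factorial : ℝ)) with hq
  have hqpos : 0 < q := by positivity
  obtain ⟨η, hηpos, e1, e2, e3, e4, e5, e6⟩ : ∃ η : ℝ, 0 < η ∧ η ≤ η₁ ∧ η ≤ 1 ∧ η ≤ 1 / K ∧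
      η ≤ q / M ∧ η < ‖a₀‖ / 4 ∧ η < ‖b₀‖ / 4 := by
    refine ⟨min (min (min η₁ 1) (min (1 / K) (q / M))) (min (‖a₀‖ / 8) (‖b₀‖ / 8)), ?_, ?_, ?_, ?_,
      ?_, ?_, ?_⟩
    · positivity
    · exact (min_le_left _ _).trans ((min_le_left _ _).trans (min_le_left _ _))
    · exact (min_le_left _ _).trans ((min_le_left _ _).trans (min_le_right _ _))
    · exact (min_le_left _ _).trans ((min_le_right _ _).trans (min_le_left _ _))
    · exact (min_le_left _ _).trans ((min_le_right _ _).trans (min_le_right _ _))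
    · refine lt_of_le_of_lt ((min_le_right _ _).trans (min_le_left _ _)) ?_
      linarith
    · refine lt_of_le_of_lt ((min_le_right _ _).trans (min_le_right _ _)) ?_
      linarith
  refine ⟨a₀, b₀, η, q ^ 2, hηpos, by positivity, e5, e6, ?_, ?_, ?_⟩
  · intro a hna
    exact (hnear a b₀ (hna.trans e1) (by simpa using hη₁.le)).2.1
  · intro b hnb
    exact (hnear a₀ b (by simpa using hη₁.le) (hnb.trans e1)).2.2
  · intro s t hs ht a b hna hnb hst
    have hst0 : 0 < s * t := mul_pos hs ht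
    -- the rescaled vectors
    have hna' : ‖s⁻¹ • a - a₀‖ ≤ η := by
      have h1 : s⁻¹ • a - a₀ = s⁻¹ • (a - s • a₀) := by
        rw [smul_sub, smul_smul, inv_mul_cancel₀ hs.ne', one_smul]
      rw [h1, norm_smul, norm_inv, Real.norm_eq_abs, abs_of_pos hs]
      rw [inv_mul_le_iff₀ hs]
      linarith
    have hnb' : ‖t⁻¹ • b - b₀‖ ≤ η := by
      have h1 : t⁻¹ • b - b₀ = t⁻¹ • (b - t • b₀) := by
        rw [smul_sub, smul_smul, inv_mul_cancel₀ ht.ne', one_smul]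
      rw [h1, norm_smul, norm_inv, Real.norm_eq_abs, abs_of_pos ht]
      rw [inv_mul_le_iff₀ ht]
      linarith
    have hPab : c₁ * (s * t) ^ N ≤ |P R N a b| := by
      have h1 := (hnear (s⁻¹ • a) (t⁻¹ • b) (hna'.trans e1) (hnb'.trans e1)).1
      have h2 := P_smul R N s t (s⁻¹ • a) (t⁻¹ • b)
      rw [smul_smul, smul_smul, mul_inv_cancel₀ hs.ne', mul_inv_cancel₀ ht.ne', one_smul,
        one_smul] at h2
      rw [h2, abs_mul, abs_of_pos (pow_pos hst0 N), mul_comm]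
      exact mul_le_mul_of_nonneg_left h1 (pow_pos hst0 N).le
    have hab : ‖a‖ * ‖b‖ ≤ K * (s * t) := by
      have h1 : ‖a‖ ≤ (‖a₀‖ + 1) * s := by
        have h3 : a = (a - s • a₀) + s • a₀ := by abel
        calc ‖a‖ = ‖(a - s • a₀) + s • a₀‖ := by rw [← h3]
          _ ≤ ‖a - s • a₀‖ + ‖s • a₀‖ := norm_add_le _ _
          _ ≤ η * s + s * ‖a₀‖ := by
              rw [norm_smul, Real.norm_eq_abs, abs_of_pos hs]
              linarith
          _ ≤ (‖a₀‖ + 1) * s := by nlinarith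
      have h2 : ‖b‖ ≤ (‖b₀‖ + 1) * t := by
        have h3 : b = (b - t • b₀) + t • b₀ := by abel
        calc ‖b‖ = ‖(b - t • b₀) + t • b₀‖ := by rw [← h3]
          _ ≤ ‖b - t • b₀‖ + ‖t • b₀‖ := norm_add_le _ _
          _ ≤ η * t + t * ‖b₀‖ := by
              rw [norm_smul, Real.norm_eq_abs, abs_of_pos ht]
              linarith
          _ ≤ (‖b₀‖ + 1) * t := by nlinarith
      calc ‖a‖ * ‖b‖ ≤ ((‖a₀‖ + 1) * s) * ((‖b₀‖ + 1) * t) := by gcongr
        _ = K * (s * t) := by rw [hK]; ring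
    have hab1 : ‖a‖ * ‖b‖ ≤ 1 := by
      refine hab.trans ?_
      have h1 : s * t ≤ 1 / K := hst.trans e3
      calc K * (s * t) ≤ K * (1 / K) := by gcongr
        _ = 1 := by field_simp
    have hT := hE a b hab1
    have hrem : C * (‖a‖ * ‖b‖) ^ (N + 1) ≤ q * (s * t) ^ N := by
      have h1 : (‖a‖ * ‖b‖) ^ (N + 1) ≤ (K * (s * t)) ^ (N + 1) := by gcongr
      have h2 : C * K ^ (N + 1) * (s * t) ≤ q := by
        have h3 : s * t ≤ q / M := hst.trans e4
        have h4 : C * K ^ (N + 1) ≤ M := by rw [hM]; linarith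
        calc C * K ^ (N + 1) * (s * t) ≤ M * (q / M) := by gcongr
          _ = q := by field_simp
      calc C * (‖a‖ * ‖b‖) ^ (N + 1) ≤ C * (K * (s * t)) ^ (N + 1) := by gcongr
        _ = (C * K ^ (N + 1) * (s * t)) * (s * t) ^ N := by ring
        _ ≤ q * (s * t) ^ N := by gcongr
    have hmain : ‖Complex.I ^ N / (N.factorial : ℂ) * ((P R N a b : ℝ) : ℂ)‖ =
        |P R N a b| / (N.factorial : ℝ) := by
      rw [norm_mul, norm_div, norm_pow, Complex.norm_I, one_pow, Complex.norm_natCast,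
        Complex.norm_real, Real.norm_eq_abs]
      ring
    have hlow : q * (s * t) ^ N ≤ ‖E R a (b, 0)‖ := by
      have h1 : ‖Complex.I ^ N / (N.factorial : ℂ) * ((P R N a b : ℝ) : ℂ)‖ ≤
          ‖E R a (b, 0)‖ + ‖E R a (b, 0) - Complex.I ^ N / (N.factorial : ℂ) *
            ((P R N a b : ℝ) : ℂ)‖ := by
        have := norm_sub_le (E R a (b, 0)) (E R a (b, 0) - Complex.I ^ N / (N.factorial : ℂ) *
            ((P R N a b : ℝ) : ℂ))
        simpa using this
      rw [hmain] at h1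
      have h2 : 2 * q * (s * t) ^ N ≤ |P R N a b| / (N.factorial : ℝ) := by
        rw [le_div_iff₀ hfac]
        have h3 : 2 * q * (s * t) ^ N * (N.factorial : ℝ) = c₁ * (s * t) ^ N := by
          rw [hq]
          field_simp
        rw [h3]
        exact hPab
      have h4 : ‖E R a (b, 0) - Complex.I ^ N / (N.factorial : ℂ) *
            ((P R N a b : ℝ) : ℂ)‖ ≤ q * (s * t) ^ N := hT.trans hrem
      linarith
    have h5 : (q * (s * t) ^ N) ^ 2 ≤ ‖E R a (b, 0)‖ ^ 2 := by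
      have : 0 ≤ q * (s * t) ^ N := by positivity
      gcongr
    rw [← hcard]
    calc q ^ 2 * (s * t) ^ (2 * N) = (q * (s * t) ^ N) ^ 2 := by ring
      _ ≤ ‖E R a (b, 0)‖ ^ 2 := h5

end H391.AE.P_lp
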