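import Mathlib
import Pool.Agent.H391.AE.S

set_option autoImplicit false

open Finset
open scoped InnerProductSpace

namespace H391.AE.P_nd

open H391.AE

theorem main : S_q → S_nd := by
  intro hq n R hR r hr a ha α hα
  obtain ⟨q, hq1, hq3, hqe⟩ := hq n R hR α hα
  obtain ⟨hwt, hgood⟩ := ha
  obtain ⟨z, hz⟩ := hwt α hα
  obtain ⟨hne, hlt⟩ := hgood α hα
  have hr0 : (0 : ℝ) < r := by exact_mod_cast hr
  have hq0 : (0 : ℝ) < q := by exact_mod_cast hq1
  have hq3' : (q : ℝ) ≤ 3 := by exact_mod_cast hq3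
  obtain ⟨x, hx⟩ : ∃ x : ℝ, x = inner ℝ α a := ⟨_, rfl⟩
  rw [← hx] at hz hne hlt ⊢
  have hzx : (q : ℝ) * x = z := by
    have h1 : (q : ℝ) * (2 * x) = (z : ℝ) * ((q : ℝ) * inner ℝ α α) := by
      rw [hz]
      ring
    rw [hqe] at h1
    linarith
  obtain ⟨m, hm⟩ : ∃ m : ℤ, m = round (x / r) := ⟨_, rfl⟩
  unfold nd
  rw [← hm]
  have hint : z - m * (q * r) ≠ 0 := by
    intro h
    have h1 : (z : ℝ) = m * (q * r) := by
      have h2 : z = m * (q * r) := by omega
      exact_mod_cast h2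
    have h2 : x = m * r := by
      have h3 : (q : ℝ) * x = q * (m * r) := by
        rw [hzx, h1]
        ring
      exact mul_left_cancel₀ hq0.ne' h3
    have hm0 : m ≠ 0 := by
      rintro rfl
      apply hne
      rw [h2]
      simp
    have h4 : (1 : ℝ) ≤ |(m : ℝ)| := by
      have : (1 : ℤ) ≤ |m| := Int.one_le_abs hm0
      exact_mod_cast this
    rw [h2, abs_mul, abs_of_pos hr0] at hlt
    nlinarith
  have habs : (1 : ℝ) ≤ |(z : ℝ) - m * (q * r)| := by
    have : (1 : ℤ) ≤ |z - m * (q * r)| := Int.one_le_abs hint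
    exact_mod_cast this
  have he : x / r - m = ((z : ℝ) - m * (q * r)) / (q * r) := by
    rw [← hzx]
    field_simp
  rw [he, abs_div, abs_of_pos (by positivity : (0 : ℝ) < q * r)]
  calc 1 / (3 * (r : ℝ)) ≤ 1 / (q * r) := by
        apply one_div_le_one_div_of_le (by positivity)
        exact mul_le_mul_of_nonneg_right hq3' hr0.le
    _ ≤ |(z : ℝ) - m * (q * r)| / (q * r) := div_le_div_of_nonneg_right habs (by positivity)

end H391.AE.P_nd
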