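import Mathlib
import Pool.Agent.H391.AE.S

set_option autoImplicit false

open Finset
open scoped InnerProductSpace

namespace H391.AE.P_pol

/-- polarisation -/
theorem polar {ι κ E : Type} [AddCommGroup E] [Module ℝ E] [DecidableEq κ] (A : Finset ι)
    (L : ι → E →ₗ[ℝ] ℝ) (h : κ → E) (s : Finset κ) : ∀ c : ι → ℝ,
    (∀ a : E, ∑ w ∈ A, c w * (L w a) ^ s.card = 0) → ∑ w ∈ A, c w * ∏ j ∈ s, L w (h j) = 0 := by
  induction s using Finset.induction_on with
  | empty =>
    intro c hc
    simpa using hc 0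
  | insert j s hj ih =>
    intro c hc
    have step : ∀ a : E, ∑ w ∈ A, (c w * L w (h j)) * (L w a) ^ s.card = 0 := by
      intro a
      have hd : HasDerivAt (fun t : ℝ => ∑ w ∈ A, c w * (L w a + t * L w (h j)) ^ (s.card + 1))
          (∑ w ∈ A, c w * (((s.card + 1 : ℕ) : ℝ) * (L w a + 0 * L w (h j)) ^ s.card *
            (1 * L w (h j)))) 0 := by
        apply HasDerivAt.fun_sum
        intro w _
        apply HasDerivAt.const_mul
        have h1 : HasDerivAt (fun t : ℝ => L w a + t * L w (h j)) (1 * L w (h j)) 0 :=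
          ((hasDerivAt_id (0 : ℝ)).mul_const (L w (h j))).const_add (L w a)
        have h2 := h1.fun_pow (s.card + 1)
        simpa using h2
      have hz : (fun t : ℝ => ∑ w ∈ A, c w * (L w a + t * L w (h j)) ^ (s.card + 1)) =
          fun _ => (0 : ℝ) := by
        funext t
        have := hc (a + t • h j)
        rw [card_insert_of_notMem hj] at this
        simpa [map_add, map_smul, smul_eq_mul] using this
      rw [hz] at hd
      have h0 := hd.unique (hasDerivAt_const (0 : ℝ) (0 : ℝ))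
      have h3 : ∑ w ∈ A, c w * (((s.card + 1 : ℕ) : ℝ) * (L w a + 0 * L w (h j)) ^ s.card *
            (1 * L w (h j))) = ((s.card + 1 : ℕ) : ℝ) * ∑ w ∈ A, (c w * L w (h j)) * (L w a) ^ s.card := by
        rw [mul_sum]
        apply sum_congr rfl
        intro w _
        rw [zero_mul, add_zero, one_mul]
        ring
      rw [h3] at h0
      rcases mul_eq_zero.1 h0 with h4 | h4
      · exfalso
        have : ((s.card + 1 : ℕ) : ℝ) ≠ 0 := by positivity
        exact this h4
      · exact h4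
    have := ih (fun w => c w * L w (h j)) step
    rw [← this]
    apply sum_congr rfl
    intro w _
    rw [prod_insert hj]
    ring

theorem sg_mul {n : ℕ} (w₁ w₂ : V n ≃ₗᵢ[ℝ] V n) : sg (w₁ * w₂) = sg w₁ * sg w₂ := by
  unfold sg
  rw [← LinearMap.det_comp]
  rfl

theorem sg_one {n : ℕ} : sg (1 : V n ≃ₗᵢ[ℝ] V n) = 1 := by
  unfold sg
  have : (((1 : V n ≃ₗᵢ[ℝ] V n).toLinearEquiv : V n →ₗ[ℝ] V n)) = LinearMap.id := rfl
  rw [this, LinearMap.det_id]

theorem sg_inv {n : ℕ} (w : V n ≃ₗᵢ[ℝ] V n) : sg w * sg w⁻¹ = 1 := by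
  rw [← sg_mul, mul_inv_cancel, sg_one]

theorem gen {n : ℕ} {R : Finset (V n)} (hR : IsRS R) {δ : V n} (hδ : Reg R δ)
    (hneg : ∀ α ∈ R, -α ∈ R)
    (hrefl : ∀ α : V n, α ≠ 0 → ∀ x : V n, refl α x = x - (2 * (inner ℝ) α x / (inner ℝ) α α) • α)
    {β : V n} (hβ : β ∈ R) (x : V n) :
    ∏ α ∈ pos R δ, (inner ℝ) α (refl β x) = -∏ α ∈ pos R δ, (inner ℝ) α x := by
  classical
  have hβ0 : β ≠ 0 := fun e => hR.ne0 (e ▸ hβ)
  set s := refl β with hs
  have hss : ∀ y, s (s y) = y := fun y => Submodule.reflection_reflection _ y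
  have hsR : ∀ α ∈ R, s α ∈ R := fun α hα => hR.refl_mem β hβ α hα
  have hadj : ∀ α y, (inner ℝ) α (s y) = (inner ℝ) (s α) y := by
    intro α y
    have := s.inner_map_map α (s y)
    rw [hss] at this
    exact this.symm
  have hsβ : s β = -β := by
    rw [hs, hrefl β hβ0]
    have : (inner ℝ) β β ≠ 0 := inner_self_ne_zero.2 hβ0
    rw [mul_div_assoc, div_self this, mul_one, two_smul]
    abel
  obtain ⟨b, hbpos, hb⟩ : ∃ b ∈ pos R δ, b = β ∨ b = -β := by
    rcases lt_or_gt_of_ne (hδ β hβ) with h | h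
    · refine ⟨-β, ?_, Or.inr rfl⟩
      unfold pos
      rw [mem_filter]
      exact ⟨hneg β hβ, by rw [inner_neg_right]; linarith⟩
    · refine ⟨β, ?_, Or.inl rfl⟩
      unfold pos
      rw [mem_filter]
      exact ⟨hβ, h⟩
  have memp : ∀ α, α ∈ pos R δ ↔ α ∈ R ∧ 0 < (inner ℝ) δ α := by
    intro α; unfold pos; rw [mem_filter]
  have hsb : s b = -b := by
    rcases hb with rfl | rfl
    · exact hsβ
    · rw [map_neg, hsβ]
  have hbu : ∀ α ∈ pos R δ, s α = -α → α = b := by
    intro α hα h
    have h1 : α ∈ R := ((memp α).1 hα).1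
    rw [hs, hrefl β hβ0] at h
    set c := 2 * (inner ℝ) β α / (inner ℝ) β β with hc
    have h2 : α = (c / 2) • β := by
      have : (2 : ℝ) • α = c • β := by
        rw [two_smul]
        have := sub_eq_iff_eq_add.1 h
        rw [add_comm] at this
        calc α + α = α + (c • β + -α) := by rw [← this]
          _ = c • β := by abel
      rw [div_eq_inv_mul, mul_smul, ← this, smul_smul]
      norm_num
    have h3 : α = β ∨ α = -β := by
      rcases hR.red β hβ (c / 2) (h2 ▸ h1) with h4 | h4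
      · left; rw [h2, h4, one_smul]
      · right; rw [h2, h4, neg_smul, one_smul]
    have p1 := ((memp α).1 hα).2
    have p2 := ((memp b).1 hbpos).2
    rcases h3 with rfl | rfl
    · rcases hb with rfl | rfl
      · rfl
      · rw [inner_neg_right] at p2; linarith
    · rcases hb with rfl | rfl
      · rw [inner_neg_right] at p1; linarith
      · rfl
  set τ : V n → V n := fun α => if 0 < (inner ℝ) δ (s α) then s α else -s α with hτ
  set ε : V n → ℝ := fun α => if 0 < (inner ℝ) δ (s α) then 1 else -1 with hε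
  have hτpos : ∀ α ∈ pos R δ, τ α ∈ pos R δ := by
    intro α hα
    have h1 : s α ∈ R := hsR α ((memp α).1 hα).1
    by_cases h : 0 < (inner ℝ) δ (s α)
    · rw [hτ]; simp only [h, if_true]
      exact (memp _).2 ⟨h1, h⟩
    · rw [hτ]; simp only [h, if_false]
      refine (memp _).2 ⟨hneg _ h1, ?_⟩
      rw [inner_neg_right]
      have := hδ _ h1
      rcases lt_or_gt_of_ne this with h2 | h2
      · linarith
      · exact absurd h2 h
  have hττ : ∀ α ∈ pos R δ, τ (τ α) = α ∧ ε (τ α) = ε α := by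
    intro α hα
    have p1 := ((memp α).1 hα).2
    by_cases h : 0 < (inner ℝ) δ (s α)
    · have e1 : τ α = s α := by rw [hτ]; simp only [h, if_true]
      have e2 : ε α = 1 := by rw [hε]; simp only [h, if_true]
      rw [e1, e2]
      constructor
      · rw [hτ]; simp only [hss, p1, if_true]
      · rw [hε]; simp only [hss, p1, if_true]
    · have e1 : τ α = -s α := by rw [hτ]; simp only [h, if_false]
      have e2 : ε α = -1 := by rw [hε]; simp only [h, if_false]
      have e3 : ¬ 0 < (inner ℝ) δ (-α) := by rw [inner_neg_right]; linarith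
      rw [e1, e2]
      constructor
      · rw [hτ]; simp only [map_neg, hss, e3, if_false, neg_neg]
      · rw [hε]; simp only [map_neg, hss, e3, if_false]
  have hfac : ∀ α y, (inner ℝ) α (s y) = ε α * (inner ℝ) (τ α) y := by
    intro α y
    rw [hadj]
    by_cases h : 0 < (inner ℝ) δ (s α)
    · have e1 : τ α = s α := by rw [hτ]; simp only [h, if_true]
      have e2 : ε α = 1 := by rw [hε]; simp only [h, if_true]
      rw [e1, e2, one_mul]
    · have e1 : τ α = -s α := by rw [hτ]; simp only [h, if_false]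
      have e2 : ε α = -1 := by rw [hε]; simp only [h, if_false]
      rw [e1, e2, inner_neg_left]; ring
  have hprod : ∏ α ∈ pos R δ, (inner ℝ) (τ α) x = ∏ α ∈ pos R δ, (inner ℝ) α x := by
    apply Finset.prod_nbij' τ τ
    · exact hτpos
    · exact hτpos
    · exact fun α hα => (hττ α hα).1
    · exact fun α hα => (hττ α hα).1
    · intro α _; rfl
  have hεb : ε b = -1 := by
    have : ¬ 0 < (inner ℝ) δ (s b) := by
      rw [hsb, inner_neg_right]
      have := ((memp b).1 hbpos).2
      linarith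
    rw [hε]; simp only [this, if_false]
  have hεs : ∀ α, ε α = 1 ∨ ε α = -1 := by
    intro α
    by_cases h : 0 < (inner ℝ) δ (s α)
    · left; rw [hε]; simp only [h, if_true]
    · right; rw [hε]; simp only [h, if_false]
  have hτb : τ b = b := by
    have : ¬ 0 < (inner ℝ) δ (s b) := by
      rw [hsb, inner_neg_right]
      have := ((memp b).1 hbpos).2
      linarith
    rw [hτ]; simp only [this, if_false]
    rw [hsb, neg_neg]
  have herase : ∏ α ∈ (pos R δ).erase b, ε α = 1 := by
    apply Finset.prod_involution (fun α _ => τ α)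
    · intro α hα
      rw [(hττ α (mem_of_mem_erase hα)).2]
      rcases hεs α with h | h <;> rw [h] <;> norm_num
    · intro α hα h1 h2
      have h3 : ¬ 0 < (inner ℝ) δ (s α) := by
        intro h
        apply h1
        rw [hε]; simp only [h, if_true]
      have e1 : τ α = -s α := by rw [hτ]; simp only [h3, if_false]
      rw [e1] at h2
      have h4 : s α = -α := by rw [← h2, neg_neg, h2]
      exact (mem_erase.1 hα).1 (hbu α (mem_of_mem_erase hα) h4)
    · intro α hα
      rw [mem_erase]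
      refine ⟨?_, hτpos α (mem_of_mem_erase hα)⟩
      intro h
      have h1 := (hττ α (mem_of_mem_erase hα)).1
      rw [h, hτb] at h1
      exact (mem_erase.1 hα).1 h1.symm
    · intro α hα
      exact (hττ α (mem_of_mem_erase hα)).1
  have hall : ∏ α ∈ pos R δ, ε α = -1 := by
    rw [← Finset.mul_prod_erase _ _ hbpos, herase, hεb, mul_one]
  calc ∏ α ∈ pos R δ, (inner ℝ) α (s x) = ∏ α ∈ pos R δ, (ε α * (inner ℝ) (τ α) x) :=
        prod_congr rfl fun α _ => hfac α x
    _ = (∏ α ∈ pos R δ, ε α) * ∏ α ∈ pos R δ, (inner ℝ) (τ α) x := prod_mul_distrib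
    _ = -∏ α ∈ pos R δ, (inner ℝ) α x := by rw [hall, hprod]; ring

theorem main : S_W → S_pol := by
  intro hW n R hR δ hδ
  obtain ⟨hmem, -, -, hsgr, hneg, -, -, hrefl, -⟩ := hW n R hR
  have alt : ∀ w ∈ W R, ∀ x, ∏ α ∈ pos R δ, (inner ℝ) α (w x) = sg w * ∏ α ∈ pos R δ, (inner ℝ) α x := by
    intro w hw
    unfold W at hw
    induction hw using Subgroup.closure_induction with
    | mem w h =>
      obtain ⟨β, hβ, rfl⟩ := h
      intro x
      rw [gen hR hδ hneg hrefl hβ x, hsgr β hβ]
      ring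
    | one =>
      intro x
      rw [sg_one, one_mul]
      rfl
    | mul w₁ w₂ _ _ h₁ h₂ =>
      intro x
      have : (w₁ * w₂) x = w₁ (w₂ x) := rfl
      rw [this, h₁, h₂, sg_mul, mul_assoc]
    | inv w _ h =>
      intro x
      have h1 := h (w⁻¹ x)
      have h2 : w (w⁻¹ x) = x := w.apply_symm_apply x
      rw [h2] at h1
      rw [h1, ← mul_assoc, mul_comm (sg w⁻¹), sg_inv, one_mul]
  by_contra hcon
  push Not at hcon
  have key := polar (Wf R)
    (fun w => ((innerₛₗ ℝ δ).comp (w.toLinearEquiv : V n →ₗ[ℝ] V n) : V n →ₗ[ℝ] ℝ))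
    (fun a : V n => a) (pos R δ) (fun w => sg w) (by
      intro a
      have := hcon a δ
      rw [← this]
      apply sum_congr rfl
      intro w _
      have e : (((innerₛₗ ℝ δ).comp (w.toLinearEquiv : V n →ₗ[ℝ] V n) : V n →ₗ[ℝ] ℝ)) a =
        (inner ℝ) (w a) δ := real_inner_comm (w a) δ
      rw [e])
  have h1 : ∀ w ∈ Wf R, sg w * ∏ α ∈ pos R δ,
      (((innerₛₗ ℝ δ).comp (w.toLinearEquiv : V n →ₗ[ℝ] V n) : V n →ₗ[ℝ] ℝ)) α =
      ∏ α ∈ pos R δ, (inner ℝ) α δ := by
    intro w hw
    have hw' : w⁻¹ ∈ W R := inv_mem ((hmem w).1 hw)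
    have h2 := alt w⁻¹ hw' δ
    have h3 : ∏ α ∈ pos R δ,
      (((innerₛₗ ℝ δ).comp (w.toLinearEquiv : V n →ₗ[ℝ] V n) : V n →ₗ[ℝ] ℝ)) α =
        ∏ α ∈ pos R δ, (inner ℝ) α (w⁻¹ δ) := by
      apply prod_congr rfl
      intro α _
      have h4 := w.inner_map_map α (w⁻¹ δ)
      have h5 : w (w⁻¹ δ) = δ := w.apply_symm_apply δ
      rw [h5] at h4
      rw [← h4]
      exact real_inner_comm (w α) δ
    rw [h3, h2, ← mul_assoc, sg_inv, one_mul]
  rw [sum_congr rfl h1, sum_const, nsmul_eq_mul, mul_eq_zero] at key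
  rcases key with h | h
  · have : (1 : V n ≃ₗᵢ[ℝ] V n) ∈ Wf R := (hmem 1).2 (one_mem _)
    have h2 : (Wf R).card = 0 := by exact_mod_cast h
    rw [card_eq_zero] at h2
    rw [h2] at this
    exact absurd this (notMem_empty _)
  · rw [prod_eq_zero_iff] at h
    obtain ⟨α, hα, h⟩ := h
    unfold pos at hα
    rw [mem_filter] at hα
    rw [real_inner_comm] at h
    exact hδ α hα.1 h

end H391.AE.P_pol
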