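import Mathlib
import Pool.Agent.H391.AE.S

/-!
# Step proj (helper20)
-/

set_option autoImplicit false

open Finset
open scoped InnerProductSpace

namespace H391.AE.P_proj

open H391.AE

theorem cp_add {n : ℕ} (a b : V n) (z : V n × V n) : cp (a + b) z = cp a z + cp b z := by
  unfold cp
  rw [inner_add_left, inner_add_left]
  push_cast
  ring

theorem main : S_W → S_proj := by
  intro hW n R hR a p z h
  obtain ⟨-, -, -, -, -, -, hfix, -, -⟩ := hW n R hR
  have hE : E R a z = Complex.exp (Complex.I * cp (a - p) z) * E R p z := by
    unfold E
    rw [Finset.mul_sum]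
    apply Finset.sum_congr rfl
    intro w hw
    have h1 : w a = (a - p) + w p := by
      have h2 := hfix w hw (a - p) h
      rw [map_sub] at h2
      rw [← h2]
      abel
    rw [h1, cp_add, mul_add, Complex.exp_add]
    ring
  rw [hE, norm_mul, Complex.norm_exp]
  congr 2
  unfold cp
  simp [Complex.mul_re, Complex.add_re, Complex.add_im, Complex.mul_im]

end H391.AE.P_proj
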