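import Mathlib
import Pool.Agent.H391.AE.S

set_option autoImplicit false

open Finset
open scoped InnerProductSpace

namespace H391.AE.P_q

open H391.AE

theorem refl_apply {n : ℕ} (α x : V n) :
    refl α x = x - (2 * (inner ℝ) α x / (inner ℝ) α α) • α := by
  unfold refl
  rw [Submodule.reflection_orthogonal_apply, Submodule.reflection_singleton_apply, neg_sub,
    real_inner_self_eq_norm_sq, two_smul, ← add_smul]
  congr 2
  simp only [RCLike.ofReal_real_eq_id, id_eq]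
  ring

/-- some root of the length of α is not orthogonal to the root β -/
theorem exists_root {n : ℕ} {R : Finset (V n)} (hR : Simple R) {α β : V n} (hα : α ∈ R) (hβ : β ∈ R) :
    ∃ γ ∈ R, (inner ℝ) γ γ = (inner ℝ) α α ∧ (inner ℝ) γ β ≠ 0 := by
  classical
  by_contra hcon
  push Not at hcon
  let S : Finset (V n) := R.filter fun δ => ∀ γ ∈ R, (inner ℝ) γ γ = (inner ℝ) α α → (inner ℝ) γ δ = 0
  have hα0 : α ≠ 0 := fun h => hR.ne0 (h ▸ hα)
  have hS1 : S ⊆ R := Finset.filter_subset _ _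
  have hS2 : S.Nonempty := ⟨β, Finset.mem_filter.2 ⟨hβ, hcon⟩⟩
  have hS3 : S ≠ R := by
    intro h
    have h1 : α ∈ S := h ▸ hα
    have h2 := (Finset.mem_filter.1 h1).2 α hα rfl
    exact hα0 (inner_self_eq_zero.1 h2)
  obtain ⟨δ, hδ, ε, hε, hεS, hδε⟩ := hR.irr S hS1 hS2 hS3
  have h1 : ∃ γ ∈ R, (inner ℝ) γ γ = (inner ℝ) α α ∧ (inner ℝ) γ ε ≠ 0 := by
    by_contra h
    push Not at h
    exact hεS (Finset.mem_filter.2 ⟨hε, h⟩)
  obtain ⟨γ, hγ, hγα, hγε⟩ := h1
  have hε0 : ε ≠ 0 := fun h => hR.ne0 (h ▸ hε)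
  have h2 := (Finset.mem_filter.1 hδ).2
  have h3 := h2 (refl ε γ) (hR.refl_mem ε hε γ hγ) (by
    rw [LinearIsometryEquiv.inner_map_map]
    exact hγα)
  have h4 := h2 γ hγ hγα
  rw [refl_apply, inner_sub_left, h4, real_inner_smul_left, zero_sub, neg_eq_zero, mul_eq_zero,
    div_eq_zero_iff] at h3
  rcases h3 with (h3 | h3) | h3
  · apply hγε
    rw [real_inner_comm]
    linarith
  · exact hε0 (inner_self_eq_zero.1 h3)
  · apply hδε
    rw [real_inner_comm]
    exact h3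

theorem main : S_q := by
  intro n R hR α hα
  obtain ⟨β, hβ, hβ2⟩ := hR.long
  obtain ⟨γ, hγ, hγα, hγβ⟩ := exists_root hR hα hβ
  have hα0 : α ≠ 0 := fun h => hR.ne0 (h ▸ hα)
  have ha : 0 < (inner ℝ) α α := by
    rw [real_inner_self_eq_norm_sq]
    have := norm_pos_iff.2 hα0
    positivity
  have ha2 := hR.short α hα
  obtain ⟨z1, hz1⟩ := hR.int β hβ γ hγ
  obtain ⟨z2, hz2⟩ := hR.int γ hγ β hβ
  have e1 : (inner ℝ) β γ = (z1 : ℝ) := by
    rw [hβ2] at hz1
    linarith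
  have e2 : (inner ℝ) γ β = (z1 : ℝ) := by rw [real_inner_comm]; exact e1
  rw [e2, hγα] at hz2
  have hz0 : z1 ≠ 0 := by
    rintro rfl
    apply hγβ
    rw [e2, Int.cast_zero]
  have hcs : (z1 : ℝ) ^ 2 ≤ 2 * (inner ℝ) α α := by
    have h1 := real_inner_mul_inner_self_le β γ
    rw [e1, hβ2, hγα] at h1
    nlinarith
  rcases Nat.lt_or_ge z1.natAbs 2 with h | h
  · -- |z1| = 1
    have h1 : z1.natAbs = 1 := by omega
    have hsq : (z1 : ℝ) ^ 2 = 1 := by
      rcases Int.natAbs_eq z1 with h2 | h2 <;> rw [h2, h1] <;> norm_num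
    have hza : |(z2 : ℝ)| * (inner ℝ) α α = 2 := by
      have h2 : |(z2 : ℝ) * (inner ℝ) α α| = |2 * (z1 : ℝ)| := by rw [hz2]
      rw [abs_mul, abs_of_pos ha, abs_mul] at h2
      have h3 : |(z1 : ℝ)| = 1 := by
        have h4 : |(z1 : ℝ)| ^ 2 = 1 := by rw [sq_abs, hsq]
        nlinarith [abs_nonneg (z1 : ℝ)]
      rw [h3, mul_one, abs_of_pos (by norm_num : (0 : ℝ) < 2)] at h2
      exact h2
    have hq : ((z2.natAbs : ℕ) : ℝ) = |(z2 : ℝ)| := by
      rw [Nat.cast_natAbs, Int.cast_abs]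
    refine ⟨z2.natAbs, ?_, ?_, ?_⟩
    · rcases Nat.eq_zero_or_pos z2.natAbs with h2 | h2
      · exfalso
        rw [← hq, h2] at hza
        norm_num at hza
      · exact h2
    · by_contra h2
      push Not at h2
      have h3 : (4 : ℝ) ≤ |(z2 : ℝ)| := by
        rw [← hq]
        exact_mod_cast h2
      rw [hsq] at hcs
      have h4 : (inner ℝ) α α = 1 / 2 := by
        have : 4 * (inner ℝ) α α ≤ |(z2 : ℝ)| * (inner ℝ) α α := mul_le_mul_of_nonneg_right h3 ha.le
        linarith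
      -- γ = (z1 / 2) β
      have h5 : (inner ℝ) (γ - ((z1 : ℝ) / 2) • β) (γ - ((z1 : ℝ) / 2) • β) = 0 := by
        rw [inner_sub_left, inner_sub_right, inner_sub_right, real_inner_smul_left,
          real_inner_smul_left, real_inner_smul_right, real_inner_smul_right, hγα, e1, e2, hβ2, h4]
        nlinarith
      have h6 : γ = ((z1 : ℝ) / 2) • β := sub_eq_zero.1 (inner_self_eq_zero.1 h5)
      have h7 := hR.red β hβ ((z1 : ℝ) / 2) (h6 ▸ hγ)
      rcases h7 with h7 | h7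
      · have : (z1 : ℝ) = 2 := by linarith
        rw [this] at hsq
        norm_num at hsq
      · have : (z1 : ℝ) = -2 := by linarith
        rw [this] at hsq
        norm_num at hsq
    · rw [hq]
      exact hza
  · -- |z1| ≥ 2
    have h1 : (4 : ℝ) ≤ (z1 : ℝ) ^ 2 := by
      have h2 : (2 : ℝ) ≤ |(z1 : ℝ)| := by
        have h3 : ((z1.natAbs : ℕ) : ℝ) = |(z1 : ℝ)| := by
          rw [Nat.cast_natAbs, Int.cast_abs]
        rw [← h3]
        exact_mod_cast h
      rw [← sq_abs]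
      nlinarith
    refine ⟨1, le_refl _, by norm_num, ?_⟩
    rw [Nat.cast_one, one_mul]
    linarith

end H391.AE.P_q
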