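import Mathlib
import Pool.Agent.H391.AE.S

set_option autoImplicit false

open Finset
open scoped InnerProductSpace

namespace H391.AE.P_rs

open H391.AE

theorem key {n : ℕ} (R : Finset (V n)) (hR : IsRS R)
    (hrefl : ∀ α : V n, α ≠ 0 → ∀ x : V n, refl α x = x - (2 * (inner ℝ) α x / (inner ℝ) α α) • α)
    (α β : V n) (hα : α ∈ R) (hβ : β ∈ R) (hpos : 0 < (inner ℝ) α α)
    (h : 2 * (inner ℝ) α β = (-1) * (inner ℝ) α α) : α + β ∈ R := by
  have h0 : α ≠ 0 := fun h0 => hR.ne0 (h0 ▸ hα)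
  have h1 := hR.refl_mem α hα β hβ
  rw [hrefl α h0 β, h, mul_div_assoc, div_self hpos.ne', mul_one, neg_one_smul, sub_neg_eq_add,
    add_comm] at h1
  exact h1

theorem main (hW : S_W) : S_rs := by
  intro n R hR α hα β hβ hneg hne
  obtain ⟨-, -, -, -, -, -, -, hrefl, -⟩ := hW n R hR
  have hα0 : α ≠ 0 := fun h0 => hR.ne0 (h0 ▸ hα)
  have hβ0 : β ≠ 0 := fun h0 => hR.ne0 (h0 ▸ hβ)
  have pα : 0 < (inner ℝ) α α := real_inner_self_pos.2 hα0
  have pβ : 0 < (inner ℝ) β β := real_inner_self_pos.2 hβ0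
  obtain ⟨z1, h1⟩ := hR.int α hα β hβ
  obtain ⟨z2, h2⟩ := hR.int β hβ α hα
  have hsymm : (inner ℝ) β α = (inner ℝ) α β := real_inner_comm _ _
  have n1 : (z1 : ℝ) < 0 := by
    by_contra hge
    rw [not_lt] at hge
    have := mul_nonneg hge pα.le
    linarith
  have n2 : (z2 : ℝ) < 0 := by
    by_contra hge
    rw [not_lt] at hge
    have := mul_nonneg hge pβ.le
    linarith
  have m1 : z1 < 0 := by exact_mod_cast n1
  have m2 : z2 < 0 := by exact_mod_cast n2
  by_cases c1 : z1 = -1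
  · subst c1
    push_cast at h1
    exact key R hR hrefl α β hα hβ pα h1
  by_cases c2 : z2 = -1
  · subst c2
    push_cast at h2
    rw [add_comm]
    exact key R hR hrefl β α hβ hα pβ h2
  exfalso
  have l1 : z1 ≤ -2 := by omega
  have l2 : z2 ≤ -2 := by omega
  have l1' : (z1 : ℝ) ≤ -2 := by exact_mod_cast l1
  have l2' : (z2 : ℝ) ≤ -2 := by exact_mod_cast l2
  have e1 := mul_le_mul_of_nonneg_right l1' pα.le
  have e2 := mul_le_mul_of_nonneg_right l2' pβ.le
  have hsum : (inner ℝ) (α + β) (α + β) = (inner ℝ) α α + 2 * (inner ℝ) α β + (inner ℝ) β β := by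
    rw [inner_add_left, inner_add_right, inner_add_right, hsymm]
    ring
  have hle : (inner ℝ) (α + β) (α + β) ≤ 0 := by
    rw [hsum]
    linarith
  have hz : α + β = 0 := by
    by_contra hnz
    exact absurd hle (not_le.2 (real_inner_self_pos.2 hnz))
  exact hne (eq_neg_of_add_eq_zero_right hz)

end H391.AE.P_rs
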