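import Mathlib
import Pool.Agent.H391.AE.S

set_option autoImplicit false

open Finset
open scoped InnerProductSpace

namespace H391.AE.P_sp

open H391.AE

theorem main : S_rs → S_W → S_sp := by
  intro hrs hW n R hR Ψ hΨ hne
  classical
  have hneg : ∀ α ∈ R, -α ∈ R := (hW n R hR.toIsRS).2.2.2.2.1
  obtain ⟨A, hA⟩ : ∃ A : Set (V n), A = {α : V n | α ∈ R ∧ α ∉ Ψ} := ⟨_, rfl⟩
  rw [← hA]
  have hAR : ∀ α, α ∈ A ↔ α ∈ R ∧ α ∉ Ψ := fun α => by rw [hA]; rfl
  have hAneg : ∀ α ∈ A, -α ∈ A := by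
    intro α hα
    obtain ⟨h1, h2⟩ := (hAR α).1 hα
    refine (hAR _).2 ⟨hneg α h1, fun h3 => h2 ?_⟩
    have h4 := hΨ.neg _ h3
    rwa [neg_neg] at h4
  -- a root outside the span is orthogonal to `A`
  have key : ∀ β ∈ R, β ∉ Submodule.span ℝ A → ∀ α ∈ A, ¬ (inner ℝ) α β < 0 := by
    intro β hβ hβA α hα hlt
    have hα' := (hAR α).1 hα
    have h1 : β ≠ -α := by
      intro h
      exact hβA (h ▸ Submodule.subset_span (hAneg α hα))
    have h2 : α + β ∈ R := hrs n R hR.toIsRS α hα'.1 β hβ hlt h1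
    have hβΨ : β ∈ Ψ := by
      by_contra h
      exact hβA (Submodule.subset_span ((hAR β).2 ⟨hβ, h⟩))
    by_cases h3 : α + β ∈ Ψ
    · have h4 := hΨ.add _ h3 _ (hΨ.neg _ hβΨ)
      have h5 : α + β + -β = α := by abel
      rw [h5] at h4
      exact hα'.2 (h4 hα'.1)
    · have h4 : α + β ∈ Submodule.span ℝ A := Submodule.subset_span ((hAR _).2 ⟨h2, h3⟩)
      have h5 : α ∈ Submodule.span ℝ A := Submodule.subset_span hα
      have h6 := Submodule.sub_mem _ h4 h5
      have h7 : α + β - α = β := by abel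
      rw [h7] at h6
      exact hβA h6
  have key2 : ∀ β ∈ R, β ∉ Submodule.span ℝ A → ∀ α ∈ A, (inner ℝ) α β = 0 := by
    intro β hβ hβA α hα
    have h1 := key β hβ hβA α hα
    have h2 := key β hβ hβA (-α) (hAneg α hα)
    rw [inner_neg_left] at h2
    linarith
  obtain ⟨S, hS⟩ : ∃ S : Finset (V n), S = R.filter fun g => g ∈ Submodule.span ℝ A := ⟨_, rfl⟩
  have hSR : S = R := by
    by_contra hSne
    have hSsub : S ⊆ R := by rw [hS]; exact Finset.filter_subset _ _
    have hSnon : S.Nonempty := by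
      have : ∃ α ∈ R, α ∉ Ψ := by
        by_contra hcon
        push Not at hcon
        exact hne (Finset.Subset.antisymm hΨ.sub hcon)
      obtain ⟨α, h1, h2⟩ := this
      exact ⟨α, by rw [hS]; exact Finset.mem_filter.2 ⟨h1, Submodule.subset_span ((hAR α).2 ⟨h1, h2⟩)⟩⟩
    obtain ⟨α, hαS, β, hβR, hβS, hαβ⟩ := hR.irr S hSsub hSnon hSne
    have hαA : α ∈ Submodule.span ℝ A := by
      rw [hS] at hαS
      exact (Finset.mem_filter.1 hαS).2
    have hβA : β ∉ Submodule.span ℝ A := fun h => hβS (by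
      rw [hS]
      exact Finset.mem_filter.2 ⟨hβR, h⟩)
    apply hαβ
    have h1 := key2 β hβR hβA
    clear hαS hαβ
    induction hαA using Submodule.span_induction with
    | mem x hx => exact h1 x hx
    | zero => exact inner_zero_left _
    | add x y _ _ hx hy => rw [inner_add_left, hx, hy, add_zero]
    | smul c x _ hx => rw [real_inner_smul_left, hx, mul_zero]
  rw [eq_top_iff, ← hR.span_top, Submodule.span_le]
  intro g hg
  have h1 : g ∈ S := by rw [hSR]; exact hg
  rw [hS] at h1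
  exact (Finset.mem_filter.1 h1).2

end H391.AE.P_sp
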