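import Mathlib
import Pool.Agent.H391.AE.S

set_option autoImplicit false

/-! AE-sub: the integral and the orthogonal subsystems. -/

open Finset
open scoped InnerProductSpace

namespace H391.AE.P_sub

theorem aux {n : ℕ} {R : Finset (V n)} (hR : IsRS R)
    (hneg : ∀ α ∈ R, -α ∈ R)
    (hrefl : ∀ α : V n, α ≠ 0 → ∀ x : V n, refl α x = x - (2 * (inner ℝ) α x / (inner ℝ) α α) • α)
    (F : Finset (V n)) (p : V n → Prop) (hF : ∀ α, α ∈ F ↔ α ∈ R ∧ p α)
    (p1 : ∀ α β : V n, p α → p β → p (α + β)) (p2 : ∀ α : V n, p α → ∀ z : ℤ, p ((z : ℝ) • α)) :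
    IsRS F ∧ Cl R F := by
  have hz : ∀ α ∈ R, ∀ β ∈ R, ∃ z : ℤ, refl α β = β + ((-z : ℤ) : ℝ) • α := by
    intro α hα β hβ
    have h0 : α ≠ 0 := by
      rintro rfl
      exact hR.ne0 hα
    obtain ⟨z, hz⟩ := hR.int α hα β hβ
    refine ⟨z, ?_⟩
    have h1 : ((inner ℝ) α α : ℝ) ≠ 0 := by
      rw [real_inner_self_eq_norm_sq]
      exact pow_ne_zero 2 (norm_ne_zero_iff.mpr h0)
    rw [hrefl α h0 β, hz, mul_div_assoc, div_self h1, mul_one, Int.cast_neg, neg_smul,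
      sub_eq_add_neg]
  refine ⟨⟨?_, ?_, ?_, ?_⟩, ⟨?_, ?_, ?_⟩⟩
  · intro h
    exact hR.ne0 ((hF _).mp h).1
  · intro α hα β hβ
    obtain ⟨ha, pa⟩ := (hF _).mp hα
    obtain ⟨hb, pb⟩ := (hF _).mp hβ
    refine (hF _).mpr ⟨hR.refl_mem α ha β hb, ?_⟩
    obtain ⟨z, hz⟩ := hz α ha β hb
    rw [hz]
    exact p1 _ _ pb (p2 _ pa _)
  · intro α hα β hβ
    exact hR.int α ((hF _).mp hα).1 β ((hF _).mp hβ).1
  · intro α hα c hc
    exact hR.red α ((hF _).mp hα).1 c ((hF _).mp hc).1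
  · intro α hα
    exact ((hF _).mp hα).1
  · intro α hα
    obtain ⟨ha, pa⟩ := (hF _).mp hα
    refine (hF _).mpr ⟨hneg α ha, ?_⟩
    have := p2 α pa (-1)
    simpa using this
  · intro α hα β hβ h
    exact (hF _).mpr ⟨h, p1 _ _ ((hF _).mp hα).2 ((hF _).mp hβ).2⟩

theorem main : S_W → S_sub := by
  intro hW n R hR v
  classical
  obtain ⟨-, -, -, -, hneg, -, -, hrefl, -⟩ := hW n R hR
  constructor
  · refine aux hR hneg hrefl (Rint R v) (fun α => ∃ z : ℤ, ((inner ℝ) v α : ℝ) = z) ?_ ?_ ?_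
    · intro α
      unfold Rint
      rw [Finset.mem_filter]
    · rintro α β ⟨y, hy⟩ ⟨z, hz⟩
      refine ⟨y + z, ?_⟩
      rw [inner_add_right, hy, hz]
      push_cast
      ring
    · rintro α ⟨y, hy⟩ z
      refine ⟨z * y, ?_⟩
      rw [inner_smul_right, hy]
      push_cast
      ring
  · refine aux hR hneg hrefl (Rz R v) (fun α => ((inner ℝ) v α : ℝ) = 0) ?_ ?_ ?_
    · intro α
      unfold Rz
      rw [Finset.mem_filter]
    · intro α β hy hz
      change ((inner ℝ) v (α + β) : ℝ) = 0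
      rw [inner_add_right, hy, hz, add_zero]
    · intro α hy z
      change ((inner ℝ) v ((z : ℝ) • α) : ℝ) = 0
      rw [inner_smul_right, hy, mul_zero]

end H391.AE.P_sub
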