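import Mathlib
import Pool.Agent.H391.AE.S

/-!
# The summation lemma
-/

set_option autoImplicit false

open Finset

namespace H391.AE.P_sum

theorem dyadic {ι : Type} (L : Finset ι) (M : ι → ℝ) (Y : ℝ) (w : ι → ℝ) (D : ℕ → ℝ)
    (hD : ∀ j, 0 ≤ D j) (J : ℕ) (hJ : ∀ a ∈ L, M a ≤ 2 ^ J * Y)
    (h0 : ∀ a ∈ L, w a ≤ D 0)
    (h : ∀ a ∈ L, ∀ j : ℕ, 2 ^ j * Y < M a → w a ≤ D (j + 1)) :
    ∑ a ∈ L, w a ≤ ∑ j ∈ range (J + 1), D j * ((L.filter fun a => M a ≤ 2 ^ j * Y).card : ℝ) := by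
  have h1 : ∀ a ∈ L, w a ≤ ∑ j ∈ range (J + 1), (if M a ≤ 2 ^ j * Y then D j else 0) := by
    intro a ha
    have hex : ∃ j : ℕ, M a ≤ 2 ^ j * Y := ⟨J, hJ a ha⟩
    classical
    have hj := Nat.find_spec hex
    have hmin := fun m => Nat.find_min (m := m) hex
    have hle : Nat.find hex ≤ J := Nat.find_min' hex (hJ a ha)
    generalize Nat.find hex = j0 at hj hmin hle
    have h2 : w a ≤ D j0 := by
      rcases j0 with _ | i
      · exact h0 a ha
      · exact h a ha i (not_le.mp (hmin i (Nat.lt_succ_self i)))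
    have h3 : (if M a ≤ 2 ^ j0 * Y then D j0 else 0) = D j0 := if_pos hj
    rw [← h3] at h2
    refine h2.trans ?_
    refine Finset.single_le_sum (f := fun j => if M a ≤ 2 ^ j * Y then D j else 0) ?_
      (Finset.mem_range.mpr (Nat.lt_succ_of_le hle))
    intro j _
    by_cases h4 : M a ≤ 2 ^ j * Y
    · simp only [if_pos h4]
      exact hD j
    · simp only [if_neg h4]
      exact le_rfl
  refine (Finset.sum_le_sum h1).trans ?_
  rw [Finset.sum_comm]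
  refine Finset.sum_le_sum ?_
  intro j _
  rw [← Finset.sum_filter, Finset.sum_const, nsmul_eq_mul, mul_comm]

theorem inner_bound {n p : ℕ} (hp : n < 2 * p) {C : ℝ} (hC : 0 ≤ C) {ι : Type} (L : Finset ι)
    (M : ι → ℝ) (hcount : ∀ X : ℝ, 1 ≤ X → ((L.filter fun a => M a ≤ X).card : ℝ) ≤ C * X ^ n)
    (J : ℕ) (Y : ℝ) (hY : 1 ≤ Y) (hJ : ∀ a ∈ L, M a ≤ 2 ^ J * Y) :
    ∑ b ∈ L, (1 / (1 + (M b / Y) ^ 2)) ^ p ≤ 2 * C * 4 ^ p * Y ^ n := by
  have hY0 : 0 < Y := by linarith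
  have h1 := dyadic L M Y (fun b => (1 / (1 + (M b / Y) ^ 2)) ^ p)
    (fun j => 4 ^ p * (1 / 4 ^ p) ^ j) (fun j => by positivity) J hJ ?_ ?_
  · refine h1.trans ?_
    have h2 : ∀ j ∈ range (J + 1), 4 ^ p * (1 / 4 ^ p) ^ j *
        ((L.filter fun a => M a ≤ 2 ^ j * Y).card : ℝ) ≤ C * 4 ^ p * Y ^ n * (1 / 2 : ℝ) ^ j := by
      intro j _
      have h3 : (1 : ℝ) ≤ 2 ^ j * Y := by
        have : (1 : ℝ) ≤ 2 ^ j := one_le_pow₀ (by norm_num)
        nlinarith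
      have h4 := hcount _ h3
      have h5 : (2 : ℝ) ^ n * (1 / 4 ^ p) ≤ 1 / 2 := by
        have h6 : (2 : ℝ) ^ (n + 1) ≤ 2 ^ (2 * p) := pow_le_pow_right₀ (by norm_num) (by omega)
        rw [pow_mul, show (2 : ℝ) ^ 2 = 4 by norm_num, pow_succ] at h6
        rw [mul_one_div, div_le_div_iff₀ (by positivity) (by norm_num)]
        linarith
      calc 4 ^ p * (1 / 4 ^ p) ^ j * ((L.filter fun a => M a ≤ 2 ^ j * Y).card : ℝ)
          ≤ 4 ^ p * (1 / 4 ^ p) ^ j * (C * (2 ^ j * Y) ^ n) := by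
            refine mul_le_mul_of_nonneg_left h4 (by positivity)
        _ = C * 4 ^ p * Y ^ n * ((2 : ℝ) ^ n * (1 / 4 ^ p)) ^ j := by
            rw [mul_pow, mul_pow, ← pow_mul, ← pow_mul, mul_comm j n]
            ring
        _ ≤ C * 4 ^ p * Y ^ n * (1 / 2 : ℝ) ^ j := by
            refine mul_le_mul_of_nonneg_left ?_ (by positivity)
            exact pow_le_pow_left₀ (by positivity) h5 j
    refine (Finset.sum_le_sum h2).trans ?_
    rw [← Finset.mul_sum]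
    have h7 : ∑ j ∈ range (J + 1), (1 / 2 : ℝ) ^ j ≤ 2 := by
      rw [geom_sum_eq (by norm_num)]
      have h8 : (0 : ℝ) ≤ (1 / 2) ^ (J + 1) := by positivity
      rw [show (1 / 2 : ℝ) - 1 = -(1 / 2) by norm_num, div_neg, ← neg_div, neg_sub,
        div_le_iff₀ (by norm_num)]
      linarith
    calc C * 4 ^ p * Y ^ n * ∑ j ∈ range (J + 1), (1 / 2 : ℝ) ^ j
        ≤ C * 4 ^ p * Y ^ n * 2 := mul_le_mul_of_nonneg_left h7 (by positivity)
      _ = 2 * C * 4 ^ p * Y ^ n := by ring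
  · intro a _
    have h2 : (1 / (1 + (M a / Y) ^ 2)) ^ p ≤ 1 := by
      refine pow_le_one₀ (by positivity) ?_
      rw [div_le_one (by positivity)]
      nlinarith [sq_nonneg (M a / Y)]
    have h3 : (1 : ℝ) ≤ 4 ^ p * (1 / 4 ^ p) ^ 0 := by
      rw [pow_zero, mul_one]
      exact one_le_pow₀ (by norm_num)
    exact h2.trans h3
  · intro a _ j hj
    have h2 : (2 : ℝ) ^ j < M a / Y := (lt_div_iff₀ hY0).mpr hj
    have h3 : (4 : ℝ) ^ p * (1 / 4 ^ p) ^ (j + 1) = (1 / 4 ^ j) ^ p := by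
      have h4 : (4 : ℝ) ^ p ≠ 0 := by positivity
      rw [pow_succ, one_div_pow, one_div_pow, ← pow_mul, ← pow_mul, mul_comm p j]
      field_simp
    show (1 / (1 + (M a / Y) ^ 2)) ^ p ≤ 4 ^ p * (1 / 4 ^ p) ^ (j + 1)
    rw [h3]
    refine pow_le_pow_left₀ (by positivity) ?_ p
    refine one_div_le_one_div_of_le (by positivity) ?_
    have h5 : ((2 : ℝ) ^ j) ^ 2 ≤ (M a / Y) ^ 2 := pow_le_pow_left₀ (by positivity) h2.le 2
    rw [← pow_mul, mul_comm j 2, pow_mul, show (2 : ℝ) ^ 2 = 4 by norm_num] at h5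
    linarith

theorem outer_bound {n : ℕ} {C : ℝ} {ι : Type} (L : Finset ι)
    (M : ι → ℝ) (hcount : ∀ X : ℝ, 1 ≤ X → ((L.filter fun a => M a ≤ X).card : ℝ) ≤ C * X ^ n)
    (J : ℕ) (hJ : ∀ a ∈ L, M a ≤ 2 ^ J) (hM : ∀ a ∈ L, 1 / 3 ≤ M a) :
    ∑ a ∈ L, (1 / M a) ^ n ≤ C * 3 ^ n * (J + 1) := by
  have h1 := dyadic L M 1 (fun a => (1 / M a) ^ n)
    (fun j => 3 ^ n * (1 / 2 ^ n) ^ j) (fun j => by positivity) J
    (fun a ha => by rw [mul_one]; exact hJ a ha) ?_ ?_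
  · refine h1.trans ?_
    have h2 : ∀ j ∈ range (J + 1), 3 ^ n * (1 / 2 ^ n) ^ j *
        ((L.filter fun a => M a ≤ 2 ^ j * 1).card : ℝ) ≤ C * 3 ^ n := by
      intro j _
      have h3 : (1 : ℝ) ≤ 2 ^ j * 1 := by
        rw [mul_one]
        exact one_le_pow₀ (by norm_num)
      have h4 := hcount _ h3
      calc 3 ^ n * (1 / 2 ^ n) ^ j * ((L.filter fun a => M a ≤ 2 ^ j * 1).card : ℝ)
          ≤ 3 ^ n * (1 / 2 ^ n) ^ j * (C * (2 ^ j * 1) ^ n) :=
            mul_le_mul_of_nonneg_left h4 (by positivity)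
        _ = C * 3 ^ n := by
            rw [mul_one, ← pow_mul, one_div_pow, ← pow_mul, mul_comm j n]
            have h5 : (2 : ℝ) ^ (n * j) ≠ 0 := by positivity
            field_simp
    refine (Finset.sum_le_sum h2).trans ?_
    rw [Finset.sum_const, Finset.card_range, nsmul_eq_mul]
    push_cast
    rw [mul_comm]
  · intro a ha
    have h2 : 1 / M a ≤ 3 := by
      have h3 := one_div_le_one_div_of_le (by norm_num : (0 : ℝ) < 1 / 3) (hM a ha)
      rwa [one_div_one_div] at h3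
    have h4 : 0 < M a := lt_of_lt_of_le (by norm_num) (hM a ha)
    show (1 / M a) ^ n ≤ 3 ^ n * (1 / 2 ^ n) ^ 0
    rw [pow_zero, mul_one]
    exact pow_le_pow_left₀ (by positivity) h2 n
  · intro a ha j hj
    rw [mul_one] at hj
    have h4 : 0 < M a := lt_of_lt_of_le (by norm_num) (hM a ha)
    show (1 / M a) ^ n ≤ 3 ^ n * (1 / 2 ^ n) ^ (j + 1)
    have h5 : (3 : ℝ) ^ n * (1 / 2 ^ n) ^ (j + 1) = (3 / 2 * (1 / 2 ^ j)) ^ n := by
      have h6 : ((1 : ℝ) / 2 ^ n) ^ (j + 1) = (1 / 2 ^ (j + 1)) ^ n := by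
        rw [one_div_pow, one_div_pow, ← pow_mul, ← pow_mul, mul_comm n (j + 1)]
      rw [h6, ← mul_pow]
      have h7 : (3 : ℝ) * (1 / 2 ^ (j + 1)) = 3 / 2 * (1 / 2 ^ j) := by
        rw [pow_succ]
        ring
      rw [h7]
    rw [h5]
    refine pow_le_pow_left₀ (by positivity) ?_ n
    have h6 : 1 / M a ≤ 1 / 2 ^ j := one_div_le_one_div_of_le (by positivity) hj.le
    have h7 : (0 : ℝ) < 1 / 2 ^ j := by positivity
    linarith

theorem main : S_sum := by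
  intro n p _ hp C hC
  refine ⟨2 * C * 4 ^ p * (C * 3 ^ n * (3 / Real.log 2)), by
    have := Real.log_pos (by norm_num : (1 : ℝ) < 2)
    positivity, ?_⟩
  intro r hr ι L M hM hcount
  have hr0 : (0 : ℝ) < r := by positivity
  have hlog2 : 0 < Real.log 2 := Real.log_pos (by norm_num)
  have hr2 : (2 : ℝ) ≤ r := by exact_mod_cast hr
  have hlogr : Real.log 2 ≤ Real.log r := Real.log_le_log (by norm_num) hr2
  obtain ⟨J, hJ1, hJ2⟩ : ∃ J : ℕ, (r : ℝ) ≤ 2 ^ J ∧ ((J : ℝ) + 1) ≤ 3 / Real.log 2 * Real.log r := by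
    refine ⟨Nat.log 2 r + 1, ?_, ?_⟩
    · exact_mod_cast (Nat.lt_pow_succ_log_self (by norm_num) r).le
    · have h1 : ((2 : ℝ)) ^ (Nat.log 2 r) ≤ r := by
        exact_mod_cast Nat.pow_log_le_self 2 (by omega : r ≠ 0)
      have h2 := Real.log_le_log (by positivity) h1
      rw [Real.log_pow] at h2
      rw [div_mul_eq_mul_div, le_div_iff₀ hlog2]
      push_cast
      nlinarith
  have hMpos : ∀ a ∈ L, 0 < M a := fun a ha => lt_of_lt_of_le (by norm_num) (hM a ha).1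
  have h1 : ∀ a ∈ L, ∑ b ∈ L, (1 / (1 + (M a * M b / r) ^ 2)) ^ p ≤
      2 * C * 4 ^ p * (r : ℝ) ^ n * (1 / M a) ^ n := by
    intro a ha
    have ha0 := hMpos a ha
    have hY : 1 ≤ (r : ℝ) / M a := by
      rw [le_div_iff₀ ha0, one_mul]
      exact (hM a ha).2
    have h2 := inner_bound hp hC L M hcount J ((r : ℝ) / M a) hY (by
      intro b hb
      have h3 := (hM b hb).2
      have h4 : (0 : ℝ) < 2 ^ J := by positivity
      nlinarith)
    have h3 : ∀ b ∈ L, (1 / (1 + (M a * M b / r) ^ 2)) ^ p =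
        (1 / (1 + (M b / ((r : ℝ) / M a)) ^ 2)) ^ p := by
      intro b _
      have h4 : M a * M b / r = M b / ((r : ℝ) / M a) := by
        field_simp
      rw [h4]
    rw [Finset.sum_congr rfl h3]
    refine h2.trans (le_of_eq ?_)
    rw [div_pow, one_div_pow]
    ring
  refine (Finset.sum_le_sum h1).trans ?_
  rw [← Finset.mul_sum]
  have h5 := outer_bound L M hcount J (fun a ha => (hM a ha).2.trans hJ1) (fun a ha => (hM a ha).1)
  calc 2 * C * 4 ^ p * (r : ℝ) ^ n * ∑ a ∈ L, (1 / M a) ^ n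
      ≤ 2 * C * 4 ^ p * (r : ℝ) ^ n * (C * 3 ^ n * (J + 1)) :=
        mul_le_mul_of_nonneg_left h5 (by positivity)
    _ ≤ 2 * C * 4 ^ p * (r : ℝ) ^ n * (C * 3 ^ n * (3 / Real.log 2 * Real.log r)) := by
        refine mul_le_mul_of_nonneg_left ?_ (by positivity)
        exact mul_le_mul_of_nonneg_left hJ2 (by positivity)
    _ = 2 * C * 4 ^ p * (C * 3 ^ n * (3 / Real.log 2)) * ((r : ℝ) ^ n * Real.log r) := by ring

end H391.AE.P_sum
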