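import Mathlib
import Pool.Agent.H391.AE.S

/-!
# Taylor expansion of `E R a (b, 0)` (AE-tay), helper134 for helper391
-/

set_option autoImplicit false

open Finset
open scoped InnerProductSpace

namespace H391.AE.P_tay

variable {n : ℕ}

/-- the `k`-th moment -/
noncomputable def P (R : Finset (V n)) (k : ℕ) (a b : V n) : ℝ := ∑ w ∈ Wf R, sg w * (inner ℝ) (w a) b ^ k

/-- the constant of the remainder -/
noncomputable def K (m : ℕ) : ℝ := ((m + 1).succ : ℝ) * (((m + 1).factorial : ℝ) * ((m + 1 : ℕ) : ℝ))⁻¹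

theorem K_nonneg (m : ℕ) : 0 ≤ K m := by
  unfold K
  positivity

theorem exp_term (m : ℕ) (s : ℝ) (hs : |s| ≤ 1) :
    ‖Complex.exp (Complex.I * s) - ∑ j ∈ range (m + 1), (Complex.I * s) ^ j / (j.factorial : ℂ)‖ ≤
      |s| ^ (m + 1) * K m := by
  have hn : ‖Complex.I * (s : ℂ)‖ = |s| := by
    rw [norm_mul, Complex.norm_I, one_mul, Complex.norm_real, Real.norm_eq_abs]
  have h := Complex.exp_bound (x := Complex.I * s) (by rw [hn]; exact hs) (n := m + 1) (Nat.succ_pos m)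
  rw [hn] at h
  exact h

theorem E_eq (R : Finset (V n)) (a b : V n) :
    E R a (b, 0) = ∑ w ∈ Wf R, ((sg w : ℝ) : ℂ) * Complex.exp (Complex.I * (((inner ℝ) (w a) b : ℝ) : ℂ)) := by
  unfold E cp
  refine Finset.sum_congr rfl fun w _ => ?_
  simp

theorem P_smul (R : Finset (V n)) (k : ℕ) (a b : V n) (t : ℝ) : P R k a (t • b) = t ^ k * P R k a b := by
  unfold P
  rw [Finset.mul_sum]
  refine Finset.sum_congr rfl fun w _ => ?_
  rw [inner_smul_right, mul_pow]
  ring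

theorem expand (R : Finset (V n)) (hsg : ∀ w ∈ Wf R, sg w = 1 ∨ sg w = -1) (m : ℕ) (a b : V n)
    (hab : ‖a‖ * ‖b‖ ≤ 1) :
    ‖E R a (b, 0) - ∑ j ∈ range (m + 1), Complex.I ^ j / (j.factorial : ℂ) * ((P R j a b : ℝ) : ℂ)‖ ≤
      ((Wf R).card : ℝ) * K m * (‖a‖ * ‖b‖) ^ (m + 1) := by
  have h1 : E R a (b, 0) - ∑ j ∈ range (m + 1), Complex.I ^ j / (j.factorial : ℂ) * ((P R j a b : ℝ) : ℂ) =
      ∑ w ∈ Wf R, ((sg w : ℝ) : ℂ) * (Complex.exp (Complex.I * (((inner ℝ) (w a) b : ℝ) : ℂ)) -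
        ∑ j ∈ range (m + 1), (Complex.I * (((inner ℝ) (w a) b : ℝ) : ℂ)) ^ j / (j.factorial : ℂ)) := by
    rw [E_eq]
    simp only [mul_sub, Finset.sum_sub_distrib]
    congr 1
    unfold P
    push_cast
    simp only [Finset.mul_sum]
    rw [Finset.sum_comm]
    refine Finset.sum_congr rfl fun w _ => Finset.sum_congr rfl fun j _ => ?_
    rw [mul_pow]
    ring
  rw [h1]
  refine (norm_sum_le _ _).trans ?_
  have h2 : ∀ w ∈ Wf R, ‖((sg w : ℝ) : ℂ) * (Complex.exp (Complex.I * (((inner ℝ) (w a) b : ℝ) : ℂ)) -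
        ∑ j ∈ range (m + 1), (Complex.I * (((inner ℝ) (w a) b : ℝ) : ℂ)) ^ j / (j.factorial : ℂ))‖ ≤
      K m * (‖a‖ * ‖b‖) ^ (m + 1) := by
    intro w hw
    have h3 : ‖((sg w : ℝ) : ℂ)‖ = 1 := by
      rcases hsg w hw with h | h <;> rw [h] <;> simp
    have h4 : |(inner ℝ) (w a) b| ≤ ‖a‖ * ‖b‖ := by
      have := abs_real_inner_le_norm (w a) b
      rwa [LinearIsometryEquiv.norm_map] at this
    rw [norm_mul, h3, one_mul]
    refine (exp_term m _ (h4.trans hab)).trans ?_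
    rw [mul_comm]
    exact mul_le_mul_of_nonneg_left (pow_le_pow_left₀ (abs_nonneg _) h4 _) (K_nonneg m)
  refine (Finset.sum_le_sum h2).trans ?_
  rw [Finset.sum_const, nsmul_eq_mul, mul_assoc]

theorem zero_of_le {A B t0 : ℝ} (hA : 0 ≤ A) (hB : 0 ≤ B) (ht0 : 0 < t0)
    (h : ∀ t, 0 < t → t ≤ t0 → A ≤ B * t) : A = 0 := by
  by_contra hne
  have hA' : 0 < A := lt_of_le_of_ne hA (Ne.symm hne)
  have hB1 : 0 < 2 * (B + 1) := by positivity
  have h1 := h (min t0 (A / (2 * (B + 1)))) (lt_min ht0 (div_pos hA' hB1)) (min_le_left _ _)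
  have h2 : B * min t0 (A / (2 * (B + 1))) ≤ B * (A / (2 * (B + 1))) :=
    mul_le_mul_of_nonneg_left (min_le_right _ _) hB
  have h3 : B * (A / (2 * (B + 1))) < A := by
    rw [mul_div_assoc', div_lt_iff₀ hB1]
    nlinarith
  linarith

theorem card_pos (hW : S_W) (R : Finset (V n)) (hR : IsRS R) (δ : V n) (hδ : Reg R δ) :
    2 * (pos R δ).card = R.card := by
  classical
  obtain ⟨-, -, -, -, hneg, -, -, -, -⟩ := hW n R hR
  have h1 : (R.filter fun α => ¬ 0 < (inner ℝ) δ α).card = (R.filter fun α => 0 < (inner ℝ) δ α).card := by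
    refine Finset.card_bij (fun α _ => -α) ?_ ?_ ?_
    · intro α hα
      rw [Finset.mem_filter] at hα ⊢
      refine ⟨hneg α hα.1, ?_⟩
      rw [inner_neg_right]
      have h2 := hδ α hα.1
      have h3 := not_lt.1 hα.2
      have h4 := lt_of_le_of_ne h3 h2
      linarith
    · intro α _ β _ h
      exact neg_injective h
    · intro β hβ
      rw [Finset.mem_filter] at hβ
      refine ⟨-β, ?_, neg_neg β⟩
      rw [Finset.mem_filter]
      refine ⟨hneg β hβ.1, ?_⟩
      rw [inner_neg_right]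
      linarith [hβ.2]
  have h2 := Finset.card_filter_add_card_filter_not (s := R) (fun α => 0 < (inner ℝ) δ α)
  have h3 : (pos R δ).card = (R.filter fun α => 0 < (inner ℝ) δ α).card := by
    unfold pos
    congr
  omega

theorem E_small (hF1 : S_F1) (R : Finset (V n)) (hR : IsRS R) (N : ℕ) (hN : 2 * N = R.card) (a b : V n) :
    ∃ D : ℝ, 0 ≤ D ∧ ∀ t : ℝ, 0 < t → ‖E R a (t • b, 0)‖ ≤ D * t ^ N := by
  obtain ⟨C, hC, h⟩ := hF1 n R hR
  refine ⟨Real.sqrt (C * ∏ α ∈ R, (|(inner ℝ) α a| * |(inner ℝ) α b|)), Real.sqrt_nonneg _, fun t ht => ?_⟩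
  have h1 := h a (t • b, 0)
  have h2 : ∏ α ∈ R, (|(inner ℝ) α a| * ‖cp α (t • b, (0 : V n))‖) =
      t ^ (2 * N) * ∏ α ∈ R, (|(inner ℝ) α a| * |(inner ℝ) α b|) := by
    rw [hN, ← Finset.prod_const, ← Finset.prod_mul_distrib]
    refine Finset.prod_congr rfl fun α _ => ?_
    have h3 : cp α (t • b, (0 : V n)) = ((t * (inner ℝ) α b : ℝ) : ℂ) := by
      unfold cp
      simp only [inner_zero_right, inner_smul_right]
      simp
    rw [h3, Complex.norm_real, Real.norm_eq_abs, abs_mul, abs_of_pos ht]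
    ring
  rw [h2] at h1
  simp only [norm_zero, mul_zero, Real.exp_zero, mul_one] at h1
  have hpr : 0 ≤ ∏ α ∈ R, (|(inner ℝ) α a| * |(inner ℝ) α b|) :=
    Finset.prod_nonneg fun α _ => mul_nonneg (abs_nonneg _) (abs_nonneg _)
  have h4 : ‖E R a (t • b, 0)‖ ^ 2 ≤
      (Real.sqrt (C * ∏ α ∈ R, (|(inner ℝ) α a| * |(inner ℝ) α b|)) * t ^ N) ^ 2 := by
    rw [mul_pow, Real.sq_sqrt (mul_nonneg hC hpr), ← pow_mul, mul_comm N 2]
    refine h1.trans (le_of_eq ?_)
    ring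
  have h5 := abs_le_of_sq_le_sq h4 (mul_nonneg (Real.sqrt_nonneg _) (pow_nonneg ht.le _))
  rwa [abs_of_nonneg (norm_nonneg _)] at h5

theorem vanish (hW : S_W) (hF1 : S_F1) (R : Finset (V n)) (hR : IsRS R) (N : ℕ) (hN : 2 * N = R.card)
    (a b : V n) (k : ℕ) : k < N → P R k a b = 0 := by
  induction k using Nat.strong_induction_on with
  | _ k ih =>
    intro hk
    obtain ⟨-, -, hsg, -, -, -, -, -, -⟩ := hW n R hR
    obtain ⟨D, hD, hE⟩ := E_small hF1 R hR N hN a b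
    have hx : 0 ≤ ‖a‖ * ‖b‖ := mul_nonneg (norm_nonneg _) (norm_nonneg _)
    have hM : 0 ≤ ((Wf R).card : ℝ) * K k := mul_nonneg (Nat.cast_nonneg _) (K_nonneg k)
    have hf : (0 : ℝ) < k.factorial := by exact_mod_cast Nat.factorial_pos k
    have key : ∀ t : ℝ, 0 < t → t ≤ 1 / (1 + ‖a‖ * ‖b‖) →
        |P R k a b| / k.factorial ≤ (D + ((Wf R).card : ℝ) * K k * (‖a‖ * ‖b‖) ^ (k + 1)) * t := by
      intro t ht ht1
      have hden : 0 < 1 + ‖a‖ * ‖b‖ := by positivity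
      have ht2 : t * (1 + ‖a‖ * ‖b‖) ≤ 1 := by
        rwa [le_div_iff₀ hden] at ht1
      have ht3 : t ≤ 1 := by nlinarith
      have hnb : ‖a‖ * ‖t • b‖ = t * (‖a‖ * ‖b‖) := by
        rw [norm_smul, Real.norm_eq_abs, abs_of_pos ht]
        ring
      have h1 := expand R hsg k a (t • b) (by rw [hnb]; nlinarith)
      rw [hnb, Finset.sum_range_succ] at h1
      have h2 : ∑ j ∈ range k, Complex.I ^ j / (j.factorial : ℂ) * ((P R j a (t • b) : ℝ) : ℂ) = 0 := by
        refine Finset.sum_eq_zero fun j hj => ?_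
        rw [P_smul, ih j (Finset.mem_range.1 hj) (lt_trans (Finset.mem_range.1 hj) hk)]
        simp
      rw [h2, zero_add, P_smul] at h1
      have h3 : ‖Complex.I ^ k / (k.factorial : ℂ) * ((t ^ k * P R k a b : ℝ) : ℂ)‖ =
          t ^ k * (|P R k a b| / k.factorial) := by
        rw [norm_mul, norm_div, norm_pow, Complex.norm_I, one_pow, Complex.norm_natCast,
          Complex.norm_real, Real.norm_eq_abs, abs_mul, abs_of_pos (pow_pos ht k)]
        ring
      have h4 : t ^ k * (|P R k a b| / k.factorial) ≤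
          D * t ^ N + ((Wf R).card : ℝ) * K k * (t * (‖a‖ * ‖b‖)) ^ (k + 1) := by
        rw [← h3]
        have h5 := norm_sub_norm_le (Complex.I ^ k / (k.factorial : ℂ) * ((t ^ k * P R k a b : ℝ) : ℂ))
          (E R a (t • b, 0))
        rw [norm_sub_rev] at h5
        linarith [hE t ht]
      have h5 : D * t ^ N ≤ D * t ^ (k + 1) :=
        mul_le_mul_of_nonneg_left (pow_le_pow_of_le_one ht.le ht3 hk) hD
      have h6 : t ^ k * (|P R k a b| / k.factorial) ≤
          t ^ k * ((D + ((Wf R).card : ℝ) * K k * (‖a‖ * ‖b‖) ^ (k + 1)) * t) := by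
        refine h4.trans ((add_le_add_left h5 _).trans (le_of_eq ?_))
        rw [mul_pow]
        ring
      exact le_of_mul_le_mul_left h6 (pow_pos ht k)
    have h0 := zero_of_le (div_nonneg (abs_nonneg (P R k a b)) hf.le)
      (add_nonneg hD (mul_nonneg hM (pow_nonneg hx _))) (by positivity) key
    rw [div_eq_zero_iff] at h0
    rcases h0 with h0 | h0
    · exact abs_eq_zero.1 h0
    · exact absurd h0 hf.ne'

theorem main : S_W → S_F1 → S_tay := by
  intro hW hF1 n R hR δ hδ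
  have hN := card_pos hW R hR δ hδ
  have hsg := (hW n R hR).2.2.1
  refine ⟨((Wf R).card : ℝ) * K (pos R δ).card, mul_nonneg (Nat.cast_nonneg _) (K_nonneg _), hN, ?_⟩
  intro a b hab
  have h1 := expand R hsg (pos R δ).card a b hab
  rw [Finset.sum_range_succ] at h1
  have h2 : ∑ j ∈ range (pos R δ).card, Complex.I ^ j / (j.factorial : ℂ) * ((P R j a b : ℝ) : ℂ) = 0 := by
    refine Finset.sum_eq_zero fun j hj => ?_
    rw [vanish hW hF1 R hR _ hN a b j (Finset.mem_range.1 hj)]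
    simp
  rw [h2, zero_add] at h1
  exact h1

end H391.AE.P_tay
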