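import Mathlib
import Pool.Agent.H391.AE.S

set_option autoImplicit false

open Finset
open scoped InnerProductSpace

namespace H391.AE.P_up

open H391.AE

theorem nd_nonneg (x : ℝ) : 0 ≤ nd x := abs_nonneg _

theorem nd_le (x : ℝ) : nd x ≤ 1 / 2 := abs_sub_round x

theorem nd_le_sin (x : ℝ) : nd x ≤ |Real.sin (Real.pi * x)| := by
  have h1 : |Real.sin (Real.pi * x)| = |Real.sin (Real.pi * (x - round x))| := by
    have : Real.pi * (x - round x) = Real.pi * x - (round x : ℤ) * Real.pi := by ring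
    rw [this, Real.sin_sub_int_mul_pi, abs_mul]
    rw [abs_zpow, abs_neg, abs_one, one_zpow, one_mul]
  rw [h1]
  have hpi := Real.pi_pos
  have h2 : |Real.pi * (x - round x)| ≤ Real.pi / 2 := by
    rw [abs_mul, abs_of_pos hpi]
    have := nd_le x
    unfold nd at this
    nlinarith
  have h3 := Real.mul_abs_le_abs_sin h2
  have h4 : 2 / Real.pi * |Real.pi * (x - round x)| = 2 * |x - round x| := by
    rw [abs_mul, abs_of_pos hpi]
    field_simp
  rw [h4] at h3
  have h5 : 0 ≤ |x - round x| := abs_nonneg _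
  unfold nd
  linarith

theorem main : S_U → S_nd → S_lab → S_cnt → S_sum → S_up := by
  classical
  intro hU hnd hlab hcnt hsum n R hR δ hδ p hp
  obtain ⟨C1, hC1, hU⟩ := hU n R hR
  obtain ⟨C2, hC2, hcnt⟩ := hcnt n R hR δ hδ
  obtain ⟨α₀, hα₀, hα₀2⟩ := hR.long
  have hn : 1 ≤ n := by
    by_contra hc
    have h0 : n = 0 := by omega
    subst h0
    have : α₀ = 0 := Subsingleton.elim _ _
    rw [this, inner_zero_left] at hα₀2
    norm_num at hα₀2
  have hne : R.Nonempty := ⟨α₀, hα₀⟩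
  obtain ⟨C3, hC3, hsum⟩ := hsum n p hn hp C2 hC2
  refine ⟨C1 ^ p * C3, by positivity, ?_⟩
  intro r hr
  have hr1 : 1 ≤ r := by omega
  have hrpos : (0 : ℝ) < r := by exact_mod_cast (show 0 < r by omega)
  obtain ⟨hl1, hl2⟩ := hlab n R hR δ hδ r
  -- the maximum
  let m : V n → ℝ := fun a => R.sup' hne (fun α => nd (inner ℝ α a / r))
  have hm1 : ∀ a, ∀ α ∈ R, nd (inner ℝ α a / r) ≤ m a := fun a α hα =>
    Finset.le_sup' (fun α => nd (inner ℝ α a / r)) hα
  have hm2 : ∀ a, ∃ α ∈ R, m a = nd (inner ℝ α a / r) := fun a =>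
    Finset.exists_mem_eq_sup' hne (fun α => nd (inner ℝ α a / r))
  let M : V n → ℝ := fun a => r * m a
  have hM : ∀ a ∈ labels R δ r, 1 / 3 ≤ M a ∧ M a ≤ r := by
    intro a ha
    obtain ⟨α, hα, hαm⟩ := hm2 a
    constructor
    · have h1 := hnd n R hR r hr1 a (hl2 a ha) α hα
      rw [← hαm] at h1
      show 1 / 3 ≤ r * m a
      have h2 : (r : ℝ) * (1 / (3 * (r : ℝ))) = 1 / 3 := by field_simp
      rw [← h2]
      exact mul_le_mul_of_nonneg_left h1 hrpos.le
    · show r * m a ≤ r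
      rw [hαm]
      have := nd_le (inner ℝ α a / r)
      nlinarith
  have hcount : ∀ X : ℝ, 1 ≤ X → (((labels R δ r).filter fun a => M a ≤ X).card : ℝ) ≤ C2 * X ^ n := by
    intro X hX
    refine le_trans ?_ (hcnt r hr1 X hX)
    have : ((labels R δ r).filter fun a => M a ≤ X) ⊆
        ((labels R δ r).filter fun a => ∀ α ∈ R, (r : ℝ) * nd (inner ℝ α a / r) ≤ X) := by
      intro a ha
      rw [Finset.mem_filter] at ha ⊢
      refine ⟨ha.1, fun α hα => le_trans ?_ ha.2⟩
      exact mul_le_mul_of_nonneg_left (hm1 a α hα) hrpos.le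
    have h := Finset.card_le_card this
    have h' : (((labels R δ r).filter fun a => M a ≤ X).card : ℝ) ≤
      (((labels R δ r).filter fun a => ∀ α ∈ R, (r : ℝ) * nd (inner ℝ α a / r) ≤ X).card : ℝ) := by
      exact_mod_cast h
    refine le_trans h' (le_of_eq ?_)
    congr 2
  have hS := hsum r hr (V n) (labels R δ r) M hM hcount
  have hG : ∀ a ∈ labels R δ r, ∀ b ∈ labels R δ r,
      G R r a b ^ p ≤ C1 ^ p * (1 / (1 + (M a * M b / r) ^ 2)) ^ p := by
    intro a ha b hb
    rw [← mul_pow]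
    have hG0 : 0 ≤ G R r a b := by
      unfold G
      apply div_nonneg (by positivity)
      apply mul_nonneg (by positivity)
      exact Finset.prod_nonneg (fun α _ => by positivity)
    apply pow_le_pow_left₀ hG0
    obtain ⟨α, hα, hαm⟩ := hm2 a
    obtain ⟨β, hβ, hβm⟩ := hm2 b
    have h1 := hU r hr1 a b (hl2 a ha) (hl2 b hb) α hα β hβ
    rw [← hαm, ← hβm] at h1
    have h2 : (r : ℝ) * m a * m b = M a * M b / r := by
      show (r : ℝ) * m a * m b = (r * m a) * (r * m b) / r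
      field_simp
    rw [h2] at h1
    have hndpos : ∀ c ∈ labels R δ r, ∀ γ ∈ R, 0 < nd (inner ℝ γ c / r) := by
      intro c hc γ hγ
      have := hnd n R hR r hr1 c (hl2 c hc) γ hγ
      have h3 : (0 : ℝ) < 1 / (3 * (r : ℝ)) := by positivity
      linarith
    have hPpos : 0 < ∏ γ ∈ R, (nd (inner ℝ γ a / r) * nd (inner ℝ γ b / r)) :=
      Finset.prod_pos (fun γ hγ => mul_pos (hndpos a ha γ hγ) (hndpos b hb γ hγ))
    have hPle : ∏ γ ∈ R, (nd (inner ℝ γ a / r) * nd (inner ℝ γ b / r)) ≤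
        ∏ α ∈ R, (|Real.sin (Real.pi * (inner ℝ α a / r))| *
          |Real.sin (Real.pi * (inner ℝ α b / r))|) := by
      apply Finset.prod_le_prod
      · intro γ hγ
        exact mul_nonneg (nd_nonneg _) (nd_nonneg _)
      · intro γ hγ
        exact mul_le_mul (nd_le_sin _) (nd_le_sin _) (nd_nonneg _) (abs_nonneg _)
    have hrR : 0 < (r : ℝ) ^ R.card := by positivity
    have hQ : 0 < 1 + (M a * M b / r) ^ 2 := by positivity
    unfold G
    rw [mul_one_div]
    have hD : 0 < (r : ℝ) ^ R.card * ∏ α ∈ R, (|Real.sin (Real.pi * (inner ℝ α a / r))| *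
          |Real.sin (Real.pi * (inner ℝ α b / r))|) :=
      mul_pos hrR (lt_of_lt_of_le hPpos hPle)
    rw [div_le_div_iff₀ hD hQ]
    refine le_trans h1 ?_
    rw [mul_assoc]
    exact mul_le_mul_of_nonneg_left (mul_le_mul_of_nonneg_left hPle hrR.le) hC1
  calc ∑ a ∈ labels R δ r, ∑ b ∈ labels R δ r, G R r a b ^ p
      ≤ ∑ a ∈ labels R δ r, ∑ b ∈ labels R δ r,
          C1 ^ p * (1 / (1 + (M a * M b / r) ^ 2)) ^ p :=
        Finset.sum_le_sum (fun a ha => Finset.sum_le_sum (fun b hb => hG a ha b hb))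
    _ = C1 ^ p * ∑ a ∈ labels R δ r, ∑ b ∈ labels R δ r,
          (1 / (1 + (M a * M b / r) ^ 2)) ^ p := by
        rw [Finset.mul_sum]
        exact Finset.sum_congr rfl (fun a _ => by rw [Finset.mul_sum])
    _ ≤ C1 ^ p * (C3 * ((r : ℝ) ^ n * Real.log r)) :=
        mul_le_mul_of_nonneg_left hS (by positivity)
    _ = C1 ^ p * C3 * ((r : ℝ) ^ n * Real.log r) := by ring

end H391.AE.P_up
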