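import Mathlib
import Pool.Agent.H391.AE.S

/-!
# AE-hb: decay near the origin (helper252, for helper391)
-/

set_option autoImplicit false

open Finset
open scoped InnerProductSpace

namespace H391.AE.P_hb

variable {n : ℕ}

theorem inv_apply (w : V n ≃ₗᵢ[ℝ] V n) (x : V n) : w (w⁻¹ x) = x := by
  have : (w * w⁻¹) x = x := by
    rw [mul_inv_cancel]
    rfl
  exact this

theorem ip_inv (w : V n ≃ₗᵢ[ℝ] V n) (α x : V n) : (inner ℝ) α (w⁻¹ x) = (inner ℝ) (w α) x := by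
  rw [← w.inner_map_map, inv_apply]

theorem cp_inv (w : V n ≃ₗᵢ[ℝ] V n) (α : V n) (z : V n × V n) :
    cp α (w⁻¹ z.1, w⁻¹ z.2) = cp (w α) z := by
  unfold cp
  simp only [ip_inv]

theorem cp_real (α b : V n) : cp α (b, 0) = (((inner ℝ) α b : ℝ) : ℂ) := by
  unfold cp
  simp

theorem norm_cp_real (α b : V n) : ‖cp α (b, 0)‖ = |(inner ℝ) α b| := by
  rw [cp_real, Complex.norm_real, Real.norm_eq_abs]

theorem cp_shift (β : V n) (z : V n × V n) (v : V n) (ζ : ℂ) :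
    cp β (shift z v ζ) = cp β z + ζ * (((inner ℝ) β v : ℝ) : ℂ) := by
  have h := Complex.re_add_im ζ
  calc cp β (shift z v ζ) = cp β z + ((ζ.re : ℂ) + (ζ.im : ℂ) * Complex.I) * (((inner ℝ) β v : ℝ) : ℂ) := by
        unfold cp shift
        simp only [inner_add_right, inner_smul_right]
        push_cast
        ring
    _ = _ := by rw [h]

theorem prod_low (R Φ : Finset (V n)) (hΦ : Φ ⊆ R) (f : V n → ℝ) (κ M : ℝ) (hκ : 0 ≤ κ)
    (hκ1 : κ ≤ 1) (hM : 0 ≤ M) (hf : ∀ α ∈ R, α ∉ Φ → κ ≤ f α) (hf0 : ∀ α ∈ R, 0 ≤ f α)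
    (α₀ α₁ : V n) (h0 : α₀ ∈ R) (h0' : α₀ ∉ Φ) (h1 : α₁ ∈ R) (h1' : α₁ ∉ Φ) (hne : α₀ ≠ α₁)
    (hM0 : M ≤ f α₀) (hM1 : M ≤ f α₁) :
    κ ^ R.card * M ^ 2 * ∏ α ∈ Φ, f α ≤ ∏ α ∈ R, f α := by
  classical
  have h2 : {α₀, α₁} ⊆ R \ Φ := by
    intro x hx
    rw [mem_insert, mem_singleton] at hx
    rw [mem_sdiff]
    rcases hx with rfl | rfl
    · exact ⟨h0, h0'⟩
    · exact ⟨h1, h1'⟩
  have h6 : ∀ α ∈ (R \ Φ) \ {α₀, α₁}, κ ≤ f α := by
    intro α hα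
    have h7 := (mem_sdiff.1 (mem_sdiff.1 hα).1)
    exact hf α h7.1 h7.2
  rw [← Finset.prod_sdiff hΦ, ← Finset.prod_sdiff h2, Finset.prod_pair hne]
  have h3 : κ ^ R.card ≤ ∏ α ∈ (R \ Φ) \ {α₀, α₁}, f α := by
    calc κ ^ R.card ≤ κ ^ ((R \ Φ) \ {α₀, α₁}).card :=
          pow_le_pow_of_le_one hκ hκ1 (card_le_card (sdiff_subset.trans sdiff_subset))
      _ = ∏ _α ∈ (R \ Φ) \ {α₀, α₁}, κ := (prod_const _).symm
      _ ≤ _ := prod_le_prod (fun _ _ => hκ) h6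
  have h4 : M ^ 2 ≤ f α₀ * f α₁ := by
    rw [pow_two]
    exact mul_le_mul hM0 hM1 hM (hM.trans hM0)
  have h5 : 0 ≤ ∏ α ∈ Φ, f α := prod_nonneg fun α hα => hf0 α (hΦ hα)
  refine mul_le_mul_of_nonneg_right (mul_le_mul h3 h4 (by positivity) ?_) h5
  exact prod_nonneg fun α hα => hκ.trans (h6 α hα)

theorem main : S_W → S_alt → S_ld → S_F1 → S_sub → S_comp → S_cl → S_cov → S_hb := by
  classical
  intro hW hAlt hLd hF1 hSub hComp hCl hCov n R hR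
  have hRS : IsRS R := hR.toIsRS
  obtain ⟨hWf, hWR, -, -, hneg, -, -, -, hprod⟩ := hW n R hRS
  obtain ⟨ε, hε, hcomp⟩ := hComp n R hRS
  obtain ⟨c, C0, hc, hC0, hcl⟩ := hCl n R hRS
  -- a uniform constant for the subsystems
  choose CF hCF0 hCF using hF1 n
  set C1 : ℝ := ∑ Φ ∈ R.powerset, (if h : IsRS Φ then CF Φ h else 0) with hC1
  have hnn : ∀ Φ : Finset (V n), 0 ≤ (if h : IsRS Φ then CF Φ h else 0) := by
    intro Φ
    split_ifs with h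
    · exact hCF0 Φ h
    · exact le_rfl
  have hC1nn : 0 ≤ C1 := sum_nonneg fun Φ _ => hnn Φ
  have hle : ∀ Φ ⊆ R, ∀ h : IsRS Φ, CF Φ h ≤ C1 := by
    intro Φ hΦ h
    have h1 := Finset.single_le_sum (f := fun Φ => if h : IsRS Φ then CF Φ h else 0)
      (fun Φ _ => hnn Φ) (Finset.mem_powerset.2 hΦ)
    have h2 : (if h : IsRS Φ then CF Φ h else 0) = CF Φ h := dif_pos h
    rw [← h2]
    exact h1
  have hF : ∀ Φ ⊆ R, IsRS Φ → ∀ (a : V n) (z : V n × V n), ‖E Φ a z‖ ^ 2 ≤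
      C1 * (∏ α ∈ Φ, (|(inner ℝ) α a| * ‖cp α z‖)) * Real.exp (C1 * (‖a‖ * ‖z.2‖)) := by
    intro Φ hΦ h a z
    refine (hCF Φ h a z).trans ?_
    have h1 := hle Φ hΦ h
    have h2 : 0 ≤ ∏ α ∈ Φ, (|(inner ℝ) α a| * ‖cp α z‖) := prod_nonneg fun _ _ => by positivity
    have h3 : 0 ≤ ‖a‖ * ‖z.2‖ := by positivity
    refine mul_le_mul (mul_le_mul_of_nonneg_right h1 h2)
      (Real.exp_le_exp.2 (mul_le_mul_of_nonneg_right h1 h3)) (Real.exp_pos _).le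
      (mul_nonneg hC1nn h2)
  set κ : ℝ := min 1 (ε * c) with hκ
  have hκ0 : 0 < κ := lt_min one_pos (mul_pos hε hc)
  set K : ℝ := 8 * C0 / ε with hK
  have hK0 : 0 ≤ K := by positivity
  set Wc : ℝ := ((Wf R).card : ℝ) with hWc
  set X : ℝ := Real.exp (C1 * (2 * C0)) with hX
  have hX0 : 0 < X := Real.exp_pos _
  refine ⟨K ^ 2 * C1 + Wc ^ 2 * C1 * X / (κ ^ R.card * (ε ^ 2 / 2) ^ 2), by positivity, ?_⟩
  intro a b
  have hP : ∏ α ∈ R, (|(inner ℝ) α a| * |(inner ℝ) α b|) = (∏ α ∈ R, |(inner ℝ) α a|) * ∏ α ∈ R, |(inner ℝ) α b| :=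
    prod_mul_distrib
  have hP0 : 0 ≤ ∏ α ∈ R, (|(inner ℝ) α a| * |(inner ℝ) α b|) := prod_nonneg fun _ _ => by positivity
  by_cases hz : ∃ α ∈ R, (inner ℝ) α a = 0 ∨ (inner ℝ) α b = 0
  · obtain ⟨α, hα, h1⟩ := hz
    have h2 : E R a (b, 0) = 0 := by
      rcases h1 with h1 | h1
      · exact (hAlt n R hRS a (b, 0) α hα).1 h1
      · exact (hAlt n R hRS a (b, 0) α hα).2 (by rw [cp_real, h1, Complex.ofReal_zero])
    rw [h2, norm_zero]
    have : (0 : ℝ) ^ 2 = 0 := by norm_num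
    rw [this, mul_zero]
    positivity
  push Not at hz
  obtain ⟨αl, hαl, -⟩ := hR.long
  have ha0 : a ≠ 0 := by
    intro h
    exact (hz αl hαl).1 (by rw [h, inner_zero_right])
  have hb0 : b ≠ 0 := by
    intro h
    exact (hz αl hαl).2 (by rw [h, inner_zero_right])
  have hna : 0 < ‖a‖ := norm_pos_iff.2 ha0
  have hnb : 0 < ‖b‖ := norm_pos_iff.2 hb0
  have hN : 0 < ‖a‖ * ‖b‖ := mul_pos hna hnb
  by_cases hcase : ‖a‖ * ‖b‖ ≤ K
  · -- small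
    have h1 := hF R Subset.rfl hRS a (b, 0)
    simp only [norm_cp_real, norm_zero, mul_zero, Real.exp_zero, mul_one] at h1
    calc (‖a‖ * ‖b‖) ^ 2 * ‖E R a (b, 0)‖ ^ 2
        ≤ K ^ 2 * (C1 * ∏ α ∈ R, (|(inner ℝ) α a| * |(inner ℝ) α b|)) :=
          mul_le_mul (pow_le_pow_left₀ hN.le hcase 2) h1 (by positivity) (by positivity)
      _ = (K ^ 2 * C1) * ∏ α ∈ R, (|(inner ℝ) α a| * |(inner ℝ) α b|) := by ring
      _ ≤ _ := by
          refine mul_le_mul_of_nonneg_right ?_ hP0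
          have : 0 ≤ Wc ^ 2 * C1 * X / (κ ^ R.card * (ε ^ 2 / 2) ^ 2) := by positivity
          linarith
  -- large
  push Not at hcase
  obtain ⟨x1, ⟨β1, hβ1, hβ1'⟩, hx1⟩ := hcomp a (by rw [hR.span_top]; trivial) ha0
  obtain ⟨x2, ⟨β2, hβ2, hβ2'⟩, hx2⟩ := hcomp b (by rw [hR.span_top]; trivial) hb0
  have hmem : ∀ x α : V n, α ∈ Rz R x ↔ α ∈ R ∧ (inner ℝ) x α = 0 := by
    intro x α
    unfold Rz
    exact mem_filter
  set Φ := Rz R x1 with hΦ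
  have hΦR : Φ ⊆ R := fun α hα => ((hmem x1 α).1 hα).1
  have hΦne : Φ ≠ R := by
    intro h
    rw [← h] at hβ1
    exact hβ1' ((hmem x1 β1).1 hβ1).2
  obtain ⟨hΦRS, hΦCl⟩ := (hSub n R hRS x1).2
  obtain ⟨v, ρ, hv, hρ1, hρ2, hlow, hconc⟩ := hcl a (b, 0) (1 / ‖a‖) (by
    intro β hβ
    rw [cp_real]
    exact_mod_cast (hz β hβ).2) (by positivity)
  set M : ℝ := ε ^ 2 / 2 * (‖a‖ * ‖b‖) with hM
  have hM0 : 0 < M := by positivity
  set Q : ℝ := κ ^ R.card * M ^ 2 with hQ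
  have hQ0 : 0 < Q := by positivity
  set A : ℝ := ∏ α ∈ R, |(inner ℝ) α a| with hA
  have hA0 : 0 ≤ A := prod_nonneg fun _ _ => abs_nonneg _
  have hroot : ∀ β ∈ R, ‖β‖ ≤ 2 := by
    intro β hβ
    have h1 := hR.short β hβ
    rw [real_inner_self_eq_norm_sq] at h1
    nlinarith [norm_nonneg β]
  have hρ0 : 0 ≤ ρ := le_trans (by positivity) hρ1
  have hconc2 := hconc (Wc ^ 2 * C1 * X * A / Q) (by positivity) (by
    intro ζ hζ
    set z' := shift (b, 0) v ζ with hz'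
    have hz2 : ‖a‖ * ‖z'.2‖ ≤ 2 * C0 := by
      have h1 : z'.2 = ζ.im • v := by
        rw [hz']
        unfold shift
        simp
      rw [h1, norm_smul, Real.norm_eq_abs]
      have h2 : |ζ.im| ≤ ρ := hζ ▸ Complex.abs_im_le_norm ζ
      have h3 : |ζ.im| * ‖v‖ ≤ ρ * C0 := mul_le_mul h2 hv (norm_nonneg _) hρ0
      have h4 : ρ * ‖a‖ ≤ 2 := by
        have := mul_le_mul_of_nonneg_right hρ2 hna.le
        rwa [mul_assoc, one_div, inv_mul_cancel₀ hna.ne', mul_one] at this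
      calc ‖a‖ * (|ζ.im| * ‖v‖) ≤ ‖a‖ * (ρ * C0) := mul_le_mul_of_nonneg_left h3 hna.le
        _ = (ρ * ‖a‖) * C0 := by ring
        _ ≤ 2 * C0 := mul_le_mul_of_nonneg_right h4 hC0
    have hbig : ∀ β ∈ R, (inner ℝ) x2 β ≠ 0 → ε / 2 * ‖b‖ ≤ ‖cp β z'‖ := by
      intro β hβ hβ'
      rw [hz', cp_shift]
      have h1 := hx2 β hβ hβ'
      have h2 : ‖cp β (b, 0)‖ - ‖ζ * (((inner ℝ) β v : ℝ) : ℂ)‖ ≤
          ‖cp β (b, 0) + ζ * (((inner ℝ) β v : ℝ) : ℂ)‖ := by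
        have := norm_sub_norm_le (cp β (b, 0)) (-(ζ * (((inner ℝ) β v : ℝ) : ℂ)))
        rw [norm_neg, sub_neg_eq_add] at this
        exact this
      rw [norm_cp_real, norm_mul, hζ, Complex.norm_real, Real.norm_eq_abs] at h2
      have h3 : |(inner ℝ) β v| ≤ 2 * C0 :=
        (abs_real_inner_le_norm β v).trans (mul_le_mul (hroot β hβ) hv (norm_nonneg _) (by norm_num))
      have h4 : ρ * |(inner ℝ) β v| ≤ 2 * (1 / ‖a‖) * (2 * C0) :=
        mul_le_mul hρ2 h3 (abs_nonneg _) (by positivity)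
      have h5 : 2 * (1 / ‖a‖) * (2 * C0) ≤ ε / 2 * ‖b‖ := by
        rw [hK, div_lt_iff₀ hε] at hcase
        have h6 : 2 * (1 / ‖a‖) * (2 * C0) = 4 * C0 / ‖a‖ := by ring
        rw [h6, div_le_iff₀ hna]
        nlinarith
      linarith
    -- one Weyl group element
    have hone : ∀ w ∈ Wf R, Q * ‖E Φ a (w⁻¹ z'.1, w⁻¹ z'.2)‖ ^ 2 ≤
        C1 * X * (A * ∏ α ∈ R, ‖cp α z'‖) := by
      intro w hw
      have hwinv : w⁻¹ ∈ Wf R := (hWf _).2 ((W R).inv_mem ((hWf w).1 hw))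
      have h1 := hF Φ hΦR hΦRS a (w⁻¹ z'.1, w⁻¹ z'.2)
      simp only [cp_inv, LinearIsometryEquiv.norm_map] at h1
      have h2 : Real.exp (C1 * (‖a‖ * ‖z'.2‖)) ≤ X :=
        Real.exp_le_exp.2 (mul_le_mul_of_nonneg_left hz2 hC1nn)
      obtain ⟨-, hCl2⟩ := (hSub n R hRS (w⁻¹ x2)).2
      have hne2 : Rz R (w⁻¹ x2) ≠ R := by
        intro h
        have h3 : w⁻¹ β2 ∈ Rz R (w⁻¹ x2) := by
          rw [h]
          exact hWR _ hwinv β2 hβ2
        have h4 := ((hmem _ _).1 h3).2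
        rw [LinearIsometryEquiv.inner_map_map] at h4
        exact hβ2' h4
      obtain ⟨α₀, hα₀, hα₀1, hα₀2⟩ := hCov n R hR Φ (Rz R (w⁻¹ x2)) hΦCl hCl2 hΦne hne2
      have hip : (inner ℝ) x2 (w α₀) ≠ 0 := by
        intro h
        apply hα₀2
        rw [hmem]
        refine ⟨hα₀, ?_⟩
        rw [real_inner_comm, ip_inv, real_inner_comm]
        exact h
      have hip1 : (inner ℝ) x1 α₀ ≠ 0 := by
        intro h
        exact hα₀1 ((hmem _ _).2 ⟨hα₀, h⟩)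
      have hα₀n : α₀ ≠ 0 := by
        intro h
        rw [h] at hα₀
        exact hRS.ne0 hα₀
      have hf : ∀ α ∈ R, α ∉ Φ → ε * ‖a‖ ≤ |(inner ℝ) α a| := by
        intro α hα hα'
        refine hx1 α hα ?_
        intro h
        exact hα' ((hmem _ _).2 ⟨hα, h⟩)
      have hMle : ∀ α ∈ R, (inner ℝ) x1 α ≠ 0 → (inner ℝ) x2 (w α) ≠ 0 → M ≤ |(inner ℝ) α a| * ‖cp (w α) z'‖ := by
        intro α hα h3 h4
        calc M = (ε * ‖a‖) * (ε / 2 * ‖b‖) := by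
              rw [hM]
              ring
          _ ≤ |(inner ℝ) α a| * ‖cp (w α) z'‖ :=
              mul_le_mul (hx1 α hα h3) (hbig (w α) (hWR w hw α hα) h4) (by positivity)
                (abs_nonneg _)
      have h3 := prod_low R Φ hΦR (fun α => |(inner ℝ) α a| * ‖cp (w α) z'‖) κ M hκ0.le (min_le_left _ _)
        hM0.le (by
          intro α hα hα'
          have h4 := hf α hα hα'
          have h5 := hlow ζ hζ (w α) (hWR w hw α hα)
          calc κ ≤ ε * c := min_le_right _ _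
            _ = (ε * ‖a‖) * (c * (1 / ‖a‖)) := by
                field_simp
            _ ≤ _ := mul_le_mul h4 h5 (by positivity) (abs_nonneg _))
        (fun α _ => by positivity) α₀ (-α₀) hα₀ hα₀1 (hneg α₀ hα₀) (by
          intro h
          have h4 := ((hmem _ _).1 h).2
          rw [inner_neg_right, neg_eq_zero] at h4
          exact hip1 h4) (by
          intro h
          have h4 : (2 : ℝ) • α₀ = 0 := by
            rw [two_smul]
            exact add_eq_zero_iff_eq_neg.2 h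
          exact hα₀n ((smul_eq_zero.1 h4).resolve_left two_ne_zero))
        (hMle α₀ hα₀ hip1 hip) (hMle (-α₀) (hneg α₀ hα₀) (by
          rw [inner_neg_right]
          exact neg_ne_zero.2 hip1) (by
          rw [map_neg, inner_neg_right]
          exact neg_ne_zero.2 hip))
      have h4 : ∏ α ∈ R, (|(inner ℝ) α a| * ‖cp (w α) z'‖) = A * ∏ α ∈ R, ‖cp α z'‖ := by
        rw [prod_mul_distrib, hprod w hw ℝ (fun α => ‖cp α z'‖)]
      rw [h4] at h3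
      have h5 : 0 ≤ ∏ α ∈ Φ, (|(inner ℝ) α a| * ‖cp (w α) z'‖) := prod_nonneg fun _ _ => by positivity
      calc Q * ‖E Φ a (w⁻¹ z'.1, w⁻¹ z'.2)‖ ^ 2
          ≤ Q * (C1 * (∏ α ∈ Φ, (|(inner ℝ) α a| * ‖cp (w α) z'‖)) * Real.exp (C1 * (‖a‖ * ‖z'.2‖))) :=
            mul_le_mul_of_nonneg_left h1 hQ0.le
        _ ≤ Q * (C1 * (∏ α ∈ Φ, (|(inner ℝ) α a| * ‖cp (w α) z'‖)) * X) := by
            refine mul_le_mul_of_nonneg_left (mul_le_mul_of_nonneg_left h2 ?_) hQ0.le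
            exact mul_nonneg hC1nn h5
        _ = C1 * X * (κ ^ R.card * M ^ 2 * ∏ α ∈ Φ, (|(inner ℝ) α a| * ‖cp (w α) z'‖)) := by
            rw [hQ]
            ring
        _ ≤ _ := mul_le_mul_of_nonneg_left h3 (by positivity)
    have hsum := hLd n R hRS Φ hΦR hΦRS a z'
    have h6 : ‖E R a z'‖ ^ 2 ≤ Wc * ∑ w ∈ Wf R, ‖E Φ a (w⁻¹ z'.1, w⁻¹ z'.2)‖ ^ 2 :=
      (pow_le_pow_left₀ (norm_nonneg _) hsum 2).trans sq_sum_le_card_mul_sum_sq
    have h7 : Q * ‖E R a z'‖ ^ 2 ≤ Wc ^ 2 * C1 * X * A * ∏ α ∈ R, ‖cp α z'‖ := by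
      calc Q * ‖E R a z'‖ ^ 2 ≤ Q * (Wc * ∑ w ∈ Wf R, ‖E Φ a (w⁻¹ z'.1, w⁻¹ z'.2)‖ ^ 2) :=
            mul_le_mul_of_nonneg_left h6 hQ0.le
        _ = Wc * ∑ w ∈ Wf R, Q * ‖E Φ a (w⁻¹ z'.1, w⁻¹ z'.2)‖ ^ 2 := by
            rw [← mul_sum]
            ring
        _ ≤ Wc * ∑ _w ∈ Wf R, C1 * X * (A * ∏ α ∈ R, ‖cp α z'‖) :=
            mul_le_mul_of_nonneg_left (sum_le_sum hone) (by positivity)
        _ = _ := by
            rw [sum_const, nsmul_eq_mul]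
            ring
    rw [div_mul_eq_mul_div, le_div_iff₀ hQ0, mul_comm]
    exact h7)
  simp only [norm_cp_real] at hconc2
  calc (‖a‖ * ‖b‖) ^ 2 * ‖E R a (b, 0)‖ ^ 2
      ≤ (‖a‖ * ‖b‖) ^ 2 * (Wc ^ 2 * C1 * X * A / Q * ∏ β ∈ R, |(inner ℝ) β b|) :=
        mul_le_mul_of_nonneg_left hconc2 (by positivity)
    _ = (Wc ^ 2 * C1 * X / (κ ^ R.card * (ε ^ 2 / 2) ^ 2)) * (A * ∏ β ∈ R, |(inner ℝ) β b|) := by
        rw [hQ, hM]
        field_simp
    _ ≤ _ := by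
        rw [hP]
        refine mul_le_mul_of_nonneg_right ?_ (by positivity)
        have : 0 ≤ K ^ 2 * C1 := by positivity
        linarith

end H391.AE.P_hb
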