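import Mathlib
import Pool.Agent.H391.AE.S

set_option autoImplicit false

open Finset
open scoped InnerProductSpace

namespace H391.AE.P_wdf

variable {n : ℕ} {R : Finset (V n)} {δ : V n}

lemma mem_pos {α : V n} : α ∈ pos R δ ↔ α ∈ R ∧ 0 < (inner ℝ) δ α := by
  classical
  simp [pos]

lemma pos_or (hneg : ∀ α ∈ R, -α ∈ R) (hδ : Reg R δ) {α : V n} (h : α ∈ R) :
    α ∈ pos R δ ∨ -α ∈ pos R δ := by
  rcases lt_or_gt_of_ne (hδ α h) with h1 | h1
  · right; exact mem_pos.2 ⟨hneg α h, by rw [inner_neg_right]; linarith⟩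
  · left; exact mem_pos.2 ⟨h, h1⟩

lemma not_both {α : V n} (h : α ∈ pos R δ) (h' : -α ∈ pos R δ) : False := by
  have h1 := (mem_pos.1 h).2
  have h2 := (mem_pos.1 h').2
  rw [inner_neg_right] at h2
  linarith

lemma ip_pos (hR : IsRS R) {α : V n} (h : α ∈ R) : 0 < (inner ℝ) α α := by
  have : α ≠ 0 := fun h0 => hR.ne0 (h0 ▸ h)
  exact real_inner_self_pos.2 this

/-- simple roots -/
def Smp (R : Finset (V n)) (δ α : V n) : Prop :=
  α ∈ pos R δ ∧ ∀ β ∈ pos R δ, ∀ γ ∈ pos R δ, β + γ ≠ α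

lemma descent (hR : IsRS R) (hneg : ∀ α ∈ R, -α ∈ R)
    (hrs : ∀ α ∈ R, ∀ β ∈ R, (inner ℝ) α β < 0 → β ≠ -α → α + β ∈ R) (hδ : Reg R δ) {α : V n}
    (hα : Smp R δ α) :
    ∀ z : ℕ, ∀ β ∈ pos R δ, ∀ γ ∈ pos R δ, β ≠ α → γ ≠ α → 2 * (inner ℝ) β α = z * (inner ℝ) α α →
      β + γ = (z : ℝ) • α → False := by
  have hα0 : 0 < (inner ℝ) α α := ip_pos hR (mem_pos.1 hα.1).1
  have key : ∀ β ∈ pos R δ, β ≠ α → 0 < (inner ℝ) β α → β - α ∈ pos R δ := by
    intro β hβ hne hpos
    have hmem : β - α ∈ R := by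
      have := hrs (-α) (hneg α (mem_pos.1 hα.1).1) β (mem_pos.1 hβ).1
        (by rw [inner_neg_left, real_inner_comm]; linarith) (by simpa using hne)
      rwa [neg_add_eq_sub] at this
    rcases pos_or hneg hδ hmem with h | h
    · exact h
    · exfalso
      exact hα.2 β hβ _ h (by abel)
  intro z
  induction z using Nat.strong_induction_on with
  | _ z ih =>
  intro β hβ γ hγ hβα hγα h1 h2
  rcases z with _ | _ | k
  · have h3 : (inner ℝ) δ (β + γ) = 0 := by rw [h2]; simp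
    rw [inner_add_right] at h3
    have := (mem_pos.1 hβ).2
    have := (mem_pos.1 hγ).2
    linarith
  · refine hα.2 β hβ γ hγ ?_
    rw [h2]; simp
  · have hk : (0 : ℝ) ≤ k := Nat.cast_nonneg k
    push_cast at h1 h2
    have hb : 0 < (inner ℝ) β α := by nlinarith
    have hg : 2 * (inner ℝ) γ α = (k + 1 + 1) * (inner ℝ) α α := by
      have h3 : (inner ℝ) (β + γ) α = (k + 1 + 1) * (inner ℝ) α α := by rw [h2, real_inner_smul_left]
      rw [inner_add_left] at h3
      linarith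
    have hg' : 0 < (inner ℝ) γ α := by nlinarith
    have hred : ∀ β ∈ pos R δ, β - α ≠ α := by
      intro β hβ h
      have h4 : β = (2 : ℝ) • α := by
        rw [two_smul]
        exact sub_eq_iff_eq_add.1 h
      have := hR.red α (mem_pos.1 hα.1).1 2 (h4 ▸ (mem_pos.1 hβ).1)
      norm_num at this
    refine ih k (by omega) (β - α) (key β hβ hβα hb) (γ - α) (key γ hγ hγα hg') (hred β hβ) (hred γ hγ) ?_ ?_
    · rw [inner_sub_left]; linarith
    · have h5 : β - α + (γ - α) = (β + γ) - (2 : ℝ) • α := by rw [two_smul]; abel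
      rw [h5, h2, ← sub_smul]
      congr 1
      ring

lemma refl_pos (hR : IsRS R) (hneg : ∀ α ∈ R, -α ∈ R)
    (hrs : ∀ α ∈ R, ∀ β ∈ R, (inner ℝ) α β < 0 → β ≠ -α → α + β ∈ R)
    (hrf : ∀ α : V n, α ≠ 0 → ∀ x : V n, refl α x = x - (2 * (inner ℝ) α x / (inner ℝ) α α) • α)
    (hδ : Reg R δ) {α : V n}
    (hα : Smp R δ α) {β : V n} (hβ : β ∈ pos R δ) (hne : β ≠ α) : refl α β ∈ pos R δ := by
  have hαR := (mem_pos.1 hα.1).1
  have hβR := (mem_pos.1 hβ).1
  have hα0 : 0 < (inner ℝ) α α := ip_pos hR hαR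
  have hα1 : α ≠ 0 := fun h0 => hR.ne0 (h0 ▸ hαR)
  rcases pos_or hneg hδ (hR.refl_mem α hαR β hβR) with h | h
  · exact h
  exfalso
  obtain ⟨z, hz⟩ := hR.int α hαR β hβR
  have e1 : refl α β = β - (z : ℝ) • α := by
    rw [hrf α hα1, hz, mul_div_cancel_right₀ _ hα0.ne']
  rw [e1] at h
  have e2 : β + (-(β - (z : ℝ) • α)) = (z : ℝ) • α := by abel
  have hzpos : 0 < (z : ℝ) := by
    have h3 : (inner ℝ) δ (β + (-(β - (z : ℝ) • α))) = z * (inner ℝ) δ α := by rw [e2, real_inner_smul_right]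
    rw [inner_add_right] at h3
    have h4 := (mem_pos.1 hβ).2
    have h5 := (mem_pos.1 h).2
    have h6 := (mem_pos.1 hα.1).2
    by_contra hc
    push Not at hc
    nlinarith
  have hz' : 0 < z := by exact_mod_cast hzpos
  obtain ⟨k, rfl⟩ := Int.eq_ofNat_of_zero_le hz'.le
  refine descent hR hneg hrs hδ hα k β hβ _ h hne ?_ ?_ ?_
  · intro h7
    have h8 : β = ((k : ℝ) - 1) • α := by
      rw [sub_smul, one_smul]
      have : β - ((k : ℤ) : ℝ) • α = -α := by
        have h77 := congrArg Neg.neg h7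
        rwa [neg_neg] at h77
      push_cast at this
      rw [sub_eq_iff_eq_add] at this
      rw [this]; abel
    rcases hR.red α hαR _ (h8 ▸ hβR) with h9 | h9
    · rw [h9, one_smul] at h8; exact hne h8
    · rw [h9, neg_one_smul] at h8
      exact not_both hα.1 (h8 ▸ hβ)
  · rw [real_inner_comm]
    push_cast at hz
    exact hz
  · push_cast at e2 ⊢
    exact e2

lemma refl_refl (α x : V n) : refl α (refl α x) = x := by
  unfold refl
  exact Submodule.reflection_reflection _ _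

lemma rho_simple (hR : IsRS R) (hneg : ∀ α ∈ R, -α ∈ R)
    (hrs : ∀ α ∈ R, ∀ β ∈ R, (inner ℝ) α β < 0 → β ≠ -α → α + β ∈ R)
    (hrf : ∀ α : V n, α ≠ 0 → ∀ x : V n, refl α x = x - (2 * (inner ℝ) α x / (inner ℝ) α α) • α)
    (hδ : Reg R δ) {α : V n} (hα : Smp R δ α) : 2 * (inner ℝ) α (rho R δ) = (inner ℝ) α α := by
  classical
  have hαR := (mem_pos.1 hα.1).1
  have hα0 : 0 < (inner ℝ) α α := ip_pos hR hαR
  have hα1 : α ≠ 0 := fun h0 => hR.ne0 (h0 ▸ hαR)
  have hT : ∑ β ∈ (pos R δ).erase α, (inner ℝ) α β = 0 := by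
    have h1 : ∑ β ∈ (pos R δ).erase α, (inner ℝ) α β = ∑ β ∈ (pos R δ).erase α, (inner ℝ) α (refl α β) := by
      refine Finset.sum_nbij' (refl α) (refl α) ?_ ?_ ?_ ?_ ?_
      · intro β hβ
        rw [Finset.mem_erase] at hβ ⊢
        refine ⟨?_, refl_pos hR hneg hrs hrf hδ hα hβ.2 hβ.1⟩
        intro h
        have h2 : β = refl α α := by
          have h22 := congrArg (refl α) h
          rwa [refl_refl] at h22
        rw [hrf α hα1, mul_div_assoc, div_self hα0.ne', mul_one, two_smul] at h2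
        have h3 : β = -α := by rw [h2]; abel
        exact not_both hα.1 (h3 ▸ hβ.2)
      · intro β hβ
        rw [Finset.mem_erase] at hβ ⊢
        refine ⟨?_, refl_pos hR hneg hrs hrf hδ hα hβ.2 hβ.1⟩
        intro h
        have h2 : β = refl α α := by
          have h22 := congrArg (refl α) h
          rwa [refl_refl] at h22
        rw [hrf α hα1, mul_div_assoc, div_self hα0.ne', mul_one, two_smul] at h2
        have h3 : β = -α := by rw [h2]; abel
        exact not_both hα.1 (h3 ▸ hβ.2)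
      · intro β _; exact refl_refl _ _
      · intro β _; exact refl_refl _ _
      · intro β _; rw [refl_refl]
    have h2 : ∀ β, (inner ℝ) α (refl α β) = -(inner ℝ) α β := by
      intro β
      rw [hrf α hα1, inner_sub_right, real_inner_smul_right, div_mul_cancel₀ _ hα0.ne']
      ring
    simp only [h2, Finset.sum_neg_distrib] at h1
    linarith
  have h3 : (inner ℝ) α (∑ β ∈ pos R δ, β) = (inner ℝ) α α := by
    rw [inner_sum, ← Finset.add_sum_erase _ _ hα.1, hT, add_zero]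
  rw [rho, real_inner_smul_right, h3]
  ring

lemma nonpos_of_simple (f : V n) (h : ∀ α, Smp R δ α → (inner ℝ) α f ≤ 0) : ∀ α ∈ pos R δ, (inner ℝ) α f ≤ 0 := by
  classical
  by_contra hc
  push Not at hc
  obtain ⟨α₀, hα₀, h0⟩ := hc
  have hne : ((pos R δ).filter fun α => 0 < (inner ℝ) α f).Nonempty := ⟨α₀, by simp [hα₀, h0]⟩
  obtain ⟨α, hα, hmin⟩ := Finset.exists_min_image _ (fun α => (inner ℝ) δ α) hne
  rw [Finset.mem_filter] at hα
  have hns : ¬ Smp R δ α := fun hs => absurd (h α hs) (not_le.2 hα.2)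
  unfold Smp at hns
  push Not at hns
  obtain ⟨β, hβ, γ, hγ, he⟩ := hns hα.1
  have hβ' := (mem_pos.1 hβ).2
  have hγ' := (mem_pos.1 hγ).2
  have h1 : (inner ℝ) δ α = (inner ℝ) δ β + (inner ℝ) δ γ := by rw [← he, inner_add_right]
  have h2 : (inner ℝ) α f = (inner ℝ) β f + (inner ℝ) γ f := by rw [← he, inner_add_left]
  by_cases h3 : 0 < (inner ℝ) β f
  · have := hmin β (by simp [hβ, h3])
    linarith
  · have h4 : 0 < (inner ℝ) γ f := by linarith [hα.2]
    have := hmin γ (by simp [hγ, h4])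
    linarith

/-- the dominant weight rho - sigma is rho -/
lemma dom_eq (hR : IsRS R) (hneg : ∀ α ∈ R, -α ∈ R)
    (hrs : ∀ α ∈ R, ∀ β ∈ R, (inner ℝ) α β < 0 → β ≠ -α → α + β ∈ R)
    (hrf : ∀ α : V n, α ≠ 0 → ∀ x : V n, refl α x = x - (2 * (inner ℝ) α x / (inner ℝ) α α) • α)
    (hδ : Reg R δ) (S : Finset (V n)) (hS : S ⊆ pos R δ)
    (h : ∀ α ∈ pos R δ, 0 < (inner ℝ) α (rho R δ - ∑ β ∈ S, β)) : ∑ β ∈ S, β = 0 := by
  set σ := ∑ β ∈ S, β with hσ
  have h1 : ∀ α ∈ pos R δ, (inner ℝ) α σ ≤ 0 := by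
    refine nonpos_of_simple σ ?_
    intro α hα
    have hαR := (mem_pos.1 hα.1).1
    have hα0 : 0 < (inner ℝ) α α := ip_pos hR hαR
    have h2 : ∃ z : ℤ, 2 * (inner ℝ) α σ = z * (inner ℝ) α α := by
      have h3 : ∀ β ∈ S, ∃ z : ℤ, 2 * (inner ℝ) α β = z * (inner ℝ) α α := fun β hβ =>
        hR.int α hαR β (mem_pos.1 (hS hβ)).1
      choose! z hz using h3
      refine ⟨∑ β ∈ S, z β, ?_⟩
      rw [hσ, inner_sum, Finset.mul_sum]
      push_cast
      rw [Finset.sum_mul]
      exact Finset.sum_congr rfl hz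
    obtain ⟨z, hz⟩ := h2
    have h4 := h α hα.1
    rw [inner_sub_right] at h4
    have h5 := rho_simple hR hneg hrs hrf hδ hα
    have h6 : 0 < (1 - (z : ℝ)) * (inner ℝ) α α := by nlinarith
    have h7 : 0 < 1 - (z : ℝ) := by
      by_contra hc
      push Not at hc
      nlinarith
    have h8 : z ≤ 0 := by
      have : (z : ℝ) < 1 := by linarith
      have : z < 1 := by exact_mod_cast this
      omega
    have h9 : (z : ℝ) ≤ 0 := by exact_mod_cast h8
    nlinarith
  have h2 : (inner ℝ) σ σ ≤ 0 := by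
    nth_rw 1 [hσ]
    rw [sum_inner]
    exact Finset.sum_nonpos fun β hβ => h1 β (hS hβ)
  have h3 : (inner ℝ) σ σ = 0 := le_antisymm h2 real_inner_self_nonneg
  exact inner_self_eq_zero.1 h3


lemma sign_prod (hR : IsRS R) (hneg : ∀ α ∈ R, -α ∈ R)
    (hrf : ∀ α : V n, α ≠ 0 → ∀ x : V n, refl α x = x - (2 * (inner ℝ) α x / (inner ℝ) α α) • α)
    (hδ : Reg R δ) {M : Type*} [CommRing M] (F : V n → M) (hF : ∀ α, F (-α) = -F α)
    {β : V n} (hβ : β ∈ R) : ∏ α ∈ pos R δ, F (refl β α) = -∏ α ∈ pos R δ, F α := by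
  classical
  obtain ⟨b, hb, hbβ⟩ : ∃ b ∈ pos R δ, b = β ∨ b = -β := by
    rcases pos_or hneg hδ hβ with h | h
    · exact ⟨β, h, Or.inl rfl⟩
    · exact ⟨-β, h, Or.inr rfl⟩
  have hβ0 : β ≠ 0 := fun h0 => hR.ne0 (h0 ▸ hβ)
  have hββ : 0 < (inner ℝ) β β := ip_pos hR hβ
  have hform : ∀ x, refl β x = x - (2 * (inner ℝ) β x / (inner ℝ) β β) • β := hrf β hβ0
  have hmemR : ∀ α ∈ R, refl β α ∈ R := hR.refl_mem β hβ
  have hss : ∀ x, refl β (refl β x) = x := fun x => refl_refl β x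
  have hsβ : refl β β = -β := by
    rw [hform, mul_div_assoc, div_self hββ.ne', mul_one, two_smul]; abel
  have hsb : refl β b = -b := by
    rcases hbβ with h | h
    · rw [h, hsβ]
    · rw [h, map_neg, hsβ]
  have hRb : ∀ α ∈ pos R δ, refl β α = -α → α = b := by
    intro α hα h
    rw [hform] at h
    have h1 : α = ((inner ℝ) β α / (inner ℝ) β β) • β := by
      have h2 : α + α = (2 * (inner ℝ) β α / (inner ℝ) β β) • β := by
        have h3 : α - (2 * (inner ℝ) β α / (inner ℝ) β β) • β + α = 0 := by rw [h]; abel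
        have h4 : α + α - (2 * (inner ℝ) β α / (inner ℝ) β β) • β = 0 := by rw [← h3]; abel
        exact sub_eq_zero.1 h4
      have h5 : α = (1 / 2 : ℝ) • (α + α) := by rw [← two_smul ℝ α, smul_smul]; norm_num
      have h6 : (1 / 2 : ℝ) • (α + α) = ((inner ℝ) β α / (inner ℝ) β β) • β := by
        rw [h2, smul_smul]
        congr 1
        ring
      exact h5.trans h6
    rcases hR.red β hβ _ (h1 ▸ (mem_pos.1 hα).1) with h2 | h2
    · rw [h2, one_smul] at h1
      rcases hbβ with h3 | h3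
      · rw [h1, h3]
      · exfalso
        rw [h1] at hα
        rw [h3] at hb
        exact not_both hα hb
    · rw [h2, neg_one_smul] at h1
      rcases hbβ with h3 | h3
      · exfalso
        rw [h1] at hα
        rw [h3] at hb
        exact not_both hb hα
      · rw [h1, h3]
  generalize refl β = s at *
  let τ : V n → V n := fun α => if s α ∈ pos R δ then s α else -(s α)
  let η : V n → M := fun α => if s α ∈ pos R δ then 1 else -1
  have hneg' : ∀ α ∈ pos R δ, s α ∉ pos R δ → -(s α) ∈ pos R δ := fun α hα h =>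
    (pos_or hneg hδ (hmemR α (mem_pos.1 hα).1)).resolve_left h
  have hτm : ∀ α ∈ pos R δ, τ α ∈ pos R δ := by
    intro α hα
    by_cases h : s α ∈ pos R δ
    · simp only [τ, if_pos h]; exact h
    · simp only [τ, if_neg h]; exact hneg' α hα h
  have hstau : ∀ α ∈ pos R δ, τ (τ α) = α ∧ (s (τ α) ∈ pos R δ ↔ s α ∈ pos R δ) := by
    intro α hα
    by_cases h : s α ∈ pos R δ
    · have h1 : τ α = s α := if_pos h
      have h2 : s (τ α) = α := by rw [h1, hss]
      refine ⟨?_, ?_⟩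
      · show (if s (τ α) ∈ pos R δ then s (τ α) else -(s (τ α))) = α
        rw [h2, if_pos hα]
      · rw [h2]; exact ⟨fun _ => h, fun _ => hα⟩
    · have h1 : τ α = -(s α) := if_neg h
      have h2 : s (τ α) = -α := by rw [h1, map_neg, hss]
      have h3 : -α ∉ pos R δ := fun h' => not_both hα h'
      refine ⟨?_, ?_⟩
      · show (if s (τ α) ∈ pos R δ then s (τ α) else -(s (τ α))) = α
        rw [h2, if_neg h3, neg_neg]
      · rw [h2]; exact ⟨fun h' => absurd h' h3, fun h' => absurd h' h⟩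
  have h1 : ∀ α ∈ pos R δ, F (s α) = η α * F (τ α) := by
    intro α _
    by_cases h : s α ∈ pos R δ
    · simp only [η, τ, if_pos h, one_mul]
    · simp only [η, τ, if_neg h, hF]; ring
  rw [Finset.prod_congr rfl h1, Finset.prod_mul_distrib]
  have h2 : ∏ α ∈ pos R δ, F (τ α) = ∏ α ∈ pos R δ, F α :=
    Finset.prod_nbij' τ τ hτm hτm (fun a ha => (hstau a ha).1) (fun a ha => (hstau a ha).1)
      (fun _ _ => rfl)
  have hbn : s b ∉ pos R δ := by rw [hsb]; exact fun h' => not_both hb h'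
  have h3 : ∏ α ∈ pos R δ, η α = -1 := by
    rw [← Finset.mul_prod_erase _ _ hb]
    have h4 : η b = -1 := if_neg hbn
    have hτb : τ b = b := by
      show (if s b ∈ pos R δ then s b else -(s b)) = b
      rw [if_neg hbn, hsb, neg_neg]
    have h5 : ∏ α ∈ (pos R δ).erase b, η α = 1 := by
      refine Finset.prod_involution (fun α _ => τ α) ?_ ?_ ?_ ?_
      · intro α hα
        have hα' := Finset.mem_of_mem_erase hα
        have h6 := (hstau α hα').2
        by_cases h : s α ∈ pos R δ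
        · have h7 : η α = 1 := if_pos h
          have h8 : η (τ α) = 1 := if_pos (h6.2 h)
          rw [h7, h8, one_mul]
        · have h7 : η α = -1 := if_neg h
          have h8 : η (τ α) = -1 := if_neg (fun h' => h (h6.1 h'))
          rw [h7, h8]; ring
      · intro α hα hne heq
        have hα' := Finset.mem_of_mem_erase hα
        have h : s α ∉ pos R δ := fun h => hne (if_pos h)
        have h7 : τ α = -(s α) := if_neg h
        have h8 : s α = -α := by
          have h9 : -(s α) = α := by rw [← h7]; exact heq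
          exact neg_eq_iff_eq_neg.1 h9
        exact Finset.ne_of_mem_erase hα (hRb α hα' h8)
      · intro α hα
        have hα' := Finset.mem_of_mem_erase hα
        rw [Finset.mem_erase]
        refine ⟨?_, hτm α hα'⟩
        intro h
        have h9 : τ (τ α) = b := by rw [h, hτb]
        rw [(hstau α hα').1] at h9
        exact Finset.ne_of_mem_erase hα h9
      · intro α hα
        exact (hstau α (Finset.mem_of_mem_erase hα)).1
    rw [h4, h5, mul_one]
  rw [h2, h3, neg_one_mul]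


/-- the group algebra -/
abbrev GA (n : ℕ) := AddMonoidAlgebra ℂ (V n)

/-- e^(al/2) - e^(-al/2) -/
noncomputable def Fe (α : V n) : GA n :=
  AddMonoidAlgebra.single ((1 / 2 : ℝ) • α) 1 - AddMonoidAlgebra.single (-((1 / 2 : ℝ) • α)) 1

lemma Fe_neg (α : V n) : Fe (-α) = -Fe α := by
  unfold Fe
  rw [smul_neg, neg_neg, neg_sub]

/-- the denominator -/
noncomputable def Dn (R : Finset (V n)) (δ : V n) : GA n := ∏ α ∈ pos R δ, Fe α

/-- the map of the group algebra induced by an isometry -/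
noncomputable def ph (w : V n ≃ₗᵢ[ℝ] V n) : GA n →+* GA n :=
  AddMonoidAlgebra.mapDomainRingHom ℂ (w.toLinearEquiv : V n →ₗ[ℝ] V n).toAddMonoidHom

lemma ph_apply (w : V n ≃ₗᵢ[ℝ] V n) (x : GA n) : ph w x = AddMonoidAlgebra.mapDomain w x := rfl

lemma ph_Fe (w : V n ≃ₗᵢ[ℝ] V n) (α : V n) : ph w (Fe α) = Fe (w α) := by
  unfold Fe
  rw [map_sub, ph_apply, ph_apply, AddMonoidAlgebra.mapDomain_single,
    AddMonoidAlgebra.mapDomain_single, map_neg, map_smul]

lemma ph_coeff (w : V n ≃ₗᵢ[ℝ] V n) (x : GA n) (μ : V n) : (ph w x).coeff (w μ) = x.coeff μ := by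
  rw [ph_apply, AddMonoidAlgebra.coeff_mapDomain]
  exact Finsupp.mapDomain_apply w.injective _ _

lemma prod_single (S : Finset (V n)) (f : V n → V n) :
    ∏ α ∈ S, (AddMonoidAlgebra.single (f α) 1 : GA n) = AddMonoidAlgebra.single (∑ α ∈ S, f α) 1 := by
  classical
  induction S using Finset.induction_on with
  | empty => simp [AddMonoidAlgebra.one_def]
  | insert a S ha ih =>
    rw [Finset.prod_insert ha, Finset.sum_insert ha, ih, AddMonoidAlgebra.single_mul_single, mul_one]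

open Classical in
lemma Dn_expand : Dn R δ = ∑ t ∈ (pos R δ).powerset,
    ((-1 : ℂ) ^ #t) • (AddMonoidAlgebra.single (rho R δ - ∑ β ∈ t, β) 1 : GA n) := by
  unfold Dn Fe
  rw [Finset.prod_sub]
  refine Finset.sum_congr rfl ?_
  intro t ht
  rw [Finset.mem_powerset] at ht
  rw [prod_single, prod_single, mul_assoc, AddMonoidAlgebra.single_mul_single, mul_one,
    Algebra.smul_def, map_pow, map_neg, map_one]
  congr 2
  rw [Finset.sum_neg_distrib, ← Finset.smul_sum, ← Finset.smul_sum, rho,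
    ← Finset.sum_sdiff ht, smul_add]
  generalize ∑ x ∈ t, x = B
  generalize ∑ x ∈ pos R δ \ t, x = A
  module

open Classical in
lemma Dn_coeff (μ : V n) : (Dn R δ).coeff μ = ∑ t ∈ (pos R δ).powerset,
    ((-1 : ℂ) ^ #t) * (if rho R δ - ∑ β ∈ t, β = μ then 1 else 0) := by
  rw [Dn_expand, AddMonoidAlgebra.coeff_sum, Finsupp.finsetSum_apply]
  refine Finset.sum_congr rfl ?_
  intro t _
  rw [AddMonoidAlgebra.coeff_smul_apply, AddMonoidAlgebra.coeff_single, Finsupp.single_apply, smul_eq_mul]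

lemma Dn_supp {μ : V n} (h : (Dn R δ).coeff μ ≠ 0) :
    ∃ t ⊆ pos R δ, μ = rho R δ - ∑ β ∈ t, β := by
  classical
  by_contra hc
  push Not at hc
  apply h
  rw [Dn_coeff]
  refine Finset.sum_eq_zero ?_
  intro t ht
  rw [if_neg (fun h' => hc t (Finset.mem_powerset.1 ht) h'.symm), mul_zero]

lemma Dn_rho : (Dn R δ).coeff (rho R δ) = 1 := by
  classical
  rw [Dn_coeff, Finset.sum_eq_single ∅]
  · simp
  · intro t ht hne
    rw [if_neg, mul_zero]
    intro h
    have h1 : ∑ β ∈ t, β = 0 := by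
      have := sub_eq_self.1 h
      exact this
    have h2 : 0 < (inner ℝ) δ (∑ β ∈ t, β) := by
      rw [inner_sum]
      refine Finset.sum_pos ?_ (Finset.nonempty_iff_ne_empty.2 hne)
      intro β hβ
      exact (mem_pos.1 (Finset.mem_powerset.1 ht hβ)).2
    rw [h1, inner_zero_right] at h2
    exact lt_irrefl _ h2
  · intro h
    exact absurd (Finset.empty_mem_powerset _) h

lemma sg_mul (v w : V n ≃ₗᵢ[ℝ] V n) : sg (v * w) = sg v * sg w := by
  unfold sg
  rw [← map_mul]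
  rfl

lemma sg_one : sg (1 : V n ≃ₗᵢ[ℝ] V n) = 1 := by
  unfold sg
  exact map_one _

lemma Dn_equiv (hR : IsRS R) (hneg : ∀ α ∈ R, -α ∈ R)
    (hsg : ∀ α ∈ R, sg (refl α) = -1)
    (hrf : ∀ α : V n, α ≠ 0 → ∀ x : V n, refl α x = x - (2 * (inner ℝ) α x / (inner ℝ) α α) • α)
    (hδ : Reg R δ) : ∀ w ∈ W R, ∀ μ : V n,
      (Dn R δ).coeff (w μ) = ((sg w : ℝ) : ℂ) * (Dn R δ).coeff μ := by
  intro w hw
  unfold W at hw
  induction hw using Subgroup.closure_induction with
  | mem x hx =>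
    obtain ⟨β, hβ, rfl⟩ := hx
    intro μ
    have h1 : ph (refl β) (Dn R δ) = -Dn R δ := by
      unfold Dn
      rw [map_prod]
      simp only [ph_Fe]
      exact sign_prod hR hneg hrf hδ Fe Fe_neg hβ
    have h2 := ph_coeff (refl β) (Dn R δ) μ
    rw [h1, AddMonoidAlgebra.coeff_neg, Finsupp.neg_apply] at h2
    rw [hsg β hβ, ← h2]
    push_cast
    ring
  | one => intro μ; rw [sg_one]; simp
  | mul x y hx hy h1 h2 =>
    intro μ
    rw [sg_mul]
    have : (x * y) μ = x (y μ) := rfl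
    rw [this, h1, h2]
    push_cast
    ring
  | inv x hx h1 =>
    intro μ
    have h2 : sg x⁻¹ * sg x = 1 := by rw [← sg_mul, inv_mul_cancel, sg_one]
    have h3 : x (x⁻¹ μ) = μ := by
      have : (x * x⁻¹) μ = μ := by rw [mul_inv_cancel]; rfl
      exact this
    have h4 := h1 (x⁻¹ μ)
    rw [h3] at h4
    rw [h4, ← mul_assoc]
    have h5 : ((sg x⁻¹ : ℝ) : ℂ) * ((sg x : ℝ) : ℂ) = 1 := by
      rw [← Complex.ofReal_mul, h2, Complex.ofReal_one]
    rw [h5, one_mul]

/-- evaluation -/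
noncomputable def chr (x : V n) : Multiplicative (V n) →* ℂ where
  toFun μ := Complex.exp (Complex.I * (((inner ℝ) μ.toAdd x : ℝ) : ℂ))
  map_one' := by simp
  map_mul' a b := by
    rw [toAdd_mul, inner_add_left, ← Complex.exp_add]
    congr 1
    push_cast
    ring

noncomputable def ev (x : V n) : GA n →ₐ[ℂ] ℂ := AddMonoidAlgebra.lift ℂ ℂ (V n) (chr x)

lemma ev_single (x μ : V n) : ev x (AddMonoidAlgebra.single μ 1) =
    Complex.exp (Complex.I * (((inner ℝ) μ x : ℝ) : ℂ)) := by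
  unfold ev
  rw [AddMonoidAlgebra.lift_single, one_smul]
  rfl

lemma ev_Fe (x α : V n) : ev x (Fe α) =
    Complex.exp (Complex.I * (((inner ℝ) α x : ℝ) : ℂ) / 2) - Complex.exp (-(Complex.I * (((inner ℝ) α x : ℝ) : ℂ) / 2)) := by
  unfold Fe
  rw [map_sub, ev_single, ev_single, inner_neg_left, real_inner_smul_left]
  congr 2
  · push_cast; ring
  · push_cast; ring

theorem main : S_W → S_rs → S_ch → S_wdf := by
  classical
  intro HW Hrs Hch n R hR δ hδ
  obtain ⟨hWf, hstab, hsg1, hsgr, hneg, -, -, hrf, -⟩ := HW n R hR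
  have hrs := Hrs n R hR
  have heq := Dn_equiv hR hneg hsgr hrf hδ
  set D := Dn R δ with hD
  have hDrho : D.coeff (rho R δ) = 1 := Dn_rho
  have hsgne : ∀ w ∈ Wf R, ((sg w : ℝ) : ℂ) ≠ 0 := by
    intro w hw
    rcases hsg1 w hw with h | h <;> rw [h] <;> norm_num
  have hkey : ∀ μ, D.coeff μ ≠ 0 → ∃ w ∈ Wf R, w μ = rho R δ := by
    intro μ hμ
    have hreg : Reg R μ := by
      intro β hβ h0
      have hβ0 : β ≠ 0 := fun h0 => hR.ne0 (h0 ▸ hβ)
      have h1 : refl β μ = μ := by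
        rw [hrf β hβ0, real_inner_comm, h0]; simp
      have h2 := heq (refl β) (Subgroup.subset_closure ⟨β, hβ, rfl⟩) μ
      rw [h1, hsgr β hβ] at h2
      apply hμ
      push_cast at h2
      linear_combination (1 / 2 : ℂ) * h2
    obtain ⟨w, hw, hpos⟩ := Hch n R hR δ hδ μ hreg
    refine ⟨w, hw, ?_⟩
    have h1 : D.coeff (w μ) ≠ 0 := by
      rw [heq w ((hWf w).1 hw)]
      exact mul_ne_zero (hsgne w hw) hμ
    obtain ⟨t, ht, h2⟩ := Dn_supp h1
    rw [h2] at hpos
    rw [h2, dom_eq hR hneg hrs hrf hδ t ht hpos, sub_zero]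
  have hwrho : ∀ w ∈ Wf R, D.coeff (w (rho R δ)) = ((sg w : ℝ) : ℂ) := by
    intro w hw
    rw [heq w ((hWf w).1 hw), hDrho, mul_one]
  have h1W : (1 : V n ≃ₗᵢ[ℝ] V n) ∈ Wf R := (hWf 1).2 (Subgroup.one_mem _)
  have hmulW : ∀ v ∈ Wf R, ∀ w ∈ Wf R, v * w ∈ Wf R := fun v hv w hw =>
    (hWf _).2 (Subgroup.mul_mem _ ((hWf v).1 hv) ((hWf w).1 hw))
  have hinvW : ∀ v ∈ Wf R, v⁻¹ ∈ Wf R := fun v hv =>
    (hWf _).2 (Subgroup.inv_mem _ ((hWf v).1 hv))
  set m := #{w ∈ Wf R | w (rho R δ) = rho R δ} with hm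
  refine ⟨m, ?_, ?_⟩
  · rw [hm]
    exact Finset.card_pos.2 ⟨1, Finset.mem_filter.2 ⟨h1W, rfl⟩⟩
  have hE : ∑ w ∈ Wf R, ((sg w : ℝ) : ℂ) • (AddMonoidAlgebra.single (w (rho R δ)) 1 : GA n) =
      (m : ℂ) • D := by
    refine AddMonoidAlgebra.ext (Finsupp.ext fun μ => ?_)
    rw [AddMonoidAlgebra.coeff_sum, Finsupp.finsetSum_apply, AddMonoidAlgebra.coeff_smul_apply,
      smul_eq_mul]
    have h1 : ∀ w ∈ Wf R, (((sg w : ℝ) : ℂ) •
        (AddMonoidAlgebra.single (w (rho R δ)) 1 : GA n)).coeff μ =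
        if w (rho R δ) = μ then D.coeff μ else 0 := by
      intro w hw
      rw [AddMonoidAlgebra.coeff_smul_apply, AddMonoidAlgebra.coeff_single, Finsupp.single_apply, smul_eq_mul]
      by_cases h : w (rho R δ) = μ
      · rw [if_pos h, if_pos h, ← h, hwrho w hw, mul_one]
      · rw [if_neg h, if_neg h, mul_zero]
    rw [Finset.sum_congr rfl h1, ← Finset.sum_filter, Finset.sum_const, nsmul_eq_mul]
    by_cases h0 : D.coeff μ = 0
    · rw [h0, mul_zero, mul_zero]
    · obtain ⟨w₀, hw₀, h2⟩ := hkey μ h0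
      congr 2
      have e1 : w₀⁻¹ (rho R δ) = μ := by
        rw [← h2]
        have : (w₀⁻¹ * w₀) μ = μ := by rw [inv_mul_cancel]; rfl
        exact this
      refine Finset.card_nbij' (fun w => w₀ * w) (fun w => w₀⁻¹ * w) ?_ ?_ ?_ ?_
      · intro w hw
        rw [Finset.mem_coe, Finset.mem_filter] at hw ⊢
        refine ⟨hmulW _ hw₀ _ hw.1, ?_⟩
        show w₀ (w (rho R δ)) = rho R δ
        rw [hw.2, h2]
      · intro w hw
        rw [Finset.mem_coe, Finset.mem_filter] at hw ⊢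
        refine ⟨hmulW _ (hinvW _ hw₀) _ hw.1, ?_⟩
        show w₀⁻¹ (w (rho R δ)) = μ
        rw [hw.2, e1]
      · intro w _; simp
      · intro w _; simp
  intro x
  have h3 := congrArg (ev x) hE
  rw [map_sum, map_smul, smul_eq_mul, hD] at h3
  unfold Dn at h3
  rw [map_prod] at h3
  simp only [ev_Fe] at h3
  rw [← h3]
  unfold E
  refine Finset.sum_congr rfl ?_
  intro w _
  rw [map_smul, smul_eq_mul, ev_single]
  congr 2
  unfold cp
  simp

end H391.AE.P_wdf
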